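import Pool.Agent.Lib.MP_8f66f0_al_FL.Defs
import Pool.Agent.Lib.MP_8f66f0_al_BB.Out

/-!
# Project GLn, part C: the hypotheses on the derived systems, iterated derived systems

`HT k Γ S`, `KTY k Γ S`: the statements `SFTT`, `KTT` of part B for the base labels of the objects of a
flag system `S`. `Itd Γ S0 S ds b j`: `S` is an iterated derived system of `S0`; its objects are the
objects `y` of `S0` with `R t y = d` for all `(d, t)` in the list `ds`, the times are counted from `b`.

The statements `S_ht`, `S_kty` say that `HT`, `KTY` follow from `SFTT`, `KTT` for a poset `P` of labels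
which describes the base labels of `S` (`Rep`).
-/

set_option autoImplicit false

namespace Pool.Agent.GLC

open Pool.Agent.FL Pool.Agent.BB Pool.Agent.GLA Pool.Agent.Wald Pool.Agent.Ind

section HT

variable {Y B C : Type} (k Γ : Type) [CommRing k] [Group Γ] [PartialOrder B] [MulAction Γ B]

/-- Idempotent matrices which respect the base labels are stably conjugate to diagonal ones. -/
def HT (S : FSys Y B C) : Prop :=
  ∀ (n : Type) [Fintype n] [DecidableEq n] (c : n → Y) (e : Matrix n n (MonoidAlgebra k Γ)),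
    Resp (fun i => S.base (c i)) (fun i => S.base (c i)) e → e * e = e →
    ∃ (m : Type) (_ : Fintype m) (_ : DecidableEq m) (c' : m → Y) (s : m → Prop)
      (_ : DecidablePred s) (t : n ⊕ m → Prop) (_ : DecidablePred t)
      (u v : Matrix (n ⊕ m) (n ⊕ m) (MonoidAlgebra k Γ)),
      Resp (fun i => S.base (Sum.elim c c' i)) (fun i => S.base (Sum.elim c c' i)) u ∧
      Resp (fun i => S.base (Sum.elim c c' i)) (fun i => S.base (Sum.elim c c' i)) v ∧
      u * v = 1 ∧ v * u = 1 ∧
      u * Matrix.fromBlocks e 0 0 (Matrix.diagonal fun j => if s j then 1 else 0) * v =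
        Matrix.diagonal fun i => if t i then 1 else 0

/-- Invertible matrices which respect the base labels come from the stabilizers. -/
def KTY (S : FSys Y B C) : Prop :=
  ∀ (K : Type) [CommGroup K] (κ : K1Fun (MonoidAlgebra k Γ) K),
    (∀ (y : Y) (n : Type) [Fintype n] [DecidableEq n]
      (A : Matrix n n (MonoidAlgebra k (MulAction.stabilizer Γ (S.base y)))), IsUnit A →
      κ.f (A.map (MonoidAlgebra.mapDomainRingHom k
        (MulAction.stabilizer Γ (S.base y)).subtype)) = 1) →
    ∀ (n : Type) [Fintype n] [DecidableEq n] (c : n → Y)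
      (a b : Matrix n n (MonoidAlgebra k Γ)),
      Resp (fun i => S.base (c i)) (fun i => S.base (c i)) a →
      Resp (fun i => S.base (c i)) (fun i => S.base (c i)) b → a * b = 1 → b * a = 1 → κ.f a = 1

variable {k}

/-- `P` describes the base labels of the objects of `S`. -/
structure Rep {P : Type} [PartialOrder P] [MulAction Γ P] (S : FSys Y B C) (fl : Y → P) : Prop where
  le : ∀ (g : Γ) (y y' : Y), g • S.base y ≤ S.base y' ↔ g • fl y ≤ fl y'
  surj : Nonempty Y → ∀ p : P, ∃ (g : Γ) (y : Y), p = g • fl y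

end HT

section Itd

variable {Y0 B0 C Y B : Type} (Γ : Type) [Group Γ] [PartialOrder B0] [MulAction Γ B0]
  [PartialOrder B] [MulAction Γ B] [PartialOrder C] [MulAction Γ C]

/-- Iterated derived systems. -/
structure Itd (S0 : FSys Y0 B0 C) (S : FSys Y B C) (ds : List (ℕ × ℕ)) (b : ℕ) (j : Y → Y0) :
    Prop where
  inj : Function.Injective j
  rng : ∀ y0, (∃ y, j y = y0) ↔ ∀ p ∈ ds, S0.R p.2 y0 = p.1
  le : ∀ (g : Γ) (y y' : Y), g • S.base y ≤ S.base y' ↔
    g • S0.base (j y) ≤ S0.base (j y') ∧ ∀ p ∈ ds, g • S0.lab (j y) p.1 ≤ S0.lab (j y') p.1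
  lab : ∀ y, S.lab y = S0.lab (j y)
  R : ∀ h y, S.R h y = S0.R (b + h) (j y)
  tm : ds.Pairwise fun p q => p.2 ≤ q.2
  tb : ∀ p ∈ ds, p.2 ≤ b

variable {Γ}

theorem Itd.refl (S0 : FSys Y0 B0 C) : Itd Γ S0 S0 [] 0 id where
  inj := Function.injective_id
  rng y0 := ⟨fun _ p hp => absurd hp List.not_mem_nil, fun _ => ⟨y0, rfl⟩⟩
  le g y y' := ⟨fun h => ⟨h, fun p hp => absurd hp List.not_mem_nil⟩, fun h => h.1⟩
  lab _ := rfl
  R h y := by rw [zero_add]; rfl
  tm := List.Pairwise.nil
  tb p hp := absurd hp List.not_mem_nil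

theorem Itd.der {S0 : FSys Y0 B0 C} {S : FSys Y B C} {ds : List (ℕ × ℕ)} {b : ℕ} {j : Y → Y0}
    (H : Itd Γ S0 S ds b j) (d b' : ℕ) :
    Itd Γ S0 (S.der d b') (ds ++ [(d, b + b')]) (b + b') (fun y => j y.1) where
  inj y y' h := Subtype.ext (H.inj h)
  rng y0 := by
    constructor
    · rintro ⟨y, rfl⟩ p hp
      rcases List.mem_append.1 hp with hp | hp
      · exact (H.rng _).1 ⟨y.1, rfl⟩ p hp
      · rw [List.mem_singleton.1 hp]
        change S0.R (b + b') (j y.1) = d
        rw [← H.R]
        exact y.2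
    · intro h
      obtain ⟨y, rfl⟩ := (H.rng y0).2 fun p hp => h p (List.mem_append_left _ hp)
      refine ⟨⟨y, ?_⟩, rfl⟩
      rw [H.R]
      exact h (d, b + b') (List.mem_append_right _ (List.mem_singleton.2 rfl))
  le g y y' := by
    change (g • S.base y.1 ≤ S.base y'.1 ∧ g • S.lab y.1 d ≤ S.lab y'.1 d) ↔ _
    rw [H.le, H.lab, H.lab]
    constructor
    · rintro ⟨⟨h1, h2⟩, h3⟩
      refine ⟨h1, fun p hp => ?_⟩
      rcases List.mem_append.1 hp with hp | hp
      · exact h2 p hp
      · rw [List.mem_singleton.1 hp]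
        exact h3
    · rintro ⟨h1, h2⟩
      exact ⟨⟨h1, fun p hp => h2 p (List.mem_append_left _ hp)⟩,
        h2 (d, b + b') (List.mem_append_right _ (List.mem_singleton.2 rfl))⟩
  lab y := H.lab y.1
  R h y := by rw [R_der, H.R, add_assoc]
  tm := by
    rw [List.pairwise_append]
    refine ⟨H.tm, List.pairwise_singleton _ _, fun p hp q hq => ?_⟩
    rw [List.mem_singleton.1 hq]
    exact (H.tb p hp).trans (Nat.le_add_right _ _)
  tb p hp := by
    rcases List.mem_append.1 hp with hp | hp
    · exact (H.tb p hp).trans (Nat.le_add_right _ _)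
    · rw [List.mem_singleton.1 hp]

end Itd

/-! ### Statements -/

/-- `HT` from `SFTT`. PROOF. If `Y` is empty, `n` is empty: take `m` empty. Otherwise `Resp` for the
base labels is `Resp` for `fl` (`Rep.le`); `SFTT` gives labels `c' j = g_j • fl y_j`; conjugate by the
diagonal matrix `(1, single g_j 1)`. -/
def S_ht : Prop :=
  ∀ (Y B C k Γ P : Type) [CommRing k] [Group Γ] [PartialOrder B] [MulAction Γ B] [PartialOrder P]
    [MulAction Γ P] [OrdAct Γ P] (S : FSys Y B C) (fl : Y → P), Rep Γ S fl → SFTT k Γ P → HT k Γ S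

/-- `KTY` from `KTT`. PROOF. As for `S_ht`: the stabilizer of `g • fl y` is conjugate to the stabilizer
of `fl y`, which is the stabilizer of `S.base y` (`Rep.le` for `g` and `g⁻¹`, antisymmetry). -/
def S_kty : Prop :=
  ∀ (Y B C k Γ P : Type) [CommRing k] [Group Γ] [PartialOrder B] [MulAction Γ B] [OrdAct Γ B]
    [PartialOrder P] [MulAction Γ P] [OrdAct Γ P] (S : FSys Y B C) (fl : Y → P), Rep Γ S fl →
    KTT k Γ P → KTY k Γ S

end Pool.Agent.GLC
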