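import Pool.Agent.Lib.MP_8f66f0_al_GLC.RichP
import Pool.Agent.Lib.MP_8f66f0_al_GLA.Exh

/-!
# PROJECT GLn, part C: the real objects

`real hX σ`: the cell `σ` with its labels with respect to `X 0 ≤ X 1 ≤ ...`. At the time `h` its rank is
`rk (lab (X h) σ) - 1` and its label is `lab (X h) σ`.
-/

set_option autoImplicit false

namespace Pool.Agent.GLC

open Pool.Agent.GLA Pool.Agent.FL

variable {M : Type} [ShL M] {X : ℕ → Set M}

/-- The rank at the time `h`. -/
noncomputable def rr (X : ℕ → Set M) (σ : Cell M) (h : ℕ) : ℕ := GLA.rk (GLA.lab (X h) σ.s)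

theorem rr_anti (hX : Exh X) (σ : Cell M) {h h' : ℕ} (hh : h ≤ h') : rr X σ h' ≤ rr X σ h :=
  (lab_mono (hX.adm h) (hX.adm h') (hX.mono hh) σ).1

theorem isLab_of_rr (hX : Exh X) {σ : Cell M} {h : ℕ} (h0 : rr X σ h ≠ 0) :
    IsLab (GLA.lab (X h) σ.s) := by
  refine lab_isLab (hX.adm h).st σ ?_
  rw [Set.nonempty_iff_ne_empty]
  intro h1
  exact h0 ((lab_pgood (hX.adm h).st σ).rk_eq_zero.2 h1)

/-- The label. -/
def mkL (P : Set (M × M)) (h : IsLab P) : Lab M := ⟨P, h⟩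

open Classical in
/-- The list of the labels and the times of death. -/
noncomputable def rlist (hX : Exh X) (σ : Cell M) (T : ℕ) : List (Lab M × ℕ) :=
  (List.range T).filterMap fun h => if hh : rr X σ (h + 1) < rr X σ h then
    some (mkL (GLA.lab (X h) σ.s) (isLab_of_rr hX (Nat.ne_of_gt (Nat.zero_lt_of_lt hh))), h) else none

theorem mem_rlist (hX : Exh X) (σ : Cell M) (T : ℕ) (q : Lab M × ℕ) : q ∈ rlist hX σ T ↔
    q.2 < T ∧ rr X σ (q.2 + 1) < rr X σ q.2 ∧ q.1.1 = GLA.lab (X q.2) σ.s := by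
  unfold rlist
  rw [List.mem_filterMap]
  constructor
  · rintro ⟨h, h1, h2⟩
    split_ifs at h2 with hh
    rw [Option.some.injEq] at h2
    subst h2
    exact ⟨List.mem_range.1 h1, hh, rfl⟩
  · rintro ⟨h1, h2, h3⟩
    refine ⟨q.2, List.mem_range.2 h1, ?_⟩
    rw [dif_pos h2]
    exact congrArg some (Prod.ext (Subtype.ext h3.symm) rfl)

theorem pw_rlist (hX : Exh X) (σ : Cell M) (T : ℕ) :
    ((rlist hX σ T).map Prod.fst).Pairwise Lab.nest := by
  rw [List.pairwise_map]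
  unfold rlist
  rw [List.pairwise_filterMap]
  refine List.pairwise_lt_range.imp ?_
  intro a b hab q hq q' hq'
  split_ifs at hq with h1
  split_ifs at hq' with h2
  rw [Option.some.injEq] at hq hq'
  subst hq hq'
  refine ⟨?_, lab_nest (hX.adm a) (hX.mono hab.le) σ.s⟩
  exact lt_of_le_of_lt (rr_anti hX σ (Nat.succ_le_of_lt hab)) h1

/-- The time of death of a cell. -/
noncomputable def dead (hX : Exh X) (σ : Cell M) : ℕ := by
  classical exact Nat.find (exists_bound_cell σ hX)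

theorem dead_spec (hX : Exh X) (σ : Cell M) : σ.s ⊆ X (dead hX σ) := by
  classical
  exact Nat.find_spec (exists_bound_cell σ hX)

theorem rr_eq_zero (hX : Exh X) (σ : Cell M) (h : ℕ) : rr X σ h = 0 ↔ dead hX σ ≤ h := by
  classical
  unfold rr
  rw [rk_lab_eq_zero (hX.adm h) σ]
  constructor
  · intro h1
    exact Nat.find_le h1
  · intro h1
    exact (dead_spec hX σ).trans (hX.mono h1)

theorem dth_rlist (hX : Exh X) (σ : Cell M) : dth (rlist hX σ (dead hX σ)) = dead hX σ := by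
  rcases Nat.eq_zero_or_pos (dead hX σ) with h0 | h0
  · rw [h0]
    rfl
  · obtain ⟨T, hT⟩ : ∃ T, dead hX σ = T + 1 := ⟨dead hX σ - 1, by omega⟩
    have h1 : rr X σ (T + 1) < rr X σ T := by
      have h2 : rr X σ (T + 1) = 0 := (rr_eq_zero hX σ _).2 hT.le
      have h3 : rr X σ T ≠ 0 := fun h => by
        have := (rr_eq_zero hX σ _).1 h
        omega
      omega
    have h2 : rlist hX σ (T + 1) = rlist hX σ T ++ [(mkL (GLA.lab (X T) σ.s)
        (isLab_of_rr hX (Nat.ne_of_gt (Nat.zero_lt_of_lt h1))), T)] := by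
      unfold rlist
      rw [List.range_succ, List.filterMap_append]
      refine congrArg _ ?_
      rw [List.filterMap_cons, dif_pos h1, List.filterMap_nil]
    rw [hT]
    rw [h2, dth_append]

/-- The real objects. -/
noncomputable def real (hX : Exh X) (σ : Cell M) : Obj X where
  cell := σ
  l := rlist hX σ (dead hX σ)
  ch := pw_rlist hX σ _
  spt := by
    intro q hq
    obtain ⟨_, _, h3⟩ := (mem_rlist hX σ _ q).1 hq
    rw [h3]
    exact lab_supp _ _
  sz := by
    rw [dth_rlist]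
    exact dead_spec hX σ
  szu := by
    intro q hq p hp
    obtain ⟨h1, _, h3⟩ := (mem_rlist hX σ _ q).1 hq
    rw [dth_rlist]
    rw [h3] at hp
    obtain ⟨_, _, l, c, h4, h5, h6⟩ := hp
    rw [h6]
    exact (hX.adm _).sup l (dead_spec hX σ h4.1.1) c (hX.mono h1.le h5.1.1)

theorem real_cell (hX : Exh X) (σ : Cell M) : (real hX σ).cell = σ := rfl

theorem real_inj (hX : Exh X) : Function.Injective (real hX) := fun _ _ h => congrArg Obj.cell h

/-- The last time with the same rank. -/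
theorem exists_last (hX : Exh X) (σ : Cell M) (h : ℕ) (h0 : rr X σ h ≠ 0) :
    ∃ n, h ≤ n ∧ n < dead hX σ ∧ rr X σ n = rr X σ h ∧ rr X σ (n + 1) < rr X σ n := by
  classical
  have h1 : ∃ k, rr X σ (h + k) < rr X σ h := by
    refine ⟨dead hX σ, ?_⟩
    have : rr X σ (h + dead hX σ) = 0 := (rr_eq_zero hX σ _).2 (by omega)
    omega
  have h2 := Nat.find_spec h1
  have h3 : Nat.find h1 ≠ 0 := by
    intro h4
    rw [h4, add_zero] at h2
    exact lt_irrefl _ h2
  obtain ⟨k, hk⟩ : ∃ k, Nat.find h1 = k + 1 := ⟨Nat.find h1 - 1, by omega⟩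
  have h4 : ¬ rr X σ (h + k) < rr X σ h := Nat.find_min h1 (by omega)
  have h5 : rr X σ (h + k) = rr X σ h := le_antisymm (rr_anti hX σ (Nat.le_add_right h k))
    (not_lt.1 h4)
  rw [hk] at h2
  refine ⟨h + k, Nat.le_add_right h k, ?_, h5, ?_⟩
  · by_contra h6
    have := (rr_eq_zero hX σ (h + k)).2 (not_lt.1 h6)
    omega
  · rw [h5]
    exact h2

section R

variable {B : Type} (f : Cell M → B)

theorem real_R (hX : Exh X) (σ : Cell M) (h : ℕ) :
    (objSys hX f).R h (real hX σ) = GLA.rk (GLA.lab (X h) σ.s) - 1 := by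
  change _ = rr X σ h - 1
  by_cases h0 : rr X σ h = 0
  · rw [h0, FSys.R_eq_zero]
    intro s hs
    obtain ⟨q, hq, rfl⟩ := Obj.mem_A.1 hs
    have h1 := (mem_rlist hX σ _ q).1 hq
    have h2 := (rr_eq_zero hX σ h).1 h0
    simp only
    omega
  · refine le_antisymm ?_ ?_
    · rw [FSys.R_le]
      intro d hd
      obtain ⟨n, h1, h2⟩ := (FSys.mem_F _).1 hd
      obtain ⟨q, hq, h3⟩ := Obj.mem_A.1 h1
      rw [Prod.mk.injEq] at h3
      have h4 := (mem_rlist hX σ _ q).1 hq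
      have h5 : q.1.rk = rr X σ q.2 := congrArg GLA.rk h4.2.2
      have h6 := rr_anti hX σ (h := h) (h' := q.2) (by omega)
      omega
    · obtain ⟨n, h1, h2, h3, h4⟩ := exists_last hX σ h h0
      have hq : ((⟨GLA.lab (X n) σ.s, isLab_of_rr hX (by rw [h3]; exact h0)⟩ : Lab M), n) ∈
          (real hX σ).l := (mem_rlist hX σ _ _).2 ⟨h2, h4, rfl⟩
      refine (objSys hX f).le_R (FSys.mem_F _ |>.2 ⟨n, ?_, h1⟩)
      exact Obj.mem_A.2 ⟨_, hq, Prod.ext (congrArg (fun a => a - 1) h3) rfl⟩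

theorem real_lab (hX : Exh X) (σ : Cell M) (h : ℕ) (hP : IsLab (GLA.lab (X h) σ.s)) :
    (objSys hX f).lab (real hX σ) (GLA.rk (GLA.lab (X h) σ.s) - 1) =
      OLab.of ⟨GLA.lab (X h) σ.s, hP⟩ := by
  have h0 : rr X σ h ≠ 0 := by
    have := two_le_rk hP
    change 2 ≤ rr X σ h at this
    omega
  obtain ⟨n, h1, h2, h3, h4⟩ := exists_last hX σ h h0
  have h5 : GLA.lab (X n) σ.s = GLA.lab (X h) σ.s :=
    (lab_mono (hX.adm h) (hX.adm n) (hX.mono h1) σ).2 h3
  refine Obj.lab_eq_of_iff.2 ⟨⟨n, ?_⟩, rfl⟩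
  exact (mem_rlist hX σ _ _).2 ⟨h2, h4, h5.symm⟩

theorem real_lab_R (hX : Exh X) (σ : Cell M) (h : ℕ) (hR : 1 ≤ (objSys hX f).R h (real hX σ)) :
    ∃ hP : IsLab (GLA.lab (X h) σ.s), (objSys hX f).lab (real hX σ)
      ((objSys hX f).R h (real hX σ)) = OLab.of ⟨GLA.lab (X h) σ.s, hP⟩ := by
  rw [real_R] at hR ⊢
  have h0 : rr X σ h ≠ 0 := by
    change 1 ≤ rr X σ h - 1 at hR
    omega
  exact ⟨isLab_of_rr hX h0, real_lab f hX σ h _⟩

end R

theorem l_eq_nil_of_empty (y : Obj X) (h : y.cell.s = ∅) : y.l = [] := by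
  rcases List.eq_nil_or_concat y.l with h1 | ⟨l', q, h1⟩
  · exact h1
  · exfalso
    have hq : q ∈ y.l := by
      rw [h1, List.concat_eq_append]
      exact List.mem_append_right _ (List.mem_singleton_self _)
    obtain ⟨p, hp⟩ := q.1.2.ne
    have := (y.spt q hq p hp).1
    rw [h] at this
    exact this

theorem eq_real_of_empty (hX : Exh X) (y : Obj X) (h : y.cell.s = ∅) : y = real hX y.cell :=
  Obj.ext rfl ((l_eq_nil_of_empty y h).trans (l_eq_nil_of_empty (real hX y.cell) h).symm)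

theorem A_real_of_empty (hX : Exh X) (σ : Cell M) (h : σ.s = ∅) : (real hX σ).A = ∅ := by
  rw [Finset.eq_empty_iff_forall_notMem]
  intro s hs
  obtain ⟨q, hq, _⟩ := Obj.mem_A.1 hs
  rw [l_eq_nil_of_empty (real hX σ) h] at hq
  exact List.not_mem_nil hq

end Pool.Agent.GLC
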