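import Pool.Agent.Lib.MP_8f66f0_al_GLC.SpecOps
import Pool.Agent.Lib.MP_8f66f0_al_HierZ.SpecZR

/-!
# Project GLn, part C: `SS Γ` from the complex of the cells
-/

set_option autoImplicit false

namespace Pool.Agent.GLC

open Pool.Agent.Hier

/-- `X`: the cells, `emp` the empty cell, `dim` the number of members, `d` the augmented boundary, `p` a
contraction. PROOF. `C_i := (cells with i + 1 members) →₀ ℤ` is a permutation module with stabilizers in
`SS`; `Z_i = ker (d : C_i → C_(i-1)) = d C_(i+1)` (by `d p + p d = 1`) is `ℤ`-free and stable; `C_0 → ℤ emp`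
is onto (`emp = d (p emp)`), `ℤ emp` is the trivial module; `C_i = 0` for `i + 1 > N`. So
`ResP Γ SS N' (TrivZ Γ)` by recursion on `i` (from the top: `ResP Γ 𝒞 0 0`, the permutation module of the
empty set), then `S_resss` (a theorem of HierZ). -/
def S_ssB : Prop :=
  ∀ (X Γ : Type) [Group Γ] [MulAction Γ X] (dim : X → ℕ) (N : ℕ) (emp : X)
    (d p : Module.End ℤ (X →₀ ℤ)), (∀ (g : Γ) x, dim (g • x) = dim x) → (∀ x, dim x ≤ N) →
    (∀ x, dim x = 0 ↔ x = emp) → (∀ g : Γ, perm g * d = d * perm g) →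
    (∀ x y, (d (Finsupp.single x 1)) y ≠ 0 → dim y + 1 = dim x) → d * d = 0 →
    (∀ x y, (p (Finsupp.single x 1)) y ≠ 0 → dim y = dim x + 1) → d * p + p * d = 1 →
    (∀ x, x ≠ emp → SS (MulAction.stabilizer Γ x)) → SS Γ

end Pool.Agent.GLC
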