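import Pool.Agent.Lib.MP_8f66f0_al_GLC.SpecEnd
import Pool.Agent.Lib.MP_8f66f0_al_GLC.SpecSS
import Pool.Agent.Lib.MP_8f66f0_al_GLC.Real
import Pool.Agent.Lib.MP_8f66f0_al_BB.Out

/-!
# Project GLn: the final statements

`dm σ`: the number of the types of the members of a cell. `S0p hX`: the objects with a non-empty cell,
base label = the cell.
-/

set_option autoImplicit false

namespace Pool.Agent.GLC

open Pool.Agent.FL Pool.Agent.GLA Pool.Agent.Wald Pool.Agent.Ind Pool.Agent.WaldL Pool.Agent.FH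
  Pool.Agent.TreeC Pool.Agent.Hier Matrix
open scoped Polynomial

section

variable {M : Type} [ShL M]

/-- The number of the types of the members. -/
noncomputable def dm (σ : Cell M) : ℕ := σ.types.card

variable (M) in
/-- The empty cell. -/
def emp : Cell M where
  s := ∅
  st _ := Iff.rfl
  ch _ ha := absurd ha (Set.notMem_empty _)

variable {X : ℕ → Set M} (hX : Exh X)

/-- The objects with a non-empty cell. -/
noncomputable abbrev S0p :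
    FSys {y : Obj X // (S0 hX).base y ≠ emp M} (Dsc (Cell M)) (OLab M) :=
  (S0 hX).sub fun σ => σ ≠ emp M

end

/-! ### Statements -/

/-- `S0p` is a subsystem of `Sp` with finer base labels. -/
def S_over : Prop :=
  ∀ (M Γ : Type) [ShL M] [Group Γ] [ShAct Γ M] (X : ℕ → Set M) (hX : Exh X),
    OverI Γ (fun y : {y : Obj X // (S0 hX).base y ≠ emp M} => y.1) (S0p hX) (Sp hX)

/-- Part A3. -/
def S_A3 : Prop :=
  ∀ (M : Type) [ShL M], ∃ p : M → Module.End ℤ (Cell M →₀ ℤ), (∀ c, Ct (bdry (M := M)) (p c)) ∧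
    (∀ (Γ : Type) [Group Γ] [ShAct Γ M] (g : Γ) (c : M), perm g * p c = p (g • c) * perm g) ∧
    ∀ (c : M) (σ τ : Cell M), (p c (Finsupp.single σ 1)) τ ≠ 0 →
      τ.s ⊆ hull (gen {c}) σ.s ∧ dm τ = dm σ + 1

/-- The boundary and the number of types. -/
def S_bd : Prop :=
  ∀ (M : Type) [ShL M], (∀ σ : Cell M, dm σ = 0 ↔ σ = emp M) ∧ (∀ σ : Cell M, dm σ ≤ per M) ∧
    (∀ σ τ : Cell M, (bdry (Finsupp.single σ 1)) τ ≠ 0 → τ.s ⊆ σ.s ∧ dm τ + 1 = dm σ) ∧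
    ∀ (Γ : Type) [Group Γ] [ShAct Γ M], (∀ (g : Γ) (σ : Cell M), dm (g • σ) = dm σ) ∧
      (∀ g : Γ, g • emp M = emp M) ∧
      (∀ g : Γ, (perm g * bdry : Module.End ℤ (Cell M →₀ ℤ)) = bdry * perm g) ∧
      ∀ σ : Cell M, σ ≠ emp M → ∃ a : M, ∀ g : Γ, g • σ = σ → g • a = a

/-- `InwZ` for the real objects. (`real_R`, `real_lab_R`; (1): `h` with `X h' ⊆ X h`, `c ∈ X h`;
`lab_hull`, `lab_mono`. (2): `exh_smul`, `lab_smul`, `lab_mono`.) -/
def S_inwr : Prop :=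
  ∀ (M Γ : Type) [ShL M] [Group Γ] [ShAct Γ M] (X : ℕ → Set M) (hX : Exh X),
    (∀ (c : M) (T : Module.End ℤ (Cell M →₀ ℤ)),
      (∀ σ τ : Cell M, (T (Finsupp.single σ 1)) τ ≠ 0 → τ.s ⊆ hull (gen {c}) σ.s) →
      InwZ (Sp hX) (real hX) (1 : Γ) T) ∧
    ∀ g : Γ, InwZ (Sp hX) (real hX) g (perm g)

/-- Part C5: the hypotheses of part D. `HTn r S'` for all iterated derived systems `S'` of `Sp hX`,
`S0p hX`, by induction on `r` (`Itd.refl`, `Itd.der`; `flpt`, `flcell`, `ht`; `S_BB` for `FlagR M D`,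
`CFl M D`: the stabilizers fix a point, `exists_fix`). `KTk`: `kty`; the hypothesis of `KTY` from
`KK (stabilizer)` and `KU κ` as in `CC/End/Fin.lean`. `KTk κ (S0p hX)`: `KTT` for the discrete poset of the
non-empty cells, `Dsc {σ // σ ≠ emp M}`. -/
def S_HTD : Prop :=
  ∀ (M Γ : Type) [ShL M] [Group Γ] [ShAct Γ M] (X : ℕ → Set M) (hX : Exh X),
    (∀ Δ : Subgroup Γ, (∃ a : M, ∀ g ∈ Δ, g • a = a) → KS Δ) →
    (∀ (L : Type) [CommRing L] [IsDomain L], IsEuc L → (HTd Γ L (Sp hX) ∧ HTd Γ L[X] (Sp hX)) ∧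
      HTd Γ L (S0p hX) ∧ HTd Γ L[X] (S0p hX)) ∧
    ∀ (L K : Type) [CommRing L] [IsDomain L] [CommGroup K] (κ : K1Fun (MonoidAlgebra L Γ) K),
      IsEuc L → KU κ → (∀ d b, 1 ≤ d → KTk κ ((Sp hX).der d b)) ∧ KTk κ (S0p hX)

/-- The output of part D from its exports. -/
def S_DO : Prop :=
  ∀ (Y0 Y B0 B C Γ : Type) [Group Γ] [PartialOrder B0] [MulAction Γ B0] [OrdAct Γ B0]
    [PartialOrder B] [MulAction Γ B] [OrdAct Γ B] [PartialOrder C] [MulAction Γ C] [OrdAct Γ C]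
    (i : Y0 → Y) (S0 : FSys Y0 B0 C) (S : FSys Y B C) (H : OverI Γ i S0 S) (N : ℕ), Bdd S N →
    SS Γ →
    (∀ (L : Type) [CommRing L] [IsDomain L], IsEuc L → (HTd Γ L S ∧ HTd Γ L[X] S) ∧
      HTd Γ L S0 ∧ HTd Γ L[X] S0) →
    (∀ (L K : Type) [CommRing L] [IsDomain L] [CommGroup K] (κ : K1Fun (MonoidAlgebra L Γ) K),
      IsEuc L → KU κ → (∀ d b, 1 ≤ d → KTk κ (S.der d b)) ∧ KTk κ S0) →
    ∀ (L : Type) [CommRing L] [IsDomain L], IsEuc L → DOut Γ L H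

/-- The geometric data of `Sp hX`. -/
def S_geo : Prop :=
  ∀ (M Γ : Type) [ShL M] [Group Γ] [ShAct Γ M] (X : ℕ → Set M) (hX : Exh X),
    ∃ p : M → Module.End ℤ (Cell M →₀ ℤ),
      Geo Γ (Sp hX) (real hX) {σ | Odd (dm σ)} (emp M) bdry p

/-- `SS` of the group. -/
def S_ssM : Prop :=
  ∀ (M Γ : Type) [ShL M] [Nonempty M] [Group Γ] [ShAct Γ M],
    (∀ Δ : Subgroup Γ, (∃ a : M, ∀ g ∈ Δ, g • a = a) → SS Δ) → SS Γ

end Pool.Agent.GLC
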