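import Pool.Agent.Lib.MP_8f66f0_al_GLA.A3Con
import Pool.Agent.Lib.MP_8f66f0_al_GLC.SpecFin

/-!
# Project GLn: part A3
-/

set_option autoImplicit false

namespace Pool.Agent.GLC

open Pool.Agent.GLA Pool.Agent.GLA2

theorem a3 : S_A3 := by
  intro M _
  refine ⟨fun c => hc c, fun c => ⟨bdry_bdry, hc_hc c, hc_dh c⟩, ?_, ?_⟩
  · intro Γ _ _ g c
    exact hc_nat g c
  · intro c σ τ h
    exact hc_supp c h

end Pool.Agent.GLC
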