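import Pool.Agent.Lib.MP_8f66f0_al_GLC.SpecFin

/-!
# Project GLn, part C: the boundary and the number of types; `S0p` is a subsystem of `Sp`
-/

set_option autoImplicit false

namespace Pool.Agent.GLC

open Pool.Agent.FL Pool.Agent.GLA
open scoped Pointwise

theorem over_ : S_over := fun _ _ _ _ _ _ _ =>
  { inj := Subtype.val_injective
    A := fun _ => rfl
    lab := fun _ => rfl
    re := fun _ _ _ => rfl
    base := fun _ _ _ _ => le_refl _ }

section Bd

variable {M : Type} [ShL M]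

theorem bd_typ_lt (a : M) : typ a < per M := by
  unfold typ
  have h1 : (0 : ℤ) < per M := by exact_mod_cast ShL.per_pos
  have h2 := Int.emod_lt_of_pos (ht a) h1
  have h3 := Int.emod_nonneg (ht a) h1.ne'
  omega

theorem bd_mem_types {σ : Cell M} {t : ℕ} : t ∈ σ.types ↔ ∃ a ∈ σ.s, typ a = t := by
  classical
  unfold Cell.types
  rw [Finset.mem_filter, Finset.mem_range]
  constructor
  · exact fun h => h.2
  · rintro ⟨a, ha, rfl⟩
    exact ⟨bd_typ_lt a, a, ha, rfl⟩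

theorem bd_dm_zero (σ : Cell M) : dm σ = 0 ↔ σ = emp M := by
  unfold dm
  rw [Finset.card_eq_zero]
  constructor
  · intro h
    refine Cell.ext (Set.eq_empty_iff_forall_notMem.2 fun a ha => ?_)
    have h1 : typ a ∈ σ.types := bd_mem_types.2 ⟨a, ha, rfl⟩
    rw [h] at h1
    exact Finset.notMem_empty _ h1
  · rintro rfl
    rw [Finset.eq_empty_iff_forall_notMem]
    intro t ht
    obtain ⟨a, ha, _⟩ := bd_mem_types.1 ht
    exact ha

theorem bd_dm_le (σ : Cell M) : dm σ ≤ per M := by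
  classical
  unfold dm Cell.types
  exact (Finset.card_filter_le _ _).trans (Finset.card_range _).le

theorem bd_rem_types (σ : Cell M) (t : ℕ) : (σ.rem t).types = σ.types.erase t := by
  ext u
  rw [Finset.mem_erase, bd_mem_types, bd_mem_types]
  constructor
  · rintro ⟨a, ⟨ha, h⟩, rfl⟩
    exact ⟨h, a, ha, rfl⟩
  · rintro ⟨h, a, ha, rfl⟩
    exact ⟨a, ⟨ha, h⟩, rfl⟩

theorem bd_single (σ : Cell M) (n : ℤ) : bdry (Finsupp.single σ n) =
    n • ∑ t ∈ σ.types, Finsupp.single (σ.rem t) (σ.sgn t) := by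
  unfold bdry
  rw [Finsupp.lift_apply]
  exact Finsupp.sum_single_index (zero_smul ℤ _)

theorem bd_bdry (σ τ : Cell M) (h : (bdry (Finsupp.single σ 1)) τ ≠ 0) :
    τ.s ⊆ σ.s ∧ dm τ + 1 = dm σ := by
  rw [bd_single, one_smul, Finsupp.finsetSum_apply] at h
  obtain ⟨t, ht, h1⟩ := Finset.exists_ne_zero_of_sum_ne_zero h
  have h2 : σ.rem t = τ := by
    by_contra h3
    exact h1 (Finsupp.single_eq_of_ne (Ne.symm h3))
  subst h2
  refine ⟨fun a ha => ha.1, ?_⟩
  unfold dm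
  rw [bd_rem_types]
  exact Finset.card_erase_add_one ht

variable {Γ : Type} [Group Γ] [ShAct Γ M]

theorem bd_typ_smul (g : Γ) (a : M) : typ (g • a) = typ a := by
  unfold typ
  rw [ShAct.ht_smul]

theorem bd_types_smul (g : Γ) (σ : Cell M) : (g • σ).types = σ.types := by
  ext t
  rw [bd_mem_types, bd_mem_types]
  constructor
  · rintro ⟨a, ha, rfl⟩
    obtain ⟨b, hb, rfl⟩ := ha
    exact ⟨b, hb, (bd_typ_smul g b).symm⟩
  · rintro ⟨a, ha, rfl⟩
    exact ⟨g • a, Set.smul_mem_smul_set ha, bd_typ_smul g a⟩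

theorem bd_rem_smul (g : Γ) (σ : Cell M) (t : ℕ) : (g • σ).rem t = g • σ.rem t := by
  refine Cell.ext (Set.ext fun a => ?_)
  constructor
  · rintro ⟨ha, h⟩
    obtain ⟨b, hb, rfl⟩ := ha
    refine Set.smul_mem_smul_set ⟨hb, ?_⟩
    rwa [← bd_typ_smul g b]
  · rintro ⟨b, ⟨hb, h⟩, rfl⟩
    refine ⟨Set.smul_mem_smul_set hb, ?_⟩
    change typ (g • b) ≠ t
    rwa [bd_typ_smul]

theorem bd_sgn_smul (g : Γ) (σ : Cell M) (t : ℕ) : (g • σ).sgn t = σ.sgn t := by
  unfold Cell.sgn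
  rw [bd_types_smul]

theorem bd_comm (g : Γ) :
    (perm g * bdry : Module.End ℤ (Cell M →₀ ℤ)) = bdry * perm g := by
  refine Finsupp.lhom_ext fun σ n => ?_
  change perm g (bdry (Finsupp.single σ n)) = bdry (perm g (Finsupp.single σ n))
  have h1 : ∀ (τ : Cell M) (m : ℤ),
      perm g (Finsupp.single τ m) = Finsupp.single (g • τ) m := fun τ m => by
    unfold perm
    rw [Finsupp.lmapDomain_apply, Finsupp.mapDomain_single]
  rw [h1, bd_single, bd_single, map_smul, map_sum, bd_types_smul]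
  refine congrArg _ (Finset.sum_congr rfl fun t _ => ?_)
  rw [h1, bd_rem_smul, bd_sgn_smul]

theorem bd_pt (σ : Cell M) (hσ : σ ≠ emp M) : ∃ a : M, ∀ g : Γ, g • σ = σ → g • a = a := by
  have h1 : σ.s.Nonempty := by
    rw [Set.nonempty_iff_ne_empty]
    intro h
    exact hσ (Cell.ext h)
  obtain ⟨a, ha⟩ := h1
  refine ⟨a, fun g hg => ?_⟩
  have h2 : g • a ∈ σ.s := by
    have h3 : g • a ∈ (g • σ).s := Set.smul_mem_smul_set ha
    rwa [hg] at h3
  rcases σ.ch _ h2 _ ha with h3 | h3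
  · exact eq_of_ht h3 (ShAct.ht_smul g a).ge
  · exact (eq_of_ht h3 (ShAct.ht_smul g a).le).symm

end Bd

theorem bd : S_bd := fun _ _ => ⟨bd_dm_zero, bd_dm_le, bd_bdry, fun _ _ _ =>
  ⟨fun g σ => congrArg Finset.card (bd_types_smul g σ), fun _ => Cell.ext Set.smul_set_empty,
    fun g => bd_comm g, fun σ hσ => bd_pt σ hσ⟩⟩

end Pool.Agent.GLC
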