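import Pool.Agent.Lib.MP_8f66f0_al_GLC.SpecOps

/-!
# Project GLn, part C: the rules for `el`
-/

set_option autoImplicit false

namespace Pool.Agent.GLC

open Pool.Agent.FL

section

variable {X Y k Γ : Type} [CommRing k] [Group Γ] {ι : X → Y}

private theorem ent_gm (g : Γ) (T : CF X k) (w v : X) :
    ent (gm g T) w v = MonoidAlgebra.single g (ent T w v) := by
  unfold gm
  exact ent_mkK _ _ _ _

private theorem cf_gm_self (g : Γ) (T : CF X k) (w v : X) : cf (gm g T) g w v = ent T w v := by
  rw [cf, ent_gm, MonoidAlgebra.coeff_single, Finsupp.single_eq_same]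

private theorem cf_gm_ne {g g' : Γ} {T : CF X k} {w v : X} (h : cf (gm g T) g' w v ≠ 0) :
    g' = g ∧ ent T w v ≠ 0 := by
  classical
  by_cases hg : g' = g
  · subst hg
    rw [cf_gm_self] at h
    exact ⟨rfl, h⟩
  · rw [cf, ent_gm, MonoidAlgebra.coeff_single, Finsupp.single_apply, if_neg fun e => hg e.symm] at h
    exact absurd rfl h

private theorem single_sum' {α : Type} (g : Γ) (s : Finset α) (f : α → k) :
    ∑ v ∈ s, MonoidAlgebra.single g (f v) = MonoidAlgebra.single g (∑ v ∈ s, f v) := by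
  classical
  induction s using Finset.induction_on with
  | empty => rw [Finset.sum_empty, Finset.sum_empty, MonoidAlgebra.single_zero]
  | insert a s ha ih =>
    rw [Finset.sum_insert ha, Finset.sum_insert ha, ih, MonoidAlgebra.single_add]

private theorem gm_mul (g g' : Γ) (T U : CF X k) : gm g T * gm g' U = gm (g * g') (T * U) := by
  refine ent_ext fun y x => ?_
  rw [ent_gm, ent_mul_col T U y x (ent_col U x).toFinset fun v hv => by
      rw [Set.Finite.mem_toFinset]; exact hv,
    ent_mul_col (gm g T) (gm g' U) y x (ent_col U x).toFinset fun v hv => by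
      rw [Set.Finite.mem_toFinset]
      intro h
      apply hv
      rw [ent_gm, h, MonoidAlgebra.single_zero], ← single_sum']
  refine Finset.sum_congr rfl fun v _ => ?_
  rw [ent_gm, ent_gm, MonoidAlgebra.single_mul_single]

private theorem gm_add (g : Γ) (T U : CF X k) : gm g (T + U) = gm g T + gm g U := by
  refine ent_ext fun y x => ?_
  rw [ent_add, ent_gm, ent_gm, ent_gm, ent_add, MonoidAlgebra.single_add]

private theorem el_self (hι : Function.Injective ι) (g : Γ) (T : CF X k) (w v : X) :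
    cf (el hι g T) g (ι w) (ι v) = ent T w v := by
  unfold el
  rw [cf_push, cf_gm_self]

private theorem el_ne (hι : Function.Injective ι) {g g' : Γ} {T : CF X k} {y' y : Y}
    (h : cf (el hι g T) g' y' y ≠ 0) :
    g' = g ∧ ∃ w v, y' = ι w ∧ y = ι v ∧ ent T w v ≠ 0 := by
  unfold el at h
  obtain ⟨w, v, rfl, rfl, h1⟩ := cf_push_ne hι h
  obtain ⟨h2, h3⟩ := cf_gm_ne h1
  exact ⟨h2, w, v, rfl, rfl, h3⟩

end

/-- The rules for `el`. -/
theorem el_rules : S_el := by
  intro X Y k Γ _ _ ι hι
  refine ⟨fun g T w v => el_self hι g T w v, fun g g' T y' y h => el_ne hι h, fun g g' T U => ?_,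
    fun g T U => ?_⟩
  · unfold el
    rw [← map_mul, gm_mul]
  · unfold el
    rw [← map_add, gm_add]

/-- Membership in `U`. -/
theorem el_mem : S_el_mem := by
  intro X Y B C k Γ _ _ _ _ _ _ _ _ S ι hι g T hB hI hP
  refine ⟨fun g' y' y h => ?_, fun h' => ?_, ?_⟩
  · obtain ⟨rfl, w, v, rfl, rfl, h1⟩ := el_ne hι h
    exact hB w v h1
  · obtain ⟨h, hh⟩ := hI h'
    refine ⟨h, fun g' y' y h0 => ?_⟩
    obtain ⟨rfl, w, v, rfl, rfl, h1⟩ := el_ne hι h0
    exact hh w v h1
  · obtain ⟨P, hP1, hP2⟩ := hP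
    refine ⟨P, hP1, fun g' y' y => ?_⟩
    by_cases h0 : cf (el hι g T) g' y' y = 0
    · rw [h0]
      exact P.zero_mem
    · obtain ⟨rfl, w, v, rfl, rfl, h1⟩ := el_ne hι h0
      rw [el_self]
      exact hP2 w v

end Pool.Agent.GLC
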