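import Pool.Agent.Lib.MP_8f66f0_al_GLC.SpecOps

/-!
# Project GLn, part C: products and sums of matrices on the real objects

The conditions `Inw`, `Bse`, `Bs` hold for the products and the sums of matrices which satisfy them,
and `Bs` holds for the matrices of the `ℤ`-linear maps.
-/

set_option autoImplicit false

namespace Pool.Agent.GLC

open Pool.Agent.FL

/-- The rules for `Inw`, `Bse` and `Bs`. -/
theorem inw : S_inw := by
  intro X Y B C k Γ _ _ _ _ _ _ _ _ S ι
  refine ⟨fun g g' T U hT hU h' => ?_, fun g T U hT hU h' => ?_, fun g g' T U hT hU w v h => ?_,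
    fun g T U hT hU w v h => ?_, fun T U hT hU => ⟨?_, ?_⟩, fun T => ?_⟩
  · obtain ⟨h1, H1⟩ := hU h'
    obtain ⟨h2, H2⟩ := hT h1
    refine ⟨h2, fun w v h => ?_⟩
    obtain ⟨x, hx⟩ := exists_of_ent_mul h
    exact (H2 w x (left_ne_zero_of_mul hx)).trans (H1 x v (right_ne_zero_of_mul hx))
  · obtain ⟨h1, H1⟩ := hT h'
    obtain ⟨h2, H2⟩ := hU h'
    refine ⟨h1 ⊔ h2, fun w v h => ?_⟩
    rw [ent_add] at h
    rcases ne_or_ne_of_add h with h | h
    · exact (H1 w v h).mono le_sup_left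
    · exact (H2 w v h).mono le_sup_right
  · obtain ⟨x, hx⟩ := exists_of_ent_mul h
    rw [mul_smul]
    exact le_trans (OrdAct.smul_le g (hU x v (right_ne_zero_of_mul hx)))
      (hT w x (left_ne_zero_of_mul hx))
  · rw [ent_add] at h
    rcases ne_or_ne_of_add h with h | h
    · exact hT w v h
    · exact hU w v h
  · obtain ⟨P, hP, h1⟩ := hT
    obtain ⟨Q, hQ, h2⟩ := hU
    refine ⟨P * Q, hP.mul hQ, fun w v => ?_⟩
    rw [ent_mul_col T U w v (ent_col U v).toFinset fun x hx => by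
      rw [Set.Finite.mem_toFinset]; exact hx]
    exact Submodule.sum_mem _ fun x _ => Submodule.mul_mem_mul (h1 w x) (h2 x v)
  · obtain ⟨P, hP, h1⟩ := hT
    obtain ⟨Q, hQ, h2⟩ := hU
    refine ⟨P ⊔ Q, hP.sup hQ, fun w v => ?_⟩
    rw [ent_add]
    exact Submodule.add_mem _ ((le_sup_left : P ≤ P ⊔ Q) (h1 w v))
      ((le_sup_right : Q ≤ P ⊔ Q) (h2 w v))
  · refine ⟨Submodule.span ℤ {1}, Submodule.fg_span_singleton _, fun w v => ?_⟩
    rw [ent_cfl, ← zsmul_one]
    exact Submodule.smul_mem _ _ (Submodule.mem_span_singleton_self 1)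

end Pool.Agent.GLC
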