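import Pool.Agent.Lib.MP_8f66f0_al_GLC.SpecEnd
import Pool.Agent.Lib.MP_8f66f0_al_GLC.El
import Pool.Agent.Lib.MP_8f66f0_al_GLC.Inw
import Pool.Agent.Lib.MP_8f66f0_al_CC.End.Ext

/-!
# Project GLn, part C: conjugation of the homomorphisms

`F = 1 - el 1 1 + el 1 V` is an involution of `U Γ L S`, and `P1 x = F * P2 x * F`.
-/

set_option autoImplicit false

namespace Pool.Agent.GLC

open Pool.Agent.FL Pool.Agent.Wald Matrix
open Pool.Agent.CC (Ex ex_unit)

section Scl

variable {X k : Type} [CommRing k]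

private theorem ent_scl (t : k) (w v : X) :
    ent (scl X t) w v = open Classical in if w = v then t else 0 := by
  unfold scl
  exact ent_mkK _ _ _ _

private theorem ent_scl_mul (t : k) (T : CF X k) (w v : X) :
    ent (scl X t * T) w v = t * ent T w v := by
  classical
  rw [ent_mul_row (scl X t) T w v {w} fun u hu => by
    rw [ent_scl] at hu
    by_contra hne
    exact hu (if_neg fun e => hne (Finset.mem_singleton.2 e.symm)), Finset.sum_singleton, ent_scl,
    if_pos rfl]

private theorem ent_mul_scl (t : k) (T : CF X k) (w v : X) :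
    ent (T * scl X t) w v = ent T w v * t := by
  classical
  rw [ent_mul_col T (scl X t) w v {v} fun u hu => by
    rw [ent_scl] at hu
    by_contra hne
    exact hu (if_neg fun e => hne (Finset.mem_singleton.2 e)), Finset.sum_singleton, ent_scl,
    if_pos rfl]

private theorem scl_comm (t : k) (T : CF X k) : T * scl X t = scl X t * T :=
  ent_ext fun w v => by rw [ent_mul_scl, ent_scl_mul, mul_comm]

end Scl

section Main

variable {X Y B C Γ L : Type} [Group Γ] [PartialOrder B] [MulAction Γ B] [OrdAct Γ B]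
  [PartialOrder C] [MulAction Γ C] [OrdAct Γ C] [CommRing L] {S : FSys Y B C} {ι : X → Y}

/-- The values at the monomials. -/
private theorem isPf_single (hι : Function.Injective ι) {Φ : Γ → CF X L}
    {P : MonoidAlgebra L Γ →ₙ+* U Γ L S} (hP : IsPf S ι (RingHom.id L) Φ P) (g : Γ) (a : L) :
    (P (MonoidAlgebra.single g a)).1 = el hι g (scl X a * Φ g) := by
  classical
  obtain ⟨e1, e2, -, -⟩ := el_rules X Y L Γ ι hι
  refine cf_ext fun g' y' y => ?_
  by_cases hr : ∃ w v, y' = ι w ∧ y = ι v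
  · obtain ⟨w, v, rfl, rfl⟩ := hr
    rw [hP.1, RingHom.id_apply, MonoidAlgebra.coeff_single]
    by_cases hg : g' = g
    · rw [hg, Finsupp.single_eq_same, e1, ent_scl_mul]
    · rw [Finsupp.single_apply, if_neg fun h => hg h.symm, zero_mul]
      by_contra hne
      exact hg (e2 g g' _ _ _ (Ne.symm hne)).1
  · have h1 : cf (P (MonoidAlgebra.single g a)).1 g' y' y = 0 := by
      by_contra hne
      exact hr (hP.2 _ g' y' y hne)
    have h2 : cf (el hι g (scl X a * Φ g)) g' y' y = 0 := by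
      by_contra hne
      obtain ⟨-, w, v, h3, h4, -⟩ := e2 g g' _ _ _ hne
      exact hr ⟨w, v, h3, h4⟩
    rw [h1, h2]

/-- The conjugation on the real part. -/
private theorem conj_el (hι : Function.Injective ι) {V : CF X L} {Φ1 Φ2 : Γ → CF X L}
    {P1 P2 : MonoidAlgebra L Γ →ₙ+* U Γ L S} (hΦ : ∀ g, Φ1 g = V * Φ2 g * V)
    (hP1 : IsPf S ι (RingHom.id L) Φ1 P1) (hP2 : IsPf S ι (RingHom.id L) Φ2 P2)
    (v : U Γ L S) (hv : v.1 = el hι 1 V) (x : MonoidAlgebra L Γ) : P1 x = v * P2 x * v := by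
  obtain ⟨-, -, e3, -⟩ := el_rules X Y L Γ ι hι
  induction x using MonoidAlgebra.induction_linear with
  | zero => rw [map_zero, map_zero, mul_zero, zero_mul]
  | add x y hx hy => rw [map_add, map_add, hx, hy, mul_add, add_mul]
  | single g a =>
    refine Subtype.ext ?_
    rw [isPf_single hι hP1]
    change _ = v.1 * (P2 (MonoidAlgebra.single g a)).1 * v.1
    rw [isPf_single hι hP2, hv, e3, e3, one_mul, mul_one, hΦ, ← mul_assoc, ← mul_assoc,
      ← mul_assoc, scl_comm]

/-- The unit on the real part. -/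
private theorem unit_el (hι : Function.Injective ι) {Φ : Γ → CF X L}
    {P : MonoidAlgebra L Γ →ₙ+* U Γ L S} (hP : IsPf S ι (RingHom.id L) Φ P)
    (e : U Γ L S) (he : e.1 = el hι 1 1) (x : MonoidAlgebra L Γ) :
    e * P x = P x ∧ P x * e = P x := by
  obtain ⟨-, -, e3, -⟩ := el_rules X Y L Γ ι hι
  induction x using MonoidAlgebra.induction_linear with
  | zero => rw [map_zero, mul_zero, zero_mul]; exact ⟨rfl, rfl⟩
  | add x y hx hy => rw [map_add, mul_add, add_mul, hx.1, hx.2, hy.1, hy.2]; exact ⟨rfl, rfl⟩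
  | single g a =>
    refine ⟨Subtype.ext ?_, Subtype.ext ?_⟩
    · change e.1 * (P (MonoidAlgebra.single g a)).1 = _
      rw [isPf_single hι hP, he, e3, one_mul, one_mul]
    · change (P (MonoidAlgebra.single g a)).1 * e.1 = _
      rw [isPf_single hι hP, he, e3, mul_one, mul_one]

end Main

/-- The involution. -/
private theorem inv_sq {R : Type} [Ring R] {e v : R} (h1 : e * e = e) (h2 : v * v = e)
    (h3 : e * v = v) (h4 : v * e = v) : (1 - e + v) * (1 - e + v) = 1 := by
  have h : (1 - e + v) * (1 - e + v) = 1 - e - e + e * e + (v - e * v) + (v - v * e) + v * v := by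
    noncomm_ring
  rw [h, h1, h2, h3, h4]
  abel

private theorem inv_cj {R : Type} [Ring R] {e v x : R} (h1 : e * x = x) (h2 : x * e = x) :
    (1 - e + v) * x * (1 - e + v) = v * x * v := by
  have a1 : (1 - e + v) * x = v * x := by
    rw [add_mul, sub_mul, one_mul, h1, sub_self, zero_add]
  have a2 : v * x * (1 - e) = 0 := by
    rw [mul_sub, mul_one, mul_assoc, h2, sub_self]
  rw [a1, mul_add, a2, zero_add]

private theorem dg_sq {R n : Type} [Ring R] [Fintype n] [DecidableEq n] {F : R} (hF : F * F = 1) :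
    (diagonal fun _ : n => F) * (diagonal fun _ : n => F) = 1 := by
  rw [diagonal_mul_diagonal]
  simp only [hF]
  exact diagonal_one

private theorem dg_cj {R S n : Type} [Ring R] [Ring S] [Fintype n] [DecidableEq n] {F : R}
    (hF : F * F = 1) {P1 P2 : S →ₙ+* R} (hc : ∀ x, P1 x = F * P2 x * F) (A : Matrix n n S) :
    Ex P1 A = (diagonal fun _ : n => F) * Ex P2 A * (diagonal fun _ : n => F) := by
  refine Matrix.ext fun i j => ?_
  rw [mul_diagonal, diagonal_mul]
  change (1 : Matrix n n R) i j + P1 ((A - 1) i j) =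
    F * ((1 : Matrix n n R) i j + P2 ((A - 1) i j)) * F
  have h1 : F * (1 : Matrix n n R) i j * F = (1 : Matrix n n R) i j := by
    rw [one_apply]
    split_ifs
    · rw [mul_one, hF]
    · rw [mul_zero, zero_mul]
  rw [hc, mul_add, add_mul, h1]

/-- Conjugate homomorphisms have the same invariant. -/
theorem cjF : S_cjF := by
  intro X Y B C Γ L K _ _ _ _ _ _ _ _ _ S ι hι V Φ1 Φ2 P1 P2 κU htr hV hI hB hΦ hP1 hP2 n _ _ A hA
  obtain ⟨i1, i2, i3, i4, i5, i6⟩ := inw X Y B C L Γ S ι
  obtain ⟨-, -, e3, -⟩ := el_rules X Y L Γ ι hι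
  have b : ∀ T : CF X L, Bse S ι (1 : Γ) T := fun T w v _ => htr 1 _ _
  have I1 : Inw S ι (1 : Γ) (1 : CF X L) := by
    have h := i1 1 1 V V hI hI
    rw [hV, mul_one] at h
    exact h
  have B1 : Bs (1 : CF X L) := by
    have h := (i5 V V hB hB).1
    rw [hV] at h
    exact h
  have m1 : el hι (1 : Γ) (1 : CF X L) ∈ U Γ L S :=
    el_mem X Y B C L Γ S ι hι 1 1 (b 1) I1 B1
  have mV : el hι (1 : Γ) V ∈ U Γ L S := el_mem X Y B C L Γ S ι hι 1 V (b V) hI hB
  obtain ⟨e, he⟩ : ∃ e : U Γ L S, e.1 = el hι (1 : Γ) (1 : CF X L) := ⟨⟨_, m1⟩, rfl⟩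
  obtain ⟨v, hv⟩ : ∃ v : U Γ L S, v.1 = el hι (1 : Γ) V := ⟨⟨_, mV⟩, rfl⟩
  have f1 : e * e = e := Subtype.ext (by
    change e.1 * e.1 = _
    rw [he, e3, one_mul, one_mul])
  have f2 : v * v = e := Subtype.ext (by
    change v.1 * v.1 = _
    rw [he, hv, e3, one_mul, hV])
  have f3 : e * v = v := Subtype.ext (by
    change e.1 * v.1 = _
    rw [he, hv, e3, one_mul, one_mul])
  have f4 : v * e = v := Subtype.ext (by
    change v.1 * e.1 = _
    rw [he, hv, e3, one_mul, mul_one])
  have hF := inv_sq f1 f2 f3 f4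
  have hc : ∀ x, P1 x = (1 - e + v) * P2 x * (1 - e + v) := fun x => by
    obtain ⟨h1, h2⟩ := unit_el hι hP2 e he x
    rw [inv_cj h1 h2]
    exact conj_el hι hΦ hP1 hP2 v hv x
  set F := 1 - e + v with hFd
  have hD := dg_sq (n := n) hF
  have hDu : IsUnit (diagonal fun _ : n => F) := ⟨⟨_, _, hD, hD⟩, rfl⟩
  have hE : Ex P1 A = (diagonal fun _ : n => F) * Ex P2 A * (diagonal fun _ : n => F) :=
    dg_cj hF hc A
  have hA2 : IsUnit (Ex P2 A) := ex_unit P2 hA
  have hk : κU.f (diagonal fun _ : n => F) * κU.f (diagonal fun _ : n => F) = 1 := by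
    rw [← κU.mul _ _ hDu hDu, hD, κU.f_one]
  rw [hE, κU.mul _ _ (hDu.mul hA2) hDu, κU.mul _ _ hDu hA2, mul_right_comm, hk, one_mul]

end Pool.Agent.GLC
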