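import Pool.Agent.Lib.MP_8f66f0_al_GLC.SpecOps

/-!
# Project GLn, part C: the cocycles give multiplicative families (`S_cocy`)
-/

set_option autoImplicit false

namespace Pool.Agent.GLC

open Pool.Agent.FL

namespace CocyAux

variable {X R : Type} [Ring R]

theorem diag_mul (M T : CF X R) (hM : ∀ w v, ent M w v ≠ 0 → w = v) (y x : X) :
    ent (M * T) y x = ent M y y * ent T y x := by
  rw [ent_mul_row M T y x {y} fun v hv => by rw [Finset.mem_singleton, hM y v hv],
    Finset.sum_singleton]

theorem mul_diag (M T : CF X R) (hM : ∀ w v, ent M w v ≠ 0 → w = v) (y x : X) :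
    ent (T * M) y x = ent T y x * ent M x x := by
  rw [ent_mul_col T M y x {x} fun v hv => by rw [Finset.mem_singleton, hM v x hv],
    Finset.sum_singleton]

/-- Matrices which preserve `E`. -/
def Ev (E : Set X) (T : CF X R) : Prop := ∀ y x, ent T y x ≠ 0 → (y ∈ E ↔ x ∈ E)

/-- Matrices which exchange `E` and its complement. -/
def Od (E : Set X) (T : CF X R) : Prop := ∀ y x, ent T y x ≠ 0 → (y ∈ E ↔ x ∉ E)

theorem Od.mul {E : Set X} {S T : CF X R} (hS : Od E S) (hT : Od E T) : Ev E (S * T) := by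
  intro y x h
  obtain ⟨v, hv⟩ := exists_of_ent_mul h
  rw [hS y v (left_ne_zero_of_mul hv), hT v x (right_ne_zero_of_mul hv), not_not]

theorem prj_single (E : Set X) (x : X) :
    prj E (Finsupp.single x 1) = (open Classical in if x ∈ E then Finsupp.single x (1 : ℤ) else 0) := by
  classical
  unfold prj
  rw [Finsupp.lsum_single]
  split_ifs
  · rfl
  · rfl

theorem ent_prj (E : Set X) (y x : X) : ent (cfl X R (prj E)) y x =
    (open Classical in if x ∈ E ∧ y = x then (1 : R) else 0) := by
  classical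
  rw [ent_cfl, prj_single]
  by_cases hx : x ∈ E
  · rw [if_pos hx, Finsupp.single_apply]
    by_cases h : x = y
    · rw [if_pos h, if_pos ⟨hx, h.symm⟩, Int.cast_one]
    · rw [if_neg h, if_neg fun h' => h h'.2.symm, Int.cast_zero]
  · rw [if_neg hx, if_neg fun h' => hx h'.1, Finsupp.zero_apply, Int.cast_zero]

theorem prj_diag (E : Set X) (w v : X) (h : ent (cfl X R (prj E)) w v ≠ 0) : w = v := by
  classical
  rw [ent_prj] at h
  by_contra hne
  exact h (if_neg fun h' => hne h'.2)

theorem prj_self (E : Set X) (v : X) :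
    ent (cfl X R (prj E)) v v = (open Classical in if v ∈ E then (1 : R) else 0) := by
  classical
  rw [ent_prj]
  simp only [and_true]

theorem Ev.comm {E : Set X} {T : CF X R} (hT : Ev E T) :
    cfl X R (prj E) * T = T * cfl X R (prj E) := by
  classical
  refine ent_ext fun y x => ?_
  rw [diag_mul _ _ (prj_diag E), mul_diag _ _ (prj_diag E), prj_self, prj_self]
  by_cases h : ent T y x = 0
  · rw [h, mul_zero, zero_mul]
  · have := hT y x h
    by_cases hx : x ∈ E
    · rw [if_pos hx, if_pos (this.2 hx), one_mul, mul_one]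
    · rw [if_neg hx, if_neg fun h' => hx (this.1 h'), zero_mul, mul_zero]

theorem prj_idem (E : Set X) : cfl X R (prj E) * cfl X R (prj E) = cfl X R (prj E) := by
  classical
  refine ent_ext fun y x => ?_
  rw [diag_mul _ _ (prj_diag E), prj_self, ent_prj]
  by_cases h : x ∈ E ∧ y = x
  · rw [if_pos h, h.2, if_pos h.1, one_mul]
  · rw [if_neg h, mul_zero]

variable {Γ : Type} [Group Γ] [MulAction Γ X]

theorem perm_single (g : Γ) (x : X) :
    perm g (Finsupp.single x (1 : ℤ)) = Finsupp.single (g • x) 1 := by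
  unfold perm
  rw [Finsupp.lmapDomain_apply, Finsupp.mapDomain_single]

theorem perm_mul (g h : Γ) : (perm (g * h) : Module.End ℤ (X →₀ ℤ)) = perm g * perm h := by
  refine Finsupp.lhom_ext' fun x => LinearMap.ext_ring ?_
  rw [LinearMap.comp_apply, LinearMap.comp_apply, Finsupp.lsingle_apply, Module.End.mul_apply,
    perm_single, perm_single, perm_single, mul_smul]

theorem Ev_perm {E : Set X} (hE : ∀ (g : Γ) x, x ∈ E ↔ g • x ∈ E) (g : Γ) :
    Ev E (cfl X R (perm g)) := by
  classical
  intro y x h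
  rw [ent_cfl, perm_single, Finsupp.single_apply] at h
  by_cases hy : g • x = y
  · rw [← hy]
    exact (hE g x).symm
  · rw [if_neg hy, Int.cast_zero] at h
    exact absurd rfl h

theorem ctc {A : Type} [Ring A] {e t x : A} (ht : ∀ x : A, t * x = x * t) (h : e * x = x * e) :
    e * (t * x) = t * x * e := by
  rw [← mul_assoc, ← ht, mul_assoc, h, mul_assoc]

/-- The last step, in any ring. -/
theorem final {A : Type} [Ring A] {e w1 w2 w3 w4 g h gh : A} (he : e * e = e) (h1 : e * w2 = w2 * e)
    (h2 : e * h = h * e) (h3 : g * w2 = w3 * g) (h4 : w1 * w3 = w4) (h5 : g * h = gh) :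
    w4 * gh * e = w1 * g * e * (w2 * h * e) := by
  calc w4 * gh * e = w1 * w3 * (g * h) * (e * e) := by rw [h4, h5, he]
    _ = w1 * (w3 * g) * h * e * e := by simp only [mul_assoc]
    _ = w1 * (g * w2) * (h * e) * e := by rw [h3]; simp only [mul_assoc]
    _ = w1 * g * (w2 * e) * h * e := by rw [← h2]; simp only [mul_assoc]
    _ = w1 * g * e * (w2 * h * e) := by rw [← h1]; simp only [mul_assoc]

end CocyAux

open CocyAux in
/-- **The cocycles give multiplicative families.** -/
theorem cocy : S_cocy := by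
  intro X β k Γ _ _ _ _ d p E b t tt htt htd hC hd hp hE hod hop
  have hc : ∀ x : CF X k, tt * x = x * tt := fun x => ent_ext fun y z => by
    rw [diag_mul _ _ htt, mul_diag _ _ htt, htd, htd, mul_comm]
  have hC' : ∀ c, Ct (cfl X k d) (cfl X k (p c)) := fun c =>
    ⟨by rw [← map_mul, (hC c).dd, map_zero], by rw [← map_mul, (hC c).pp, map_zero],
      by rw [← map_mul, ← map_mul, ← map_add, (hC c).dp, map_one]⟩
  have hgd : ∀ g : Γ, cfl X k (perm g) * cfl X k d = cfl X k d * cfl X k (perm g) := fun g => by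
    rw [← map_mul, hd, map_mul]
  have hgp : ∀ (g : Γ) c, cfl X k (perm g) * cfl X k (p c) =
      cfl X k (p (g • c)) * cfl X k (perm g) := fun g c => by rw [← map_mul, hp, map_mul]
  have od : Od E (cfl X k d) := fun y x h => hod y x fun h' => h (by
    rw [ent_cfl, h', Int.cast_zero])
  have op : ∀ c, Od E (cfl X k (p c)) := fun c y x h => hop c y x fun h' => h (by
    rw [ent_cfl, h', Int.cast_zero])
  have e1 : ∀ c c', cfl X k (prj E) * W1 tt (cfl X k d) (cfl X k (p c)) (cfl X k (p c')) =
      W1 tt (cfl X k d) (cfl X k (p c)) (cfl X k (p c')) * cfl X k (prj E) := fun c c' => by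
    rw [W1, mul_add, mul_add, add_mul, add_mul, (od.mul (op c')).comm, ((op c).mul od).comm,
      ctc hc ((op c).mul (op c')).comm]
  have e2 : ∀ c c', cfl X k (prj E) * W2 tt (cfl X k d) (cfl X k (p c)) (cfl X k (p c')) =
      W2 tt (cfl X k d) (cfl X k (p c)) (cfl X k (p c')) * cfl X k (prj E) := fun c c' => by
    have a1 := (od.mul (op c)).comm
    have a2 := ((op c').mul od).comm
    rw [W2, mul_add, mul_add, add_mul, add_mul, (od.mul (op c')).comm, ((op c).mul od).comm,
      ctc hc (x := cfl X k d * cfl X k (p c) * (cfl X k (p c') * cfl X k d))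
        (by rw [← mul_assoc, a1, mul_assoc _ (cfl X k (prj E)), a2]; simp only [mul_assoc])]
  have g1 : ∀ (g : Γ) c c', cfl X k (perm g) * W1 tt (cfl X k d) (cfl X k (p c)) (cfl X k (p c')) =
      W1 tt (cfl X k d) (cfl X k (p (g • c))) (cfl X k (p (g • c'))) * cfl X k (perm g) := by
    intro g c c'
    rw [W1, W1, mul_add, mul_add, add_mul, add_mul, ← mul_assoc, hgd, mul_assoc, hgp,
      ← mul_assoc (cfl X k (perm g)) (cfl X k (p c)), hgp, mul_assoc _ _ (cfl X k d), hgd,
      ← mul_assoc (cfl X k (perm g)) tt, ← hc, mul_assoc tt, ← mul_assoc (cfl X k (perm g)), hgp,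
      mul_assoc (cfl X k (p (g • c))) (cfl X k (perm g)), hgp]
    simp only [mul_assoc]
  have g2 : ∀ (g : Γ) c c', cfl X k (perm g) * W2 tt (cfl X k d) (cfl X k (p c)) (cfl X k (p c')) =
      W2 tt (cfl X k d) (cfl X k (p (g • c))) (cfl X k (p (g • c'))) * cfl X k (perm g) := by
    intro g c c'
    have a1 : cfl X k (perm g) * (cfl X k d * cfl X k (p c)) =
        cfl X k d * cfl X k (p (g • c)) * cfl X k (perm g) := by
      rw [← mul_assoc, hgd, mul_assoc, hgp, mul_assoc]
    have a2 : cfl X k (perm g) * (cfl X k (p c') * cfl X k d) =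
        cfl X k (p (g • c')) * cfl X k d * cfl X k (perm g) := by
      rw [← mul_assoc, hgp, mul_assoc, hgd, mul_assoc]
    rw [W2, W2, mul_add, mul_add, add_mul, add_mul, ← mul_assoc, hgd, mul_assoc, hgp,
      ← mul_assoc (cfl X k (perm g)) (cfl X k (p c)), hgp, mul_assoc _ _ (cfl X k d), hgd,
      ← mul_assoc (cfl X k (perm g)) tt, ← hc, mul_assoc tt, ← mul_assoc (cfl X k (perm g)), a1,
      mul_assoc _ (cfl X k (perm g)) (cfl X k (p c') * cfl X k d), a2]
    simp only [mul_assoc]
  have hG : ∀ g h : Γ, cfl X k (perm g) * cfl X k (perm h) = cfl X k (perm (g * h)) :=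
    fun g h => by rw [perm_mul, map_mul]
  have hw : ∀ g h : Γ, (g * h) • b = g • h • b := fun g h => mul_smul g h b
  refine ⟨fun g h => ?_, fun g h => ?_⟩
  · refine final (prj_idem E) (e1 _ _) (Ev_perm hE h).comm (g1 g b (h • b)) ?_ (hG g h)
    rw [hw]
    exact W1_mul (hC' _) (hC' _) hc
  · refine final (prj_idem E) (e2 _ _) (Ev_perm hE h).comm (g2 g b (h • b)) ?_ (hG g h)
    rw [hw]
    exact W2_mul (hC' _) (hC' _) (hC' _) hc

end Pool.Agent.GLC
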