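import Pool.Agent.Lib.MP_8f66f0_al_GLC.SpecEnd
import Pool.Agent.Lib.MP_8f66f0_al_GLC.Cocy
import Pool.Agent.Lib.MP_8f66f0_al_CC.End.Ext

/-!
# Project GLn, part C: the empty cell and disjoint stable sets

`Ex P A` for the permutation matrices of the empty cell is the matrix `A` at this cell. The permutation
matrices of two disjoint stable sets give two orthogonal homomorphisms.
-/

set_option autoImplicit false

namespace Pool.Agent.GLC

open Pool.Agent.FL Pool.Agent.Wald Matrix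
open Pool.Agent.CC (Ex ex_unit)

section Ent

variable {X k Γ : Type} [CommRing k] [Group Γ] [MulAction Γ X]

private theorem ent_PhE (E : Set X) (g : Γ) (w v : X) : ent (PhE k E g) w v =
    (open Classical in if v ∈ E ∧ w = g • v then (1 : k) else 0) := by
  classical
  unfold PhE
  rw [CocyAux.mul_diag _ _ (CocyAux.prj_diag E), CocyAux.prj_self, ent_cfl, CocyAux.perm_single,
    Finsupp.single_apply]
  by_cases hv : v ∈ E
  · rw [if_pos hv, mul_one]
    by_cases h : g • v = w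
    · rw [if_pos h, if_pos ⟨hv, h.symm⟩, Int.cast_one]
    · rw [if_neg h, if_neg fun h' => h h'.2.symm, Int.cast_zero]
  · rw [if_neg hv, mul_zero, if_neg fun h' => hv h'.1]

private theorem ent_PhE_ne {E : Set X} {g : Γ} {w v : X} (h : ent (PhE k E g) w v ≠ 0) :
    v ∈ E ∧ w = g • v := by
  rw [ent_PhE] at h
  by_contra hne
  exact h (if_neg hne)

end Ent

section Main

variable {X Y B C Γ L : Type} [Group Γ] [MulAction Γ X] [PartialOrder B] [MulAction Γ B]
  [OrdAct Γ B] [PartialOrder C] [MulAction Γ C] [OrdAct Γ C] [CommRing L] {S : FSys Y B C}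
  {ι : X → Y}

/-- The support of the values. -/
private theorem phE_ne {E : Set X} {P : MonoidAlgebra L Γ →ₙ+* U Γ L S}
    (hP : IsPf S ι (RingHom.id L) (PhE L E) P) {x : MonoidAlgebra L Γ} {g : Γ} {y' y : Y}
    (h : cf (P x).1 g y' y ≠ 0) : ∃ v ∈ E, y' = ι (g • v) ∧ y = ι v := by
  obtain ⟨w, v, rfl, rfl⟩ := hP.2 x g y' y h
  rw [hP.1] at h
  obtain ⟨h1, h2⟩ := ent_PhE_ne (right_ne_zero_of_mul h)
  exact ⟨v, h1, by rw [h2], rfl⟩

/-- The products for disjoint stable sets vanish. -/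
private theorem phE_mul (hι : Function.Injective ι) {E1 E2 : Set X} (hd : Disjoint E1 E2)
    (h2 : ∀ (g : Γ) x, x ∈ E2 ↔ g • x ∈ E2) {P1 P2 : MonoidAlgebra L Γ →ₙ+* U Γ L S}
    (hP1 : IsPf S ι (RingHom.id L) (PhE L E1) P1) (hP2 : IsPf S ι (RingHom.id L) (PhE L E2) P2)
    (x y : MonoidAlgebra L Γ) : P1 x * P2 y = 0 := by
  refine Subtype.ext (cf_ext fun g a b => ?_)
  change cf ((P1 x).1 * (P2 y).1) g a b = cf (0 : CF Y (MonoidAlgebra L Γ)) g a b
  rw [cf_zero]
  by_contra hne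
  obtain ⟨c, k, l, -, hk, hl⟩ := exists_of_cf_mul hne
  obtain ⟨v, hv, -, hc⟩ := phE_ne hP1 hk
  obtain ⟨u, hu, hc', -⟩ := phE_ne hP2 hl
  have e : v = l • u := hι (hc.symm.trans hc')
  exact Set.disjoint_left.1 hd hv (e ▸ (h2 l u).1 hu)

private theorem phE_add {E1 E2 : Set X} (hd : Disjoint E1 E2)
    {P P1 P2 : MonoidAlgebra L Γ →ₙ+* U Γ L S}
    (hP : IsPf S ι (RingHom.id L) (PhE L (E1 ∪ E2)) P)
    (hP1 : IsPf S ι (RingHom.id L) (PhE L E1) P1) (hP2 : IsPf S ι (RingHom.id L) (PhE L E2) P2)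
    (x : MonoidAlgebra L Γ) : P x = P1 x + P2 x := by
  classical
  refine Subtype.ext (cf_ext fun g a b => ?_)
  change cf (P x).1 g a b = cf ((P1 x).1 + (P2 x).1) g a b
  rw [cf_add]
  by_cases hr : ∃ w v, a = ι w ∧ b = ι v
  · obtain ⟨w, v, rfl, rfl⟩ := hr
    rw [hP.1, hP1.1, hP2.1, ← mul_add]
    congr 1
    rw [ent_PhE, ent_PhE, ent_PhE]
    by_cases h1 : v ∈ E1
    · have h2 : v ∉ E2 := Set.disjoint_left.1 hd h1
      by_cases hw : w = g • v
      · rw [if_pos ⟨Or.inl h1, hw⟩, if_pos ⟨h1, hw⟩, if_neg fun h => h2 h.1, add_zero]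
      · rw [if_neg fun h => hw h.2, if_neg fun h => hw h.2, if_neg fun h => h2 h.1, add_zero]
    · rw [if_neg (fun h => h1 h.1 : ¬ (v ∈ E1 ∧ w = g • v)), zero_add]
      by_cases h : v ∈ E2 ∧ w = g • v
      · rw [if_pos h, if_pos ⟨Or.inr h.1, h.2⟩]
      · rw [if_neg h, if_neg fun h' => h ⟨h'.1.resolve_left h1, h'.2⟩]
  · have hz : ∀ Q : MonoidAlgebra L Γ →ₙ+* U Γ L S, (∀ x g y' y, cf (Q x).1 g y' y ≠ 0 →
        ∃ w v, y' = ι w ∧ y = ι v) → cf (Q x).1 g a b = 0 := fun Q hQ => by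
      by_contra hne
      exact hr (hQ x g a b hne)
    rw [hz P hP.2, hz P1 hP1.2, hz P2 hP2.2, add_zero]

end Main

private theorem ex_dis {R S n : Type} [Ring R] [Ring S] [Fintype n] [DecidableEq n]
    {P P1 P2 : S →ₙ+* R} (ha : ∀ x, P x = P1 x + P2 x) (hm : ∀ x y, P1 x * P2 y = 0)
    (A : Matrix n n S) : Ex P A = Ex P1 A * Ex P2 A := by
  have h1 : (A - 1).map P = (A - 1).map P1 + (A - 1).map P2 := Matrix.ext fun i j => ha _
  have h2 : (A - 1).map P1 * (A - 1).map P2 = 0 := Matrix.ext fun i j => by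
    rw [mul_apply]
    exact Finset.sum_eq_zero fun l _ => hm _ _
  rw [Ex, Ex, Ex, h1, mul_add, add_mul, add_mul, h2, one_mul, one_mul, mul_one, add_zero,
    add_assoc]

/-- Disjoint stable sets. -/
theorem disP : S_disP := by
  intro X Y B C Γ L K _ _ _ _ _ _ _ _ _ _ S ι hι E1 E2 P P1 P2 κU hd h1 h2 hP hP1 hP2 n _ _ A hA
  rw [ex_dis (phE_add hd hP hP1 hP2) (phE_mul hι hd h2 hP1 hP2) A,
    κU.mul _ _ (ex_unit P1 hA) (ex_unit P2 hA)]

/-- The empty cell. -/
theorem empP : S_empP := by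
  intro X Y B C Γ L K _ _ _ _ _ _ _ _ _ _ S ι hι emp P κ κU hemp hP hk n _ _ A hA
  classical
  have hM : ∀ i j, mcf (Ex P A) i j - (1 : Matrix n n (CF Y (MonoidAlgebra L Γ))) i j =
      (P ((A - 1) i j)).1 := fun i j => by
    change ((1 : Matrix n n (U Γ L S)) i j + P ((A - 1) i j)).1 -
      (1 : Matrix n n (CF Y (MonoidAlgebra L Γ))) i j = _
    by_cases h : i = j
    · rw [one_apply, one_apply, if_pos h, if_pos h]
      exact add_sub_cancel_left _ _
    · rw [one_apply, one_apply, if_neg h, if_neg h, zero_add, sub_zero]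
  have hne : ∀ {x : MonoidAlgebra L Γ} {g : Γ} {y' y : Y}, cf (P x).1 g y' y ≠ 0 → y' = ι emp :=
    fun {x g y' y} h => by
      obtain ⟨v, hv, h1, -⟩ := phE_ne hP h
      rw [Set.mem_singleton_iff.1 hv, hemp] at h1
      exact h1
  have hs : Spp {ι emp} (mcf (Ex P A)) := fun i j y' y h => by
    rw [hM] at h
    obtain ⟨g, hg⟩ := Pool.Agent.FL.exists_cf_ne h
    exact Finset.mem_singleton.2 (hne hg)
  have hP0 : ∀ x : MonoidAlgebra L Γ, ent (P x).1 (ι emp) (ι emp) = x := fun x => by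
    refine MonoidAlgebra.ext (Finsupp.ext fun g => ?_)
    change cf (P x).1 g (ι emp) (ι emp) = _
    rw [hP.1, RingHom.id_apply, ent_PhE, if_pos ⟨Set.mem_singleton emp, (hemp g).symm⟩, mul_one]
  let e : n ≃ n × ({ι emp} : Finset Y) :=
    { toFun := fun i => (i, ⟨ι emp, Finset.mem_singleton_self _⟩)
      invFun := fun p => p.1
      left_inv := fun i => rfl
      right_inv := fun p => Prod.ext rfl (Subtype.ext (Finset.mem_singleton.1 p.2.2).symm) }
  have hb : blk {ι emp} (mcf (Ex P A)) = A.submatrix e.symm e.symm := by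
    refine Matrix.ext fun p q => ?_
    change ent (mcf (Ex P A) p.1 q.1) p.2 q.2 = A p.1 q.1
    have h1 := Finset.mem_singleton.1 p.2.2
    have h2 := Finset.mem_singleton.1 q.2.2
    have h3 : mcf (Ex P A) p.1 q.1 = (1 : Matrix n n (CF Y (MonoidAlgebra L Γ))) p.1 q.1 +
        (P ((A - 1) p.1 q.1)).1 := by
      rw [← hM]
      exact (add_sub_cancel _ _).symm
    rw [h1, h2, h3, ent_add, hP0, Matrix.sub_apply]
    by_cases h : p.1 = q.1
    · rw [one_apply, one_apply, if_pos h, if_pos h, ent_one, if_pos rfl, add_sub_cancel]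
    · rw [one_apply, one_apply, if_neg h, if_neg h, ent_zero, zero_add, sub_zero]
  rw [hk n (Ex P A) {ι emp} (ex_unit P hA) hs, hb]
  exact κ.reindex e A hA

end Pool.Agent.GLC
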