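import Pool.Agent.Lib.MP_8f66f0_al_GLC.SpecOps

/-!
# Project GLn, part C: the homomorphism of a multiplicative family

`P x` has the entries `∑ φ (x_g) Φ(g) g` on the real objects.
-/

set_option autoImplicit false
set_option linter.unusedSectionVars false

namespace Pool.Agent.GLC

open Pool.Agent.FL

namespace EmbF

section Emb

variable {X k L Γ : Type} [CommRing k] [CommRing L] [Group Γ] (φ : L →+* k) (Φ : Γ → CF X k)

/-- The entries of the homomorphism. -/
noncomputable def embE (x : MonoidAlgebra L Γ) (w v : X) : MonoidAlgebra k Γ :=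
  ∑ g ∈ x.coeff.support, MonoidAlgebra.single g (φ (x.coeff g) * ent (Φ g) w v)

theorem embE_coeff (x : MonoidAlgebra L Γ) (w v : X) (g : Γ) :
    (embE φ Φ x w v).coeff g = φ (x.coeff g) * ent (Φ g) w v := by
  classical
  rw [embE, MonoidAlgebra.coeff_sum, Finsupp.finsetSum_apply]
  rw [Finset.sum_eq_single g]
  · rw [MonoidAlgebra.coeff_single, Finsupp.single_eq_same]
  · intro g' _ hne
    rw [MonoidAlgebra.coeff_single, Finsupp.single_eq_of_ne hne.symm]
  · intro hg
    rw [Finsupp.notMem_support_iff.1 hg, map_zero, zero_mul, MonoidAlgebra.single_zero]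
    rfl

theorem embE_ne {x : MonoidAlgebra L Γ} {w v : X} (h : embE φ Φ x w v ≠ 0) :
    ∃ g ∈ x.coeff.support, ent (Φ g) w v ≠ 0 := by
  by_contra hcon
  push Not at hcon
  refine h (Finset.sum_eq_zero fun g hg => ?_)
  rw [hcon g hg, mul_zero, MonoidAlgebra.single_zero]

/-- The homomorphism, as an additive map. -/
noncomputable def embK (x : MonoidAlgebra L Γ) : CF X (MonoidAlgebra k Γ) :=
  mkK (embE φ Φ x)
    (fun v => (Set.Finite.biUnion x.coeff.support.finite_toSet
      fun g _ => ent_col (Φ g) v).subset fun w hw => by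
        obtain ⟨g, hg, hne⟩ := embE_ne φ Φ hw
        exact Set.mem_biUnion hg hne)

theorem cf_embK (x : MonoidAlgebra L Γ) (g : Γ) (w v : X) :
    cf (embK φ Φ x) g w v = φ (x.coeff g) * ent (Φ g) w v := by
  rw [cf, embK, ent_mkK, embE_coeff]

theorem ent_embK_single (g : Γ) (a : L) (w v : X) :
    ent (embK φ Φ (MonoidAlgebra.single g a)) w v =
      MonoidAlgebra.single g (φ a * ent (Φ g) w v) := by
  classical
  refine MonoidAlgebra.ext (Finsupp.ext fun l => ?_)
  change cf (embK φ Φ (MonoidAlgebra.single g a)) l w v = _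
  rw [cf_embK, MonoidAlgebra.coeff_single, MonoidAlgebra.coeff_single, Finsupp.single_apply,
    Finsupp.single_apply]
  by_cases h : g = l
  · rw [if_pos h, if_pos h, h]
  · rw [if_neg h, if_neg h, map_zero, zero_mul]

theorem embK_add (x y : MonoidAlgebra L Γ) :
    embK φ Φ (x + y) = embK φ Φ x + embK φ Φ y := by
  refine cf_ext fun g w v => ?_
  rw [cf_add, cf_embK, cf_embK, cf_embK, MonoidAlgebra.coeff_add, Finsupp.add_apply, map_add,
    add_mul]

theorem embK_zero : embK φ Φ (0 : MonoidAlgebra L Γ) = 0 := by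
  refine cf_ext fun g w v => ?_
  rw [cf_zero, cf_embK, MonoidAlgebra.coeff_zero, Finsupp.zero_apply, map_zero, zero_mul]

variable {Φ}

theorem embK_mul (hΦ : ∀ g h, Φ (g * h) = Φ g * Φ h) (x y : MonoidAlgebra L Γ) :
    embK φ Φ (x * y) = embK φ Φ x * embK φ Φ y := by
  classical
  induction x using MonoidAlgebra.induction_linear with
  | zero => rw [zero_mul, embK_zero, zero_mul]
  | add x x' hx hx' => rw [add_mul, embK_add, embK_add, add_mul, hx, hx']
  | single g a =>
    induction y using MonoidAlgebra.induction_linear with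
    | zero => rw [mul_zero, embK_zero, mul_zero]
    | add y y' hy hy' => rw [mul_add, embK_add, embK_add, mul_add, hy, hy']
    | single h b =>
      refine ent_ext fun w v => ?_
      have hs : ∀ u, ent (Φ h) u v ≠ 0 → u ∈ (ent_col (Φ h) v).toFinset := fun u hu => by
        rw [Set.Finite.mem_toFinset]
        exact hu
      rw [MonoidAlgebra.single_mul_single, ent_embK_single, hΦ, ent_mul_col (Φ g) (Φ h) w v _ hs,
        ent_mul_col (embK φ Φ (MonoidAlgebra.single g a)) (embK φ Φ (MonoidAlgebra.single h b)) w v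
          (ent_col (Φ h) v).toFinset fun u hu => hs u fun h0 => hu ?_]
      · rw [Finset.mul_sum]
        have e : ∀ (s : Finset X) (f : X → k), MonoidAlgebra.single (g * h) (∑ u ∈ s, f u) =
            ∑ u ∈ s, MonoidAlgebra.single (g * h) (f u) := fun s f =>
          map_sum (MonoidAlgebra.singleAddHom (g * h)) f s
        rw [e]
        refine Finset.sum_congr rfl fun u _ => ?_
        rw [ent_embK_single, ent_embK_single, MonoidAlgebra.single_mul_single, map_mul]
        congr 1
        ring
      · rw [ent_embK_single, h0, mul_zero, MonoidAlgebra.single_zero]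

end Emb

section Mem

variable {X Y B C k L Γ : Type} [CommRing k] [CommRing L] [Group Γ] [PartialOrder B]
  [MulAction Γ B] [OrdAct Γ B] [PartialOrder C] [MulAction Γ C] [OrdAct Γ C] {S : FSys Y B C}
  {ι : X → Y} (hι : Function.Injective ι) (φ : L →+* k) {Φ : Γ → CF X k}

theorem mem_supp {x : MonoidAlgebra L Γ} {g : Γ} {y' y : Y}
    (h : cf (push hι (embK φ Φ x)) g y' y ≠ 0) :
    ∃ w v, ι w = y' ∧ ι v = y ∧ g ∈ x.coeff.support ∧ ent (Φ g) w v ≠ 0 := by
  obtain ⟨w, v, h1, h2, h3⟩ := cf_push_ne hι h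
  rw [cf_embK] at h3
  refine ⟨w, v, h1, h2, ?_, right_ne_zero_of_mul h3⟩
  rw [Finsupp.mem_support_iff]
  intro h4
  exact left_ne_zero_of_mul h3 (by rw [h4, map_zero])

theorem emb_mem (hB : ∀ g, Bse S ι g (Φ g)) (hI : ∀ g, Inw S ι g (Φ g)) (hP : ∀ g, Bs (Φ g))
    (x : MonoidAlgebra L Γ) : push hι (embK φ Φ x) ∈ U Γ k S := by
  classical
  refine ⟨fun g y' y h => ?_, fun h' => ?_, ?_⟩
  · obtain ⟨w, v, rfl, rfl, _, h1⟩ := mem_supp hι φ h
    exact hB g w v h1
  · choose f hf using fun g => hI g h'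
    refine ⟨x.coeff.support.sup f, fun g y' y h => ?_⟩
    obtain ⟨w, v, rfl, rfl, h1, h2⟩ := mem_supp hι φ h
    exact (hf g w v h2).mono (Finset.le_sup h1)
  · choose P hP1 hP2 using hP
    refine ⟨x.coeff.support.sup fun g => Submodule.span ℤ {φ (x.coeff g)} * P g, ?_,
      fun g y' y => ?_⟩
    · exact Submodule.fg_finset_sup _ _ fun g _ => (Submodule.fg_span_singleton _).mul (hP1 g)
    · by_cases h0 : cf (push hι (embK φ Φ x)) g y' y = 0
      · rw [h0]
        exact Submodule.zero_mem _
      · obtain ⟨w, v, rfl, rfl, h1, _⟩ := mem_supp hι φ h0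
        rw [cf_push, cf_embK]
        exact Finset.le_sup (f := fun g => Submodule.span ℤ {φ (x.coeff g)} * P g) h1
          (Submodule.mul_mem_mul (Submodule.mem_span_singleton_self _) (hP2 g w v))

end Mem

end EmbF

open EmbF in
/-- The homomorphism of a multiplicative family. -/
theorem embF : S_embF := by
  intro X Y B C k L Γ _ _ _ _ _ _ _ _ _ S ι hι φ Φ hΦ hB hI hP
  refine ⟨{
    toFun := fun x => ⟨push hι (embK φ Φ x), emb_mem hι φ hB hI hP x⟩
    map_mul' := fun x y => Subtype.ext ?_
    map_zero' := Subtype.ext ?_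
    map_add' := fun x y => Subtype.ext ?_ }, fun x g w v => ?_, fun x g y' y h => ?_⟩
  · change push hι (embK φ Φ (x * y)) = push hι (embK φ Φ x) * push hι (embK φ Φ y)
    rw [embK_mul φ hΦ]
    exact (push hι).map_mul' _ _
  · change push hι (embK φ Φ 0) = 0
    rw [embK_zero]
    exact (push hι).map_zero'
  · change push hι (embK φ Φ (x + y)) = push hι (embK φ Φ x) + push hι (embK φ Φ y)
    rw [embK_add]
    exact (push hι).map_add' _ _
  · change cf (push hι (embK φ Φ x)) g (ι w) (ι v) = _
    rw [cf_push, cf_embK]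
  · obtain ⟨w, v, h1, h2, _⟩ := cf_push_ne hι (z := embK φ Φ x) h
    exact ⟨w, v, h1.symm, h2.symm⟩

end Pool.Agent.GLC
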