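import Pool.Agent.Lib.MP_8f66f0_al_GLC.SpecEnd
import Pool.Agent.Lib.MP_8f66f0_al_GLC.Cocy
import Pool.Agent.Lib.MP_8f66f0_al_GLC.EmbF
import Pool.Agent.Lib.MP_8f66f0_al_GLC.Inw

/-!
# Project GLn, part C: the homomorphisms of the families (`S_hfam`)
-/

set_option autoImplicit false

namespace Pool.Agent.GLC

open Pool.Agent.FL CocyAux

namespace HFamAux

section Inw

variable {X Y B C k Γ : Type} [CommRing k] [Group Γ] [PartialOrder B] [MulAction Γ B]
  [OrdAct Γ B] [PartialOrder C] [MulAction Γ C] [OrdAct Γ C] {S : FSys Y B C} {ι : X → Y}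

theorem inw_cfl {g : Γ} {T : Module.End ℤ (X →₀ ℤ)} (h : InwZ S ι g T) :
    Inw S ι g (cfl X k T) := by
  intro h'
  obtain ⟨h1, H⟩ := h h'
  refine ⟨h1, fun w v hne => H w v fun h0 => hne ?_⟩
  rw [ent_cfl, h0, Int.cast_zero]

theorem inw_diag {T : CF X k} (h : ∀ w v, ent T w v ≠ 0 → w = v) : Inw S ι (1 : Γ) T := by
  intro h'
  refine ⟨h', fun w v hne => ?_⟩
  rw [h w v hne]
  exact Cmp.refl S h' _

theorem mul1 {T U : CF X k} (hT : Inw S ι (1 : Γ) T) (hU : Inw S ι (1 : Γ) U) :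
    Inw S ι (1 : Γ) (T * U) := by
  have h := (inw X Y B C k Γ S ι).1 1 1 T U hT hU
  rwa [one_mul] at h

theorem add1 {T U : CF X k} (hT : Inw S ι (1 : Γ) T) (hU : Inw S ι (1 : Γ) U) :
    Inw S ι (1 : Γ) (T + U) := (inw X Y B C k Γ S ι).2.1 1 T U hT hU

theorem mul3 {g : Γ} {T U V : CF X k} (hT : Inw S ι (1 : Γ) T) (hU : Inw S ι g U)
    (hV : Inw S ι (1 : Γ) V) : Inw S ι g (T * U * V) := by
  have h := (inw X Y B C k Γ S ι).1 _ _ _ _ ((inw X Y B C k Γ S ι).1 1 g T U hT hU) hV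
  rwa [one_mul, mul_one] at h

end Inw

variable {X k : Type} [CommRing k]

theorem ent_scl (t : k) (w v : X) :
    ent (scl X t) w v = (open Classical in if w = v then t else 0) := ent_mkK _ _ _ _

theorem scl_diag (t : k) (w v : X) (h : ent (scl X t) w v ≠ 0) : w = v := by
  classical
  rw [ent_scl] at h
  by_contra hne
  exact h (if_neg hne)

theorem scl_self (t : k) (v : X) : ent (scl X t) v v = t := by
  classical
  rw [ent_scl, if_pos rfl]

theorem bs_scl (t : k) : Bs (scl X t) := by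
  classical
  refine ⟨Submodule.span ℤ {t}, Submodule.fg_span_singleton _, fun w v => ?_⟩
  rw [ent_scl]
  split_ifs
  · exact Submodule.mem_span_singleton_self t
  · exact Submodule.zero_mem _

theorem bs_cfl (T : Module.End ℤ (X →₀ ℤ)) : Bs (cfl X k T) := by
  refine ⟨Submodule.span ℤ {1}, Submodule.fg_span_singleton _, fun w v => ?_⟩
  rw [ent_cfl, ← zsmul_one]
  exact Submodule.smul_mem _ _ (Submodule.mem_span_singleton_self 1)

end HFamAux

open HFamAux in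
/-- The homomorphisms of the families. -/
theorem hfam : S_hfam := by
  intro X β Y B C Γ L k _ _ _ _ _ _ _ _ _ _ _ φ S ι E emp d p b hG
  have bm : ∀ {T U : CF X k}, Bs T → Bs U → Bs (T * U) := fun hT hU =>
    ((inw X Y B C k Γ S ι).2.2.2.2.1 _ _ hT hU).1
  have ba : ∀ {T U : CF X k}, Bs T → Bs U → Bs (T + U) := fun hT hU =>
    ((inw X Y B C k Γ S ι).2.2.2.2.1 _ _ hT hU).2
  have hd : Inw S ι (1 : Γ) (cfl X k d) := inw_cfl hG.inw_d
  have hp : ∀ c, Inw S ι (1 : Γ) (cfl X k (p c)) := fun c => inw_cfl (hG.inw_p c)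
  have hs : ∀ t : k, Inw S ι (1 : Γ) (scl X t) := fun t => inw_diag (scl_diag t)
  have hE : ∀ E' : Set X, Inw S ι (1 : Γ) (cfl X k (prj E')) := fun E' =>
    inw_diag (prj_diag E')
  have hg : ∀ g : Γ, Inw S ι g (cfl X k (perm g)) := fun g => inw_cfl (hG.inw_g g)
  have hB : ∀ (g : Γ) (T : CF X k), Bse S ι g T := fun g T w v _ => hG.triv g _ _
  have hc := fun t : k => cocy X β k Γ d p E b t (scl X t) (scl_diag t) (scl_self t) hG.ct
    hG.d_eq hG.p_eq hG.E_eq hG.E_d hG.E_p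
  refine ⟨fun t => ⟨?_, ?_⟩, fun E' hE' => ?_⟩
  · refine embF X Y B C k L Γ S ι hG.inj φ (Ph1 d p E b t) (hc t).1 (fun g => hB g _)
      (fun g => ?_) fun g => ?_
    · exact mul3 (add1 (add1 (mul1 hd (hp _)) (mul1 (hp _) hd))
        (mul1 (hs t) (mul1 (hp _) (hp _)))) (hg g) (hE E)
    · exact bm (bm (ba (ba (bm (bs_cfl _) (bs_cfl _)) (bm (bs_cfl _) (bs_cfl _)))
        (bm (bs_scl t) (bm (bs_cfl _) (bs_cfl _)))) (bs_cfl _)) (bs_cfl _)
  · refine embF X Y B C k L Γ S ι hG.inj φ (Ph2 d p E b t) (hc t).2 (fun g => hB g _)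
      (fun g => ?_) fun g => ?_
    · exact mul3 (add1 (add1 (mul1 hd (hp _)) (mul1 (hp _) hd))
        (mul1 (hs t) (mul1 (mul1 hd (hp _)) (mul1 (hp _) hd)))) (hg g) (hE E)
    · exact bm (bm (ba (ba (bm (bs_cfl _) (bs_cfl _)) (bm (bs_cfl _) (bs_cfl _)))
        (bm (bs_scl t) (bm (bm (bs_cfl _) (bs_cfl _)) (bm (bs_cfl _) (bs_cfl _)))))
        (bs_cfl _)) (bs_cfl _)
  · refine embF X Y B C k L Γ S ι hG.inj φ (PhE k E') (fun g h => ?_) (fun g => hB g _)
      (fun g => ?_) fun g => bm (bs_cfl _) (bs_cfl _)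
    · unfold PhE
      rw [perm_mul, map_mul, mul_assoc (cfl X k (perm g)) (cfl X k (prj E')),
        ← mul_assoc (cfl X k (prj E')) (cfl X k (perm h)), (Ev_perm hE' h).comm,
        mul_assoc (cfl X k (perm h)), prj_idem, mul_assoc]
    · have h := (inw X Y B C k Γ S ι).1 _ _ _ _ (hg g) (hE E')
      rwa [mul_one] at h

end Pool.Agent.GLC
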