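import Pool.Agent.Lib.MP_8f66f0_al_GLC.SpecEnd
import Pool.Agent.Lib.MP_8f66f0_al_GLC.Cocy
import Pool.Agent.Lib.MP_8f66f0_al_GLC.HFam

/-!
# Project GLn, part C: the values of the two families (`S_fam`)
-/

set_option autoImplicit false

namespace Pool.Agent.GLC

open Pool.Agent.FL CocyAux HFamAux

namespace FamAux

section Base

variable {X k k' : Type} [CommRing k] [CommRing k'] (φ : k →+* k')

/-- The entries of `T'` are the images of the entries of `T`. -/
def Im (T' : CF X k') (T : CF X k) : Prop := ∀ w v, ent T' w v = φ (ent T w v)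

variable {φ}

theorem Im.add {T' U' : CF X k'} {T U : CF X k} (hT : Im φ T' T) (hU : Im φ U' U) :
    Im φ (T' + U') (T + U) := fun w v => by rw [ent_add, ent_add, hT, hU, map_add]

theorem Im.mul {T' U' : CF X k'} {T U : CF X k} (hT : Im φ T' T) (hU : Im φ U' U) :
    Im φ (T' * U') (T * U) := fun w v => by
  have h1 : ∀ x, ent U x v ≠ 0 → x ∈ (ent_col U v).toFinset := fun x hx => by
    rw [Set.Finite.mem_toFinset]
    exact hx
  have h2 : ∀ x, ent U' x v ≠ 0 → x ∈ (ent_col U v).toFinset := fun x hx => h1 x fun h0 => hx (by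
    rw [hU, h0, map_zero])
  rw [ent_mul_col T' U' w v _ h2, ent_mul_col T U w v _ h1, map_sum]
  refine Finset.sum_congr rfl fun x _ => ?_
  rw [hT, hU, map_mul]

theorem Im.cfl (A : Module.End ℤ (X →₀ ℤ)) : Im φ (cfl X k' A) (cfl X k A) := fun w v => by
  rw [ent_cfl, ent_cfl, map_intCast]

theorem Im.scl (t : k) : Im φ (scl X (φ t)) (scl X t) := fun w v => by
  classical
  rw [ent_scl, ent_scl]
  split_ifs
  · rfl
  · rw [map_zero]

theorem scl_one : scl X (1 : k) = 1 := by
  classical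
  refine ent_ext fun w v => ?_
  rw [ent_scl, ent_one]

theorem scl_zero : scl X (0 : k) = 0 := by
  classical
  refine ent_ext fun w v => ?_
  rw [ent_scl, ent_zero]
  split_ifs <;> rfl

/-- Matrices which exchange `E` and its complement exchange the projections. -/
theorem od_prj {E : Set X} {T : CF X k} (hT : Od E T) :
    T * cfl X k (prj E) = cfl X k (prj Eᶜ) * T := by
  classical
  refine ent_ext fun y x => ?_
  rw [diag_mul _ _ (prj_diag Eᶜ), mul_diag _ _ (prj_diag E), prj_self, prj_self]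
  by_cases h : ent T y x = 0
  · rw [h, mul_zero, zero_mul]
  · have h1 := hT y x h
    by_cases hx : x ∈ E
    · have hy : y ∈ Eᶜ := fun hy => (h1.1 hy) hx
      rw [if_pos hx, if_pos hy, one_mul, mul_one]
    · have hy : ¬ y ∈ Eᶜ := fun hy => hy (h1.2 hx)
      rw [if_neg hx, if_neg hy, zero_mul, mul_zero]

theorem Od.add {E : Set X} {S T : CF X k} (hS : Od E S) (hT : Od E T) : Od E (S + T) := by
  intro y x h
  rw [ent_add] at h
  rcases ne_or_ne_of_add h with h | h
  · exact hS y x h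
  · exact hT y x h

/-- The involution `d + p`. -/
theorem ct_sq {A : Type} [Ring A] {d p : A} (h : Ct d p) : (d + p) * (d + p) = 1 := by
  rw [add_mul, mul_add, mul_add, h.dd, h.pp, zero_add, add_zero, h.dp]

/-- The first value, in any ring. -/
theorem val1 {A : Type} [Ring A] {v v' g e e' : A} (h1 : v' * g = g * v) (h2 : v * e = e' * v) :
    v * v' * g * e = v * (g * e') * v := by
  calc v * v' * g * e = v * (v' * g) * e := by simp only [mul_assoc]
    _ = v * g * (v * e) := by rw [h1]; simp only [mul_assoc]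
    _ = v * (g * e') * v := by rw [h2]; simp only [mul_assoc]

end Base

theorem cmp_mono {Y B C Γ : Type} [Group Γ] [PartialOrder B] [MulAction Γ B] [PartialOrder C]
    [MulAction Γ C] {S : FSys Y B C} {h h2 h' : ℕ} {g : Γ} {y' y : Y} (hh : h ≤ h2)
    (H : Cmp S h h' g y' y) : Cmp S h2 h' g y' y := by
  refine ⟨(S.R_anti hh y').trans H.1, fun he hp => ?_⟩
  have e1 : S.R h y' = S.R h' y := le_antisymm H.1 (he ▸ S.R_anti hh y')
  rw [he.trans e1.symm] at hp ⊢
  exact H.2 e1 hp

end FamAux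

open FamAux in
/-- The values of the two families. -/
theorem fam : S_fam := by
  intro X β Y B C Γ k _ _ _ _ _ _ _ _ S ι E emp d p b hG
  have hC : ∀ c, Ct (cfl X k d) (cfl X k (p c)) := fun c =>
    ⟨by rw [← map_mul, (hG.ct c).dd, map_zero], by rw [← map_mul, (hG.ct c).pp, map_zero],
      by rw [← map_mul, ← map_mul, ← map_add, (hG.ct c).dp, map_one]⟩
  have od : Od E (cfl X k d) := fun y x h => hG.E_d y x fun h' => h (by
    rw [ent_cfl, h', Int.cast_zero])
  have op : ∀ c, Od E (cfl X k (p c)) := fun c y x h => hG.E_p c y x fun h' => h (by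
    rw [ent_cfl, h', Int.cast_zero])
  have hg : ∀ g : Γ, cfl X k (d + p (g • b)) * cfl X k (perm g) =
      cfl X k (perm g) * cfl X k (d + p b) := fun g => by
    rw [← map_mul, ← map_mul, add_mul, mul_add, hG.d_eq, hG.p_eq]
  refine ⟨fun g => ?_, fun g => ?_, fun g => ?_, fun k' _ φ t g w v => ⟨?_, ?_⟩, ?_, ?_,
    bs_cfl _⟩
  · unfold Ph1 PhE
    rw [scl_one, W1_one (hC b), ← map_add, ← map_add]
    refine val1 (hg g) ?_
    rw [map_add]
    exact od_prj (Od.add od (op b))
  · unfold Ph2 PhE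
    rw [scl_one, W2_one (hC b) (hC (g • b)), one_mul]
  · unfold Ph1 Ph2
    rw [scl_zero, W_zero]
  · exact (Im.mul (Im.mul (Im.add (Im.add (Im.mul (Im.cfl _) (Im.cfl _))
      (Im.mul (Im.cfl _) (Im.cfl _))) (Im.mul (Im.scl t) (Im.mul (Im.cfl _) (Im.cfl _))))
      (Im.cfl _)) (Im.cfl _) : Im φ _ _) w v
  · exact (Im.mul (Im.mul (Im.add (Im.add (Im.mul (Im.cfl _) (Im.cfl _))
      (Im.mul (Im.cfl _) (Im.cfl _))) (Im.mul (Im.scl t) (Im.mul (Im.mul (Im.cfl _) (Im.cfl _))
      (Im.mul (Im.cfl _) (Im.cfl _))))) (Im.cfl _)) (Im.cfl _) : Im φ _ _) w v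
  · rw [map_add]
    exact ct_sq (hC b)
  · intro h'
    obtain ⟨h1, H1⟩ := hG.inw_d h'
    obtain ⟨h2, H2⟩ := hG.inw_p b h'
    refine ⟨h1 ⊔ h2, fun w v h => ?_⟩
    rw [map_add, ent_add, ent_cfl, ent_cfl] at h
    rcases ne_or_ne_of_add h with h | h
    · exact cmp_mono le_sup_left (H1 w v fun h0 => h (by rw [h0, Int.cast_zero]))
    · exact cmp_mono le_sup_right (H2 w v fun h0 => h (by rw [h0, Int.cast_zero]))

end Pool.Agent.GLC
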