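import Pool.Agent.Lib.MP_8f66f0_al_GLC.SpecFin
import Pool.Agent.Lib.MP_8f66f0_al_GLA.HullRank

/-!
# Project GLn: `InwZ` for the real objects (helper60)
-/

set_option autoImplicit false

namespace Pool.Agent.GLC

open Pool.Agent.FL Pool.Agent.GLA Pool.Agent.Wald Pool.Agent.Ind Pool.Agent.WaldL Pool.Agent.FH
  Pool.Agent.TreeC Pool.Agent.Hier Matrix
open scoped Polynomial Pointwise

/-- The comparison of two real objects. -/
theorem cmp_real {M Γ : Type} [ShL M] [Group Γ] [ShAct Γ M] {X : ℕ → Set M} (hX : Exh X) (g : Γ)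
    (σ τ : Cell M) (h h' : ℕ)
    (h1 : GLA.rk (GLA.lab (X h) τ.s) ≤ GLA.rk (GLA.lab (X h') σ.s))
    (h2 : GLA.rk (GLA.lab (X h) τ.s) = GLA.rk (GLA.lab (X h') σ.s) →
      Up (g • GLA.lab (X h') σ.s) (GLA.lab (X h) τ.s)) :
    Cmp (Sp hX) h h' g (real hX τ) (real hX σ) := by
  refine ⟨?_, fun h3 h4 => ?_⟩
  · rw [real_R, real_R]
    omega
  · have h5 : 1 ≤ (Sp hX).R h' (real hX σ) := by
      rw [← h3]
      exact h4
    obtain ⟨hP, e1⟩ := real_lab_R (fun _ => ()) hX τ h h4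
    obtain ⟨hQ, e2⟩ := real_lab_R (fun _ => ()) hX σ h' h5
    have e3 : (Sp hX).lab (real hX σ) ((Sp hX).R h (real hX τ)) =
        OLab.of (mkL _ hQ) := by
      rw [h3]
      exact e2
    have e4 : (Sp hX).lab (real hX τ) ((Sp hX).R h (real hX τ)) =
        OLab.of (mkL _ hP) := e1
    rw [e3, e4, OLab.smul_of, OLab.of_le_of]
    have h6 : GLA.rk (GLA.lab (X h) τ.s) = GLA.rk (GLA.lab (X h') σ.s) := by
      rw [real_R, real_R] at h3
      rw [real_R] at h4 h5
      omega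
    refine ⟨?_, h2 h6⟩
    rw [Lab.rk_smul]
    exact h6.symm

theorem inwr : S_inwr := by
  classical
  intro M Γ _ _ _ X hX
  refine ⟨fun c T hT h' => ?_, fun g h' => ?_⟩
  · obtain ⟨i, hi⟩ := hX.exh c
    have hc : c ∈ X (max i h') := hX.mono (le_max_left _ _) hi
    refine ⟨max i h', fun τ σ hne => ?_⟩
    have h1 : gen {c} ⊆ X (max i h') := fun x hx =>
      hx _ (hX.adm _).st (hX.adm _).sup (Set.singleton_subset_iff.2 hc)
    have h2 : τ.s ⊆ hull (X (max i h')) σ.s := by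
      refine (hT σ τ hne).trans ?_
      rintro x (hx | hx | ⟨l, hl, b, hb, hx⟩)
      · exact Or.inl (h1 hx)
      · exact Or.inr (Or.inl hx)
      · exact Or.inr (Or.inr ⟨l, hl, b, h1 hb, hx⟩)
    obtain ⟨h3, h4⟩ := lab_hull (hX.adm _) σ τ h2
    obtain ⟨h5, h6⟩ := lab_mono (hX.adm h') (hX.adm (max i h')) (hX.mono (le_max_right _ _)) σ
    refine cmp_real hX 1 σ τ _ _ (h3.trans h5) fun h7 => ?_
    have h8 : GLA.rk (GLA.lab (X (max i h')) τ.s) = GLA.rk (GLA.lab (X (max i h')) σ.s) := by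
      omega
    have h9 : GLA.rk (GLA.lab (X (max i h')) σ.s) = GLA.rk (GLA.lab (X h') σ.s) := by
      omega
    rw [one_smul, ← h6 h9]
    exact h4 h8
  · obtain ⟨h, hh⟩ := exh_smul hX.adm hX.fin hX.mono hX.exh g h'
    refine ⟨h, fun τ σ hne => ?_⟩
    have h0 : τ = g • σ := by
      by_contra hcon
      apply hne
      unfold perm
      rw [Finsupp.lmapDomain_apply, Finsupp.mapDomain_single, Finsupp.single_apply,
        if_neg (fun h => hcon h.symm)]
    subst h0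
    obtain ⟨h1, h2⟩ := lab_mono (adm_smul g (hX.adm h')) (hX.adm h) hh (g • σ)
    rw [Cell.smul_s, lab_smul] at h1 h2
    rw [GLA.rk_smul] at h1 h2
    refine cmp_real hX g σ (g • σ) _ _ h1 fun h3 => ?_
    rw [Cell.smul_s, h2 h3]
    rintro _ ⟨p, hp, rfl⟩
    have h4 : (g • p).1 ≤ (g • p).2 := by
      rw [Prod.smul_fst, Prod.smul_snd]
      apply ShAct.smul_mono
      obtain ⟨-, -, l, c, h5, h6, h7⟩ := hp
      rw [h7]
      exact sup_le h5.1.2.le h6.1.2
    exact ⟨g • p, Set.smul_mem_smul_set hp, sup_eq_left.2 h4, inf_eq_right.2 h4⟩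

end Pool.Agent.GLC
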