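import Pool.Agent.Lib.MP_8f66f0_al_GLC.SpecEnd
import Pool.Agent.Lib.MP_8f66f0_al_GLC.Cocy

/-!
# Project GLn, part C: the permutation matrices of the non-empty cells are killed (`S_killE`)

The matrix `P x` has its entries at the objects which come from `S0`, and it satisfies the conditions
of `U Γ L S0`. So `Ex P A = Ex I z0` for the extension by zero `I : U Γ L S0 → U Γ L S`.
-/

set_option autoImplicit false

namespace Pool.Agent.GLC

open Pool.Agent.FL Pool.Agent.Wald Pool.Agent.Ind Pool.Agent.WaldL Pool.Agent.FH Matrix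
open Pool.Agent.CC (Ex)

namespace KillE

section Exx

variable {R S : Type} [Ring R] [Ring S] (ε : S →ₙ+* R) {n : Type} [Fintype n] [DecidableEq n]

theorem ex_mul (r s : Matrix n n S) : Ex ε (r * s) = Ex ε r * Ex ε s := by
  have h : r * s - 1 = (r - 1) + (s - 1) + (r - 1) * (s - 1) := by
    rw [Matrix.sub_mul, Matrix.mul_sub, Matrix.mul_one, Matrix.one_mul]
    abel
  have h1 : ∀ a b : Matrix n n S, (a + b).map ε = a.map ε + b.map ε := fun a b => by
    ext i j
    exact map_add ε _ _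
  have h2 : ∀ a b : Matrix n n S, (a * b).map ε = a.map ε * b.map ε := fun a b => by
    ext i j
    rw [Matrix.map_apply, Matrix.mul_apply, Matrix.mul_apply, map_sum]
    refine Finset.sum_congr rfl fun k _ => ?_
    rw [map_mul, Matrix.map_apply, Matrix.map_apply]
  rw [Ex, Ex, Ex, h, h1, h1, h2]
  simp only [Matrix.add_mul, Matrix.mul_add, Matrix.mul_one, Matrix.one_mul]
  abel

omit [Fintype n] in
theorem ex_one : Ex ε (1 : Matrix n n S) = 1 := by
  rw [Ex, sub_self]
  have h0 : (0 : Matrix n n S).map ε = 0 := by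
    ext i j
    exact map_zero ε
  rw [h0, add_zero]

variable {ε}

omit [Fintype n] in
theorem ex_inj (h : Function.Injective ε) {a b : Matrix n n S} (hab : Ex ε a = Ex ε b) : a = b := by
  rw [Ex, Ex] at hab
  exact sub_left_injective (Matrix.map_injective h (add_left_cancel hab))

end Exx

section Over

variable {Y0 Y B0 B C L Γ : Type} [Group Γ] [PartialOrder B0] [MulAction Γ B0] [OrdAct Γ B0]
  [PartialOrder B] [MulAction Γ B] [OrdAct Γ B] [PartialOrder C] [MulAction Γ C] [OrdAct Γ C]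
  [CommRing L] {i : Y0 → Y} {S0 : FSys Y0 B0 C} {S : FSys Y B C}

omit [OrdAct Γ B0] [OrdAct Γ B] [PartialOrder C] [MulAction Γ C] [OrdAct Γ C] in
theorem R_eq (H : OverI Γ i S0 S) (h : ℕ) (y : Y0) : S.R h (i y) = S0.R h y := by
  unfold FSys.R FSys.F
  rw [H.A]

omit [OrdAct Γ B0] [OrdAct Γ B] [OrdAct Γ C] in
theorem cmp_iff (H : OverI Γ i S0 S) (h h' : ℕ) (g : Γ) (y' y : Y0) :
    Cmp S h h' g (i y') (i y) ↔ Cmp S0 h h' g y' y := by
  unfold Cmp
  rw [R_eq H, R_eq H, H.lab, H.lab]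

theorem push_mem (H : OverI Γ i S0 S) {z : CF Y0 (MonoidAlgebra L Γ)} (hz : z ∈ U Γ L S0) :
    push H.inj z ∈ U Γ L S := by
  obtain ⟨h1, h2, P, hP, h3⟩ := hz
  refine ⟨fun g y' y h => ?_, fun h' => ?_, P, hP, fun g y' y => ?_⟩
  · obtain ⟨w, v, rfl, rfl, h0⟩ := cf_push_ne H.inj h
    exact H.base g v w (h1 g w v h0)
  · obtain ⟨h, hh⟩ := h2 h'
    refine ⟨h, fun g y' y h4 => ?_⟩
    obtain ⟨w, v, rfl, rfl, h0⟩ := cf_push_ne H.inj h4
    exact (cmp_iff H h h' g w v).2 (hh g w v h0)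
  · by_cases h0 : cf (push H.inj z) g y' y = 0
    · rw [h0]
      exact P.zero_mem
    · obtain ⟨w, v, rfl, rfl, h4⟩ := cf_push_ne H.inj h0
      rw [cf_push]
      exact h3 g w v

/-- The extension by zero. -/
noncomputable def inI (H : OverI Γ i S0 S) : U Γ L S0 →ₙ+* U Γ L S where
  toFun z := ⟨push H.inj z.1, push_mem H z.2⟩
  map_mul' _ _ := Subtype.ext ((push H.inj).map_mul' _ _)
  map_zero' := Subtype.ext (push H.inj).map_zero'
  map_add' _ _ := Subtype.ext ((push H.inj).map_add' _ _)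

theorem inI_val (H : OverI Γ i S0 S) (z : U Γ L S0) : (inI H z).1 = push H.inj z.1 := rfl

theorem inI_inj (H : OverI Γ i S0 S) : Function.Injective (inI (L := L) H) := by
  intro a b h
  refine Subtype.ext (cf_ext fun g y x => ?_)
  have h1 : push H.inj a.1 = push H.inj b.1 := congrArg Subtype.val h
  rw [← cf_push H.inj, ← cf_push H.inj, h1]

end Over

section Perm

variable {X L Γ : Type} [Group Γ] [MulAction Γ X] [CommRing L]

theorem ent_PhE {E : Set X} {g : Γ} {w v : X} (h : ent (PhE L E g) w v ≠ 0) :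
    v ∈ E ∧ w = g • v := by
  classical
  obtain ⟨u, hu⟩ := exists_of_ent_mul h
  have h1 := left_ne_zero_of_mul hu
  have h2 := right_ne_zero_of_mul hu
  rw [CocyAux.ent_prj] at h2
  rw [ent_cfl, CocyAux.perm_single, Finsupp.single_apply] at h1
  have h3 : v ∈ E ∧ u = v := by
    by_contra hc
    exact h2 (if_neg hc)
  have h4 : g • u = w := by
    by_contra hc
    rw [if_neg hc, Int.cast_zero] at h1
    exact h1 rfl
  exact ⟨h3.1, by rw [← h4, h3.2]⟩

end Perm

end KillE

open KillE in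
/-- The permutation matrices of the non-empty cells are killed. -/
theorem killE : S_killE := by
  intro X Y0 Y B0 B C Γ L K _ _ _ _ _ _ _ _ _ _ _ _ _ i S0 S H ι hι E P κU _ hE2 hP hI n _ _ A hA
  -- the entries of `P x`
  have key : ∀ (x : MonoidAlgebra L Γ) (g : Γ) (y' y : Y), cf (P x).1 g y' y ≠ 0 →
      ∃ w v : Y0, i w = y' ∧ i v = y ∧ g • S0.base v ≤ S0.base w := by
    intro x g y' y h
    obtain ⟨w, v, rfl, rfl⟩ := hP.2 x g y' y h
    rw [hP.1] at h
    obtain ⟨hv, rfl⟩ := ent_PhE (right_ne_zero_of_mul h)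
    obtain ⟨a, a', h1, h2, h3⟩ := hE2 g v hv
    exact ⟨a', a, h2, h1, h3⟩
  have mem : ∀ x : MonoidAlgebra L Γ, pull H.inj (P x).1 ∈ U Γ L S0 := by
    intro x
    obtain ⟨-, h2, Q, hQ, h3⟩ := (P x).2
    refine ⟨fun g y' y h => ?_, fun h' => ?_, Q, hQ, fun g y' y => ?_⟩
    · rw [cf_pull] at h
      obtain ⟨w, v, h4, h5, h6⟩ := key x g _ _ h
      rw [H.inj h4, H.inj h5] at h6
      exact h6
    · obtain ⟨h, hh⟩ := h2 h'
      refine ⟨h, fun g y' y h4 => ?_⟩
      rw [cf_pull] at h4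
      exact (cmp_iff H h h' g y' y).1 (hh g _ _ h4)
    · rw [cf_pull]
      exact h3 g _ _
  have back : ∀ x : MonoidAlgebra L Γ, inI H ⟨pull H.inj (P x).1, mem x⟩ = P x := by
    intro x
    refine Subtype.ext (cf_ext fun g y' y => ?_)
    rw [inI_val]
    by_cases h0 : cf (P x).1 g y' y = 0
    · rw [h0]
      by_contra h1
      obtain ⟨w, v, rfl, rfl, h2⟩ := cf_push_ne H.inj h1
      rw [cf_pull] at h2
      exact h2 h0
    · obtain ⟨w, v, rfl, rfl, -⟩ := key x g y' y h0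
      rw [cf_push, cf_pull]
  -- the matrices over `U Γ L S0`
  obtain ⟨F, hF⟩ : ∃ F : Matrix n n (MonoidAlgebra L Γ) → Matrix n n (U Γ L S0),
      ∀ M, Ex (inI H) (F M) = Ex P M := by
    refine ⟨fun M => 1 + Matrix.of fun p q => ⟨pull H.inj (P ((M - 1) p q)).1, mem _⟩,
      fun M => ?_⟩
    rw [Ex, Ex, add_sub_cancel_left]
    congr 1
    ext1 p q
    exact back _
  obtain ⟨A', h1, h2⟩ := isUnit_iff_exists.1 hA
  have inv : ∀ a c : Matrix n n (MonoidAlgebra L Γ), a * c = 1 → F a * F c = 1 := by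
    intro a c h
    refine ex_inj (inI_inj H) ?_
    rw [ex_mul, hF, hF, ← ex_mul, h, ex_one, ex_one]
  rw [← hF A]
  exact hI (inI H) (inI_val H) n (F A) (isUnit_iff_exists.2 ⟨F A', inv _ _ h1, inv _ _ h2⟩)

end Pool.Agent.GLC
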