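import Pool.Agent.Lib.MP_8f66f0_al_GLC.SsA
import Pool.Agent.Lib.MP_8f66f0_al_HierZ.All

/-!
# Project GLn, part C: `SS Γ` from the complex of the cells, the resolution
-/

set_option autoImplicit false

namespace Pool.Agent.GLC

open Pool.Agent.Hier

namespace SsC

section

variable {X Γ : Type} [Group Γ] [MulAction Γ X]

/-- The action of the group on a stable group of chains. -/
@[reducible] noncomputable def act (P : AddSubgroup (X →₀ ℤ))
    (h : ∀ (g : Γ) v, v ∈ P → perm g v ∈ P) : DistribMulAction Γ P where
  smul g v := ⟨perm g v.1, h g v.1 v.2⟩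
  one_smul v := by
    refine Subtype.ext ?_
    change perm (1 : Γ) v.1 = v.1
    rw [perm_one]; rfl
  mul_smul g g' v := by
    refine Subtype.ext ?_
    change perm (g * g') v.1 = perm g (perm g' v.1)
    rw [perm_mul]; rfl
  smul_zero g := Subtype.ext (map_zero (perm g))
  smul_add g v w := Subtype.ext (map_add (perm g) v.1 w.1)

theorem perm_Ch {dim : X → ℕ} (hd : ∀ (g : Γ) x, dim (g • x) = dim x) (i : ℕ) (g : Γ)
    (v : X →₀ ℤ) (hv : v ∈ Ch dim i) : perm g v ∈ Ch dim i := perm_mem hd g hv

theorem perm_Cy {dim : X → ℕ} {d : Module.End ℤ (X →₀ ℤ)}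
    (hd : ∀ (g : Γ) x, dim (g • x) = dim x) (hc : ∀ g : Γ, perm g * d = d * perm g) (i : ℕ)
    (g : Γ) (v : X →₀ ℤ) (hv : v ∈ Cy dim d i) : perm g v ∈ Cy dim d i := by
  refine ⟨perm_mem hd g hv.1, ?_⟩
  have h := congrArg (fun f => f v) (hc g)
  simp only [Module.End.mul_apply] at h
  rw [← h, hv.2, map_zero]

/-- The basis of the chain group. -/
noncomputable def bas (dim : X → ℕ) (i : ℕ) :
    Module.Basis {x : X // dim x = i} ℤ (Ch dim i) where
  repr :=
    { toFun := fun v => v.1.subtypeDomain fun x => dim x = i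
      map_add' := fun v w => Finsupp.subtypeDomain_add
      map_smul' := fun n v => by
        refine Finsupp.ext fun x => ?_
        simp [Finsupp.subtypeDomain_apply]
      invFun := fun u => ⟨u.embDomain (Function.Embedding.subtype _), by
        intro x hx
        by_contra hne
        refine hx ?_
        rw [Finsupp.embDomain_notin_range]
        rintro ⟨y, rfl⟩
        exact hne y.2⟩
      left_inv := by
        intro v
        refine Subtype.ext (Finsupp.ext fun x => ?_)
        by_cases hx : dim x = i
        · have := Finsupp.embDomain_apply_self (Function.Embedding.subtype fun x => dim x = i)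
            (v.1.subtypeDomain fun x => dim x = i) ⟨x, hx⟩
          simpa using this
        · have h0 : v.1 x = 0 := by
            by_contra h
            exact hx (v.2 x h)
          change (Finsupp.embDomain _ _) x = v.1 x
          rw [h0, Finsupp.embDomain_notin_range]
          rintro ⟨y, rfl⟩
          exact hx y.2
      right_inv := by
        intro u
        refine Finsupp.ext fun x => ?_
        exact Finsupp.embDomain_apply_self (Function.Embedding.subtype fun x => dim x = i) u x }

theorem bas_apply (dim : X → ℕ) (i : ℕ) (x : {x : X // dim x = i}) :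
    (bas dim i x).1 = Finsupp.single x.1 1 := by
  change Finsupp.embDomain _ (Finsupp.single x 1) = _
  rw [Finsupp.embDomain_single]; rfl

/-- The action on the cells with `i` members. -/
@[reducible] def actX {dim : X → ℕ} (hd : ∀ (g : Γ) x, dim (g • x) = dim x) (i : ℕ) :
    MulAction Γ {x : X // dim x = i} where
  smul g x := ⟨g • x.1, by rw [hd, x.2]⟩
  one_smul x := Subtype.ext (one_smul Γ x.1)
  mul_smul g h x := Subtype.ext (mul_smul g h x.1)

theorem stab_eq {dim : X → ℕ} (hd : ∀ (g : Γ) x, dim (g • x) = dim x) (i : ℕ)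
    (x : {x : X // dim x = i}) :
    @MulAction.stabilizer Γ _ _ (actX hd i) x = MulAction.stabilizer Γ x.1 := by
  letI := actX hd i
  refine Subgroup.ext fun g => ?_
  rw [MulAction.mem_stabilizer_iff, MulAction.mem_stabilizer_iff]
  exact Subtype.ext_iff

theorem perm_Ch_isPerm {dim : X → ℕ} (hd : ∀ (g : Γ) x, dim (g • x) = dim x) (i : ℕ)
    (hs : ∀ x : X, dim x = i → SS (MulAction.stabilizer Γ x)) :
    @IsPermP Γ (Ch dim i) _ _ (act _ (perm_Ch hd i)) fun C => SS C := by
  letI := act _ (perm_Ch hd i)
  letI := actX hd i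
  refine ⟨{x : X // dim x = i}, inferInstance, bas dim i, fun g x => ?_, fun x => ?_⟩
  · refine Subtype.ext ?_
    change (bas dim i (g • x)).1 = perm g (bas dim i x).1
    rw [bas_apply, bas_apply, perm_single]; rfl
  · change SS (MulAction.stabilizer Γ x)
    rw [stab_eq hd i x]
    exact hs x.1 x.2

/-- The resolution of the cycles. -/
theorem exp_cy {dim : X → ℕ} {d p : Module.End ℤ (X →₀ ℤ)} {N : ℕ}
    (hd : ∀ (g : Γ) x, dim (g • x) = dim x) (hN : ∀ x, dim x ≤ N)
    (hc : ∀ g : Γ, perm g * d = d * perm g)
    (hdd : ∀ x y, (d (Finsupp.single x 1)) y ≠ 0 → dim y + 1 = dim x) (hd2 : d * d = 0)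
    (hp : ∀ x y, (p (Finsupp.single x 1)) y ≠ 0 → dim y = dim x + 1) (h1 : d * p + p * d = 1)
    (hs : ∀ x : X, dim x ≠ 0 → SS (MulAction.stabilizer Γ x)) :
    ∀ n i, i + n = N →
      @ExP Γ _ (fun C => SS C) n (Cy dim d i) _ (act _ (perm_Cy hd hc i)) := by
  have hcy : ∀ i v, v ∈ Cy dim d i → p v ∈ Ch dim (i + 1) ∧ d (p v) = v := by
    intro i v hv
    refine ⟨op_mem (fun x y hx hy => by rw [hp x y hy, hx]) hv.1, ?_⟩
    have h := congrArg (fun f => f v) h1
    simp only [LinearMap.add_apply, Module.End.mul_apply, Module.End.one_apply] at h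
    rwa [hv.2, map_zero, add_zero] at h
  intro n
  induction n with
  | zero =>
    intro i hi
    letI := act (Γ := Γ) _ (perm_Cy hd hc i)
    have hz : ∀ v : Cy dim d i, v = 0 := by
      intro v
      obtain ⟨h2, h3⟩ := hcy i v.1 v.2
      have h4 : p v.1 = 0 := by
        refine Finsupp.ext fun x => ?_
        by_contra hx
        have := h2 x hx
        have := hN x
        omega
      refine Subtype.ext ?_
      rw [← h3, h4, map_zero]; rfl
    haveI : Subsingleton (Cy dim d i) := ⟨fun v w => by rw [hz v, hz w]⟩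
    exact ⟨PEmpty, { smul := fun _ x => x, one_smul := fun x => x.elim, mul_smul := fun _ _ x => x.elim },
      Module.Basis.empty _, fun _ x => x.elim, fun x => x.elim⟩
  | succ n ih =>
    intro i hi
    letI := act (Γ := Γ) _ (perm_Cy hd hc i)
    letI a1 := act (Γ := Γ) _ (perm_Ch hd (i + 1))
    letI a2 := act (Γ := Γ) _ (perm_Cy hd hc (i + 1))
    refine ⟨Ch dim (i + 1), Cy dim d (i + 1), inferInstance, a1, inferInstance, a2,
      { toFun := fun v => ⟨v.1, v.2.1⟩
        map_smul' := fun _ _ => rfl
        map_zero' := rfl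
        map_add' := fun _ _ => rfl },
      { toFun := fun v => ⟨d v.1, op_mem (fun x y hx hy => by
            have := hdd x y hy
            omega) v.2, by
            change (d * d) v.1 = 0
            rw [hd2]; rfl⟩
        map_smul' := fun g v => by
          refine Subtype.ext ?_
          have h := congrArg (fun f => f v.1) (hc g)
          simp only [Module.End.mul_apply] at h
          exact h.symm
        map_zero' := Subtype.ext (map_zero d)
        map_add' := fun v w => Subtype.ext (map_add d v.1 w.1) }, ?_, ?_, ?_, ?_, ?_⟩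
    · intro v w h
      exact Subtype.ext (congrArg (fun u : Ch dim (i + 1) => u.1) h)
    · intro v
      constructor
      · intro h
        exact ⟨⟨v.1, v.2, congrArg (fun u : Cy dim d i => u.1) h⟩, rfl⟩
      · rintro ⟨w, rfl⟩
        exact Subtype.ext w.2.2
    · intro v
      obtain ⟨h2, h3⟩ := hcy i v.1 v.2
      exact ⟨⟨p v.1, h2⟩, Subtype.ext h3⟩
    · exact perm_Ch_isPerm hd (i + 1) fun x hx => hs x (by omega)
    · exact ih (i + 1) (by omega)

end

end SsC

open SsC in
theorem ssB : S_ssB := by
  intro X Γ _ _ dim N emp d p hd hN he hc hdd hd2 hp h1 hs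
  have he0 : dim emp = 0 := (he emp).mpr rfl
  have hde : d (Finsupp.single emp 1) = 0 := by
    refine Finsupp.ext fun y => ?_
    by_contra h
    have := hdd emp y h
    omega
  have hdp : d (p (Finsupp.single emp 1)) = Finsupp.single emp 1 := by
    have h := congrArg (fun f => f (Finsupp.single emp 1)) h1
    simp only [LinearMap.add_apply, Module.End.mul_apply, Module.End.one_apply] at h
    rwa [hde, map_zero, add_zero] at h
  have hN0 : N ≠ 0 := by
    intro h0
    have h4 : p (Finsupp.single emp 1) = 0 := by
      refine Finsupp.ext fun x => ?_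
      by_contra hx
      have := hp emp x hx
      have := hN x
      omega
    rw [h4, map_zero] at hdp
    have := congrArg (fun f : X →₀ ℤ => f emp) hdp
    simp at this
  obtain ⟨n, rfl⟩ := Nat.exists_eq_succ_of_ne_zero hN0
  have hs' : ∀ x : X, dim x ≠ 0 → SS (MulAction.stabilizer Γ x) := fun x hx =>
    hs x fun h => hx ((he x).mpr h)
  have hge : ∀ g : Γ, g • emp = emp := fun g => (he _).mp (by rw [hd, he0])
  refine ss_exp (fun C => SS C) (fun C h => h) (n + 1) ?_
  letI a1 := act (Γ := Γ) _ (perm_Ch hd 1)
  letI a2 := act (Γ := Γ) _ (perm_Cy hd hc 1)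
  have hCh0 : ∀ v, v ∈ Ch dim 0 → v = Finsupp.single emp (v emp) := by
    intro v hv
    refine Finsupp.ext fun x => ?_
    by_cases hx : x = emp
    · rw [hx, Finsupp.single_eq_same]
    · rw [Finsupp.single_eq_of_ne hx]
      by_contra h
      exact hx ((he x).mp (hv x h))
  have hd1 : ∀ v, v ∈ Ch dim 1 → d v ∈ Ch dim 0 := fun v hv =>
    op_mem (fun x y hx hy => by
      have := hdd x y hy
      omega) hv
  refine ⟨Ch dim 1, Cy dim d 1, inferInstance, a1, inferInstance, a2,
    { toFun := fun v => ⟨v.1, v.2.1⟩
      map_smul' := fun _ _ => rfl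
      map_zero' := rfl
      map_add' := fun _ _ => rfl },
    { toFun := fun v => (d v.1) emp
      map_smul' := fun g v => by
        have h := congrArg (fun f => f v.1) (hc g)
        simp only [Module.End.mul_apply] at h
        change (d (perm g v.1)) emp = (d v.1) emp
        rw [← h, perm_apply', hge]
      map_zero' := by
        change (d 0) emp = 0
        rw [map_zero]; rfl
      map_add' := fun v w => by
        change (d (v.1 + w.1)) emp = (d v.1) emp + (d w.1) emp
        rw [map_add]; rfl }, ?_, ?_, ?_, ?_, ?_⟩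
  · intro v w h
    exact Subtype.ext (congrArg (fun u : Ch dim 1 => u.1) h)
  · intro v
    constructor
    · intro h
      have h5 : (d v.1) emp = 0 := h
      have h6 := hCh0 _ (hd1 _ v.2)
      rw [h5, Finsupp.single_zero] at h6
      exact ⟨⟨v.1, v.2, h6⟩, rfl⟩
    · rintro ⟨w, rfl⟩
      have h6 : d w.1 = 0 := w.2.2
      change (d w.1) emp = 0
      rw [h6]; rfl
  · intro (m : ℤ)
    have hm : p (Finsupp.single emp m) ∈ Ch dim 1 :=
      op_mem (i := 0) (fun x y hx hy => by rw [hp x y hy, hx]) (by
        have := single_mem (dim := dim) (x := emp) (n := m)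
        rwa [he0] at this)
    refine ⟨⟨p (Finsupp.single emp m), hm⟩, ?_⟩
    change (d (p (Finsupp.single emp m))) emp = m
    have h7 : (Finsupp.single emp m : X →₀ ℤ) = m • Finsupp.single emp 1 := by
      rw [Finsupp.smul_single, smul_eq_mul, mul_one]
    rw [h7, map_zsmul, map_zsmul, hdp, ← h7, Finsupp.single_eq_same]
  · exact perm_Ch_isPerm hd 1 fun x hx => hs' x (by omega)
  · exact exp_cy hd hN hc hdd hd2 hp h1 hs' n 1 (by omega)

end Pool.Agent.GLC
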