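import Pool.Agent.Lib.MP_8f66f0_al_GLC.All
import Pool.Agent.Lib.MP_8f66f0_al_GLC.Fam
import Pool.Agent.Lib.MP_8f66f0_al_GLC.HFam
import Pool.Agent.Lib.MP_8f66f0_al_GLC.CjF
import Pool.Agent.Lib.MP_8f66f0_al_GLC.KillE
import Pool.Agent.Lib.MP_8f66f0_al_GLC.EmpP
import Pool.Agent.Lib.MP_8f66f0_al_GLC.A3
import Pool.Agent.Lib.MP_8f66f0_al_GLC.Bd
import Pool.Agent.Lib.MP_8f66f0_al_GLC.InwR
import Pool.Agent.Lib.MP_8f66f0_al_GLC.SsB
import Pool.Agent.Lib.MP_8f66f0_al_GLC.Htd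

/-!
# Project GLn: the theorem from the outputs of the parts B and D
-/

set_option autoImplicit false

namespace Pool.Agent.GLC

open Pool.Agent.TreeC

/-- The theorem for `ShL`, from the outputs of the parts B and D. -/
theorem shp_of (hBB : BB.S_BB) (hbc : FL.S_bc) (hM : FL.S_M2K) (hE : FL.S_E) (hhom : FL.S_hom)
    (he0 : FL.S_end0) : BN.S_SHP KS :=
  shp hbc fam hfam cjF killE empP disP hM hE hhom he0 a3 bd inwr ssB over_ (htd hBB)

end Pool.Agent.GLC
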