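import Pool.Agent.Lib.MP_8f66f0_al_GLC.SpecEnd

/-!
# Project GLn, part C: the end, `K₁` of the group
-/

set_option autoImplicit false

namespace Pool.Agent.GLC

open Pool.Agent.FL Pool.Agent.Wald Pool.Agent.Ind Pool.Agent.WaldL Pool.Agent.FH Matrix
open Pool.Agent.CC (Ex)
open scoped Polynomial

section

variable {R S : Type} [Ring R] [Ring S] (ε : S →ₙ+* R) {n : Type} [Fintype n] [DecidableEq n]

theorem kkB_ex_mul (r s : Matrix n n S) : Ex ε (r * s) = Ex ε r * Ex ε s := by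
  have h : r * s - 1 = (r - 1) + (s - 1) + (r - 1) * (s - 1) := by
    rw [Matrix.sub_mul, Matrix.mul_sub, Matrix.mul_one, Matrix.one_mul]
    abel
  have h1 : ∀ a b : Matrix n n S, (a + b).map ε = a.map ε + b.map ε := fun a b => by
    ext i j
    exact map_add ε _ _
  have h2 : ∀ a b : Matrix n n S, (a * b).map ε = a.map ε * b.map ε := fun a b => by
    ext i j
    rw [Matrix.map_apply, Matrix.mul_apply, Matrix.mul_apply, map_sum]
    refine Finset.sum_congr rfl fun k _ => ?_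
    rw [map_mul, Matrix.map_apply, Matrix.map_apply]
  rw [Ex, Ex, Ex, h, h1, h1, h2]
  simp only [Matrix.add_mul, Matrix.mul_add, Matrix.mul_one, Matrix.one_mul]
  abel

theorem kkB_ex_one : Ex ε (1 : Matrix n n S) = 1 := by
  have h0 : (0 : Matrix n n S).map ε = 0 := by
    ext i j
    exact map_zero ε
  rw [Ex, sub_self, h0, add_zero]

theorem kkB_ex_unit {A : Matrix n n S} (hA : IsUnit A) : IsUnit (Ex ε A) := by
  obtain ⟨A', h1, h2⟩ := isUnit_iff_exists.1 hA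
  exact isUnit_iff_exists.2 ⟨Ex ε A', by rw [← kkB_ex_mul, h1, kkB_ex_one],
    by rw [← kkB_ex_mul, h2, kkB_ex_one]⟩

/-- `Ex` and ring homomorphisms. -/
theorem kkB_ex_map {R' : Type} [Ring R'] (F : R →+* R') (ε' : S →ₙ+* R')
    (h : ∀ x, F (ε x) = ε' x) (A : Matrix n n S) : (Ex ε A).map F = Ex ε' A := by
  ext i j
  change F ((1 : Matrix n n R) i j + ε ((A - 1) i j)) = (1 : Matrix n n R') i j + ε' ((A - 1) i j)
  rw [map_add, h, Matrix.one_apply, Matrix.one_apply, apply_ite F, map_one, map_zero]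

end

section

variable {X β Y B C Γ L k k' : Type} [Group Γ] [MulAction Γ X] [MulAction Γ β] [PartialOrder B]
  [MulAction Γ B] [OrdAct Γ B] [PartialOrder C] [MulAction Γ C] [OrdAct Γ C] [CommRing L]
  [CommRing k] [CommRing k']

/-- The family determines the homomorphism. -/
theorem isPf_ext {S : FSys Y B C} {ι : X → Y} {φ : L →+* k} {Φ : Γ → CF X k}
    {P P' : MonoidAlgebra L Γ →ₙ+* U Γ k S} (h : IsPf S ι φ Φ P) (h' : IsPf S ι φ Φ P')
    (x : MonoidAlgebra L Γ) : P x = P' x := by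
  refine Subtype.ext (cf_ext fun g y' y => ?_)
  by_cases h1 : cf (P x).1 g y' y = 0
  · by_cases h2 : cf (P' x).1 g y' y = 0
    · rw [h1, h2]
    · obtain ⟨w, v, rfl, rfl⟩ := h'.2 x g y' y h2
      rw [h.1, h'.1]
  · obtain ⟨w, v, rfl, rfl⟩ := h.2 x g y' y h1
    rw [h.1, h'.1]

/-- Change of the coefficients. -/
theorem isPf_bc {S : FSys Y B C} {ι : X → Y} {φ : L →+* k} {Φ : Γ → CF X k} {Φ' : Γ → CF X k'}
    {P : MonoidAlgebra L Γ →ₙ+* U Γ k S} {P' : MonoidAlgebra L Γ →ₙ+* U Γ k' S} {θ : k →+* k'}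
    {F : U Γ k S →+* U Γ k' S} (hF : IsBc S θ F) (h : IsPf S ι φ Φ P)
    (h' : IsPf S ι (θ.comp φ) Φ' P') (hΦ : ∀ g w v, ent (Φ' g) w v = θ (ent (Φ g) w v))
    (x : MonoidAlgebra L Γ) : F (P x) = P' x := by
  refine Subtype.ext (cf_ext fun g y' y => ?_)
  rw [hF]
  by_cases h1 : cf (P x).1 g y' y = 0
  · rw [h1, map_zero]
    by_cases h2 : cf (P' x).1 g y' y = 0
    · rw [h2]
    · obtain ⟨w, v, rfl, rfl⟩ := h'.2 x g y' y h2
      rw [h'.1, hΦ, RingHom.comp_apply, ← map_mul, ← h.1, h1, map_zero]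
  · obtain ⟨w, v, rfl, rfl⟩ := h.2 x g y' y h1
    rw [h.1, h'.1, hΦ, RingHom.comp_apply, map_mul]

end

/-- THE END. `K₁` of the group. -/
theorem kkB (hbc : S_bc) (hfam : S_fam) (hh : S_hfam) (hcj : S_cjF) (hkill : S_killE)
    (hemp : S_empP) (hdis : S_disP) : S_kkB := by
  classical
  intro X β Y0 Y B0 B C Γ _ _ _ _ _ _ _ _ _ _ _ _ _ i S0 S H ι E emp d p G hreal hD L _ _ hL K _
    κ hκ n _ _ A hA
  obtain ⟨b⟩ := ‹Nonempty β›
  obtain ⟨κU, hU, hhom, hend⟩ := hD L hL K κ hκ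
  obtain ⟨F0, hF0⟩ := hbc Y B C Γ L[X] L S (Polynomial.evalRingHom 0)
  obtain ⟨F1, hF1⟩ := hbc Y B C Γ L[X] L S (Polynomial.evalRingHom 1)
  obtain ⟨hX, -⟩ := hh X β Y B C Γ L L[X] Polynomial.C S ι E emp d p b G
  obtain ⟨⟨P1, hP1⟩, ⟨P2, hP2⟩⟩ := hX Polynomial.X
  obtain ⟨hL1, hLE⟩ := hh X β Y B C Γ L L (RingHom.id L) S ι E emp d p b G
  obtain ⟨⟨Q1, hQ1⟩, ⟨Q2, hQ2⟩⟩ := hL1 1
  obtain ⟨⟨R1, hR1⟩, ⟨R2, hR2⟩⟩ := hL1 0
  have hEc : ∀ (g : Γ) x, x ∈ Eᶜ ↔ g • x ∈ Eᶜ := fun g x => not_congr (G.E_eq g x)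
  have hE1 : ∀ (g : Γ) x, x ∈ ({emp} : Set X) ↔ g • x ∈ ({emp} : Set X) := fun g x => by
    rw [Set.mem_singleton_iff, Set.mem_singleton_iff]
    constructor
    · rintro rfl
      exact G.emp_eq g
    · intro h
      have := congrArg (g⁻¹ • ·) h
      simp only [inv_smul_smul, G.emp_eq] at this
      exact this
  have hE2 : ∀ (g : Γ) x, x ∈ Eᶜ \ {emp} ↔ g • x ∈ Eᶜ \ {emp} := fun g x =>
    and_congr (hEc g x) (not_congr (hE1 g x))
  obtain ⟨PE, hPE⟩ := hLE E G.E_eq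
  obtain ⟨PO, hPO⟩ := hLE Eᶜ hEc
  obtain ⟨Pe, hPe⟩ := hLE {emp} hE1
  obtain ⟨Pp, hPp⟩ := hLE (Eᶜ \ {emp}) hE2
  obtain ⟨f1, f2, f3, -, f5, f6, f7⟩ := hfam X β Y B C Γ L S ι E emp d p b G
  obtain ⟨-, -, -, e4, -⟩ := hfam X β Y B C Γ L[X] S ι E emp d p b G
  have hid : ∀ c : L, (Polynomial.evalRingHom c).comp Polynomial.C = RingHom.id L := fun c =>
    RingHom.ext fun x => by simp
  have hv : ∀ c : L, (Polynomial.evalRingHom c) (Polynomial.X : L[X]) = c := fun c => by simp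
  -- values of `P1`, `P2` at `0` and `1`
  have v10 : ∀ x, F0 (P1 x) = R1 x := isPf_bc hF0 hP1 (by rw [hid]; exact hR1) fun g w v => by
    rw [← (e4 L (Polynomial.evalRingHom 0) Polynomial.X g w v).1, hv]
  have v20 : ∀ x, F0 (P2 x) = R1 x := isPf_bc hF0 hP2 (by rw [hid]; exact hR1) fun g w v => by
    rw [← (e4 L (Polynomial.evalRingHom 0) Polynomial.X g w v).2, hv, f3]
  have v11 : ∀ x, F1 (P1 x) = Q1 x := isPf_bc hF1 hP1 (by rw [hid]; exact hQ1) fun g w v => by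
    rw [← (e4 L (Polynomial.evalRingHom 1) Polynomial.X g w v).1, hv]
  have v21 : ∀ x, F1 (P2 x) = PE x := isPf_bc hF1 hP2 (by rw [hid]; exact hPE) fun g w v => by
    rw [← (e4 L (Polynomial.evalRingHom 1) Polynomial.X g w v).2, hv, f2]
  have u1 := kkB_ex_unit P1 hA
  have u2 := kkB_ex_unit P2 hA
  have h1 := hhom F0 F1 hF0 hF1 n (Ex P1 A) u1
  have h2 := hhom F0 F1 hF0 hF1 n (Ex P2 A) u2
  rw [kkB_ex_map P1 F0 R1 v10, kkB_ex_map P1 F1 Q1 v11] at h1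
  rw [kkB_ex_map P2 F0 R1 v20, kkB_ex_map P2 F1 PE v21] at h2
  -- the ends
  have hne : ∀ x ∈ E, x ≠ emp := fun x hx h => G.emp_E (h ▸ hx)
  have e1 : κU.f (Ex PE A) = 1 := hkill X Y0 Y B0 B C Γ L K i S0 S H ι G.inj E PE κU G.E_eq
    (fun g v hv => hreal g v (hne v hv)) hPE hend n A hA
  have e2 : κU.f (Ex Pp A) = 1 := hkill X Y0 Y B0 B C Γ L K i S0 S H ι G.inj (Eᶜ \ {emp}) Pp κU
    hE2 (fun g v hv => hreal g v hv.2) hPp hend n A hA
  have e3 : κU.f (Ex Q1 A) = κU.f (Ex PO A) := hcj X Y B C Γ L K S ι G.inj (cfl X L (d + p b))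
    (Ph1 d p E b 1) (PhE L Eᶜ) Q1 PO κU G.triv f5 f6 f7 f1 hQ1 hPO n A hA
  have hu : Eᶜ \ {emp} ∪ {emp} = Eᶜ := by
    rw [Set.sdiff_union_self, Set.union_eq_left, Set.singleton_subset_iff]
    exact G.emp_E
  have e5 : κU.f (Ex PO A) = κU.f (Ex Pp A) * κU.f (Ex Pe A) := hdis X Y B C Γ L K S ι G.inj
    (Eᶜ \ {emp}) {emp} PO Pp Pe κU Set.disjoint_sdiff_left hE2 hE1 (by rw [hu]; exact hPO) hPp hPe
    n A hA
  have e6 : κU.f (Ex Pe A) = κ.f A := hemp X Y B C Γ L K S ι G.inj emp Pe κ κU G.emp_eq hPe hU n A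
    hA
  rw [e2, one_mul] at e5
  exact e6.symm.trans (e5.symm.trans (e3.symm.trans (h1.symm.trans (h2.trans e1))))

end Pool.Agent.GLC
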