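import Pool.Agent.Lib.MP_8f66f0_al_GLC.DOut
import Pool.Agent.Lib.MP_8f66f0_al_GLC.KkB
import Pool.Agent.Lib.MP_8f66f0_al_BN.Shl

/-!
# Project GLn: the assembly
-/

set_option autoImplicit false

namespace Pool.Agent.GLC

open Pool.Agent.FL Pool.Agent.GLA Pool.Agent.Wald Pool.Agent.Ind Pool.Agent.WaldL Pool.Agent.FH
  Pool.Agent.TreeC Pool.Agent.Hier Matrix
open scoped Polynomial

section

variable {Γ M : Type} [Group Γ] [ShL M] [ShAct Γ M]

theorem perm_single {X : Type} [MulAction Γ X] (g : Γ) (x : X) :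
    perm g (Finsupp.single x (1 : ℤ)) = Finsupp.single (g • x) 1 := by
  unfold perm
  rw [Finsupp.lmapDomain_apply, Finsupp.mapDomain_single]

end

/-- The geometric data. -/
theorem geo (h3 : S_A3) (hb : S_bd) (hi : S_inwr) : S_geo := by
  intro M Γ _ _ _ X hX
  obtain ⟨p, hp, he, hs⟩ := h3 M
  obtain ⟨b1, -, b3, b4⟩ := hb M
  obtain ⟨c1, c2, c3, -⟩ := b4 Γ
  obtain ⟨i1, i2⟩ := hi M Γ X hX
  have hodd : ∀ σ τ : Cell M, (dm τ + 1 = dm σ ∨ dm τ = dm σ + 1) →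
      (τ ∈ {σ : Cell M | Odd (dm σ)} ↔ σ ∉ {σ : Cell M | Odd (dm σ)}) := by
    intro σ τ h
    change Odd (dm τ) ↔ ¬ Odd (dm σ)
    rw [Nat.not_odd_iff_even]
    rcases h with h | h
    · rw [← h, Nat.even_add_one, Nat.not_even_iff_odd]
    · rw [h, Nat.odd_add_one, Nat.not_odd_iff_even]
  refine ⟨p, ?_⟩
  exact
    { inj := real_inj hX
      triv := fun _ _ _ => le_refl _
      ct := hp
      d_eq := c3
      p_eq := fun g c => he Γ g c
      E_eq := fun g σ => by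
        change Odd (dm σ) ↔ Odd (dm (g • σ))
        rw [c1]
      E_d := fun τ σ h => hodd σ τ (Or.inl (b3 σ τ h).2)
      E_p := fun c τ σ h => hodd σ τ (Or.inr (hs c σ τ h).2)
      emp_eq := c2
      emp_E := by
        change ¬ Odd (dm (emp M))
        rw [(b1 (emp M)).2 rfl]
        decide
      inw_d := by
        rcases isEmpty_or_nonempty M with h | ⟨⟨c⟩⟩
        · intro h'
          refine ⟨h', fun w v hne => ?_⟩
          have : w = v := Cell.ext (Set.ext fun a => h.elim a)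
          rw [this]
          exact Cmp.refl _ _ _
        · exact i1 c _ fun σ τ h => (b3 σ τ h).1.trans (subset_hull _ _)
      inw_p := fun c => i1 c _ fun σ τ h => (hs c σ τ h).1
      inw_g := i2 }

/-- `SS` of the group. -/
theorem ssM (h3 : S_A3) (hb : S_bd) (hss : S_ssB) : S_ssM := by
  intro M Γ _ _ _ _ hΔ
  obtain ⟨p, hp, he, hs⟩ := h3 M
  obtain ⟨b1, b2, b3, b4⟩ := hb M
  obtain ⟨c1, c2, c3, c4⟩ := b4 Γ
  obtain ⟨c⟩ := ‹Nonempty M›
  refine hss (Cell M) Γ dm (per M) (emp M) bdry (p c) c1 b2 b1 c3 (fun x y h => (b3 x y h).2)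
    (hp c).dd (fun x y h => (hs c x y h).2) (hp c).dp fun σ hσ => ?_
  obtain ⟨a, ha⟩ := c4 σ hσ
  exact hΔ _ ⟨a, fun g hg => ha g (MulAction.mem_stabilizer_iff.1 hg)⟩

/-- The theorem for `ShL`. -/
theorem shp (hbc : FL.S_bc) (hfam : S_fam) (hh : S_hfam) (hcj : S_cjF) (hkill : S_killE)
    (hemp : S_empP) (hdis : S_disP) (hM : FL.S_M2K) (hE : FL.S_E) (hhom : FL.S_hom) (he0 : FL.S_end0)
    (h3 : S_A3) (hb : S_bd) (hi : S_inwr) (hss : S_ssB) (hov : S_over) (hT : S_HTD) :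
    BN.S_SHP KS := by
  intro M _ _ _ Γ _ _ _ hΔ
  obtain ⟨X, hX1, hX2, hX3, hX4⟩ := exists_exh (M := M)
  have hX : Exh X := ⟨hX1, hX2, hX3, hX4⟩
  have hS : SS Γ := ssM h3 hb hss M Γ fun Δ hd => (hΔ Δ hd).2
  obtain ⟨t1, t2⟩ := hT M Γ X hX hΔ
  have hN : Bdd (Sp hX) (per M * (1 + per M)) := fun y => A_ph_le hX _ y
  have hD := dO hM hE hhom he0 _ _ _ _ _ Γ _ (S0p hX) (Sp hX) (hov M Γ X hX) _ hN hS t1
    fun L K _ _ _ κ hL hκ => t2 L K κ hL hκ
  obtain ⟨p, hG⟩ := geo h3 hb hi M Γ X hX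
  refine ⟨?_, hS⟩
  refine kkB hbc hfam hh hcj hkill hemp hdis (Cell M) M _ _ _ _ _ Γ _ (S0p hX) (Sp hX)
    (hov M Γ X hX) (real hX) _ (emp M) bdry p hG (fun g σ hσ => ?_) hD
  obtain ⟨-, -, -, b4⟩ := hb M
  have hgσ : g • σ ≠ emp M := fun h => hσ (by
    have := congrArg (g⁻¹ • ·) h
    simp only [inv_smul_smul] at this
    rw [this, (b4 Γ).2.1])
  exact ⟨⟨real hX σ, hσ⟩, ⟨real hX (g • σ), hgσ⟩, rfl, rfl, le_refl _⟩

end Pool.Agent.GLC
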