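import Pool.Agent.Lib.MP_8f66f0_al_GLC.AllC
import Pool.Agent.Lib.MP_8f66f0_al_BB.All
import Pool.Agent.Lib.MP_8f66f0_al_FL.All

/-!
# Project GLn: the theorem without hypotheses
-/

set_option autoImplicit false

namespace Pool.Agent.GLC

open Pool.Agent.TreeC

/-- `KS` passes from the stabilizers of the points to the group, for countable groups acting on
countable modular lattices with a shift. -/
theorem shp_ks : BN.S_SHP KS :=
  shp_of BB.sBB FL.pBc FL.pM2K FL.pE FL.pHom FL.pEnd0

end Pool.Agent.GLC
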