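import Pool.Agent.Lib.MP_8f66f0_al_GLA.Defs
import Pool.Agent.Lib.MP_8f66f0_al_FL.Defs

/-!
# PROJECT GLn, part C: basic facts on labels

The order of the labels as a partial order on the type `OLab M` (labels and one extra value), the
finiteness of the rank, normalised representatives modulo the shift.
-/

set_option autoImplicit false

namespace Pool.Agent.GLC

open Pool.Agent.GLA

section Shift

variable {M : Type} [ShL M]

variable (M) in
/-- The shift as a permutation. -/
def shE : Equiv.Perm M where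
  toFun := sh
  invFun := shi
  left_inv := ShL.shi_sh
  right_inv := ShL.sh_shi

theorem shE_apply (a : M) : shE M a = sh a := rfl

theorem ht_shE (k : ℤ) (a : M) : ht ((shE M ^ k) a) = ht a - k * per M := by
  induction k using Int.induction_on with
  | zero => simp
  | succ i ih =>
    rw [add_comm (i : ℤ) 1, zpow_add, Equiv.Perm.mul_apply, zpow_one, shE_apply, ShL.ht_sh, ih]
    ring
  | pred i ih =>
    have h1 : ht ((shE M ^ (-(i : ℤ) - 1)) a) - per M = ht ((shE M ^ (-(i : ℤ))) a) := by
      rw [← ShL.ht_sh, ← shE_apply, ← Equiv.Perm.mul_apply, ← zpow_one_add]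
      congr 3
      ring
    rw [ih] at h1
    linarith

theorem ShSt.zpow {s : Set M} (hs : ShSt s) (k : ℤ) (a : M) : (shE M ^ k) a ∈ s ↔ a ∈ s := by
  induction k using Int.induction_on with
  | zero => simp
  | succ i ih =>
    rw [add_comm (i : ℤ) 1, zpow_add, Equiv.Perm.mul_apply, zpow_one, shE_apply, hs, ih]
  | pred i ih =>
    rw [← ih, ← hs, ← shE_apply, ← Equiv.Perm.mul_apply, ← zpow_one_add]
    have : 1 + (-(i : ℤ) - 1) = -(i : ℤ) := by ring
    rw [this]

theorem IsLab.zpow {P : Set (M × M)} (hP : IsLab P) (k : ℤ) (p : M × M) :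
    ((shE M ^ k) p.1, (shE M ^ k) p.2) ∈ P ↔ p ∈ P := by
  induction k using Int.induction_on with
  | zero => simp
  | succ i ih =>
    rw [add_comm (i : ℤ) 1, zpow_add, Equiv.Perm.mul_apply, Equiv.Perm.mul_apply, zpow_one,
      shE_apply, shE_apply, ← ih]
    exact hP.st ((shE M ^ (i : ℤ)) p.1, (shE M ^ (i : ℤ)) p.2)
  | pred i ih =>
    rw [← ih, ← hP.st, ← shE_apply, ← shE_apply, ← Equiv.Perm.mul_apply,
      ← Equiv.Perm.mul_apply, ← zpow_one_add]
    have : 1 + (-(i : ℤ) - 1) = -(i : ℤ) := by ring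
    rw [this]

/-- Normalisation of the height. -/
theorem exists_norm (a : M) : ∃ k : ℤ, 0 ≤ ht ((shE M ^ k) a) ∧ ht ((shE M ^ k) a) < per M := by
  have hp : (0 : ℤ) < per M := by exact_mod_cast (ShL.per_pos (M := M))
  refine ⟨ht a / per M, ?_, ?_⟩
  · rw [ht_shE, mul_comm]
    have := Int.emod_nonneg (ht a) hp.ne'
    rw [Int.emod_def] at this
    exact this
  · rw [ht_shE, mul_comm]
    have := Int.emod_lt_of_pos (ht a) hp
    rw [Int.emod_def] at this
    exact this

/-- The part of a set of pairs which is counted in the rank. -/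
def nrm (P : Set (M × M)) : Set (M × M) := {p | p ∈ P ∧ 0 ≤ ht p.2 ∧ ht p.2 < per M}

theorem nrm_fin {P : Set (M × M)} (hP : IsLab P) : (nrm P).Finite := by
  have h1 : Set.InjOn (fun p : M × M => ht p.2) (nrm P) := by
    intro p hp q hq h
    by_contra hne
    rcases hP.ch p hp.1 q hq.1 hne with h2 | h2
    · have := ShL.ht_lt p.2 q.2 (lt_of_le_of_lt h2 (hP.lt q hq.1))
      simp only at h
      omega
    · have := ShL.ht_lt q.2 p.2 (lt_of_le_of_lt h2 (hP.lt p hp.1))
      simp only at h
      omega
  refine Set.Finite.of_finite_image ?_ h1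
  refine (Set.finite_Ico (0 : ℤ) (per M)).subset ?_
  rintro _ ⟨p, hp, rfl⟩
  exact hp.2

theorem nrm_ne {P : Set (M × M)} (hP : IsLab P) : (nrm P).Nonempty := by
  obtain ⟨p, hp⟩ := hP.ne
  obtain ⟨k, h1, h2⟩ := exists_norm p.2
  exact ⟨((shE M ^ k) p.1, (shE M ^ k) p.2), (IsLab.zpow hP k p).2 hp, h1, h2⟩

theorem rk_eq_sum {P : Set (M × M)} (hP : IsLab P) :
    GLA.rk P = ∑ p ∈ (nrm_fin hP).toFinset, (1 + ht p.2 - ht p.1).toNat := by
  exact finsum_mem_eq_finite_toFinset_sum (fun p : M × M => (1 + ht p.2 - ht p.1).toNat)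
    (nrm_fin hP)

theorem two_le_term {P : Set (M × M)} (hP : IsLab P) {p : M × M} (hp : p ∈ P) :
    2 ≤ (1 + ht p.2 - ht p.1).toNat := by
  have := ShL.ht_lt _ _ (hP.lt p hp)
  omega

theorem two_le_rk {P : Set (M × M)} (hP : IsLab P) : 2 ≤ GLA.rk P := by
  rw [rk_eq_sum hP]
  obtain ⟨p, hp⟩ := nrm_ne hP
  refine le_trans (two_le_term hP hp.1) ?_
  exact Finset.single_le_sum (f := fun p : M × M => (1 + ht p.2 - ht p.1).toNat)
    (fun _ _ => Nat.zero_le _) ((nrm_fin hP).mem_toFinset.2 hp)

theorem Lab.two_le_rk (P : Lab M) : 2 ≤ P.rk := GLC.two_le_rk P.2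

end Shift

section Order

variable {M : Type} [ShL M]

theorem up_refl {P : Set (M × M)} (hP : IsLab P) : Up P P := fun q hq =>
  ⟨q, hq, sup_eq_left.2 (hP.lt q hq).le, inf_eq_right.2 (hP.lt q hq).le⟩

theorem up_trans {P Q R : Set (M × M)} (h1 : Up P Q) (h2 : Up Q R) : Up P R := by
  intro r hr
  obtain ⟨q, hq, e1, e2⟩ := h2 r hr
  obtain ⟨p, hp, e3, e4⟩ := h1 q hq
  have a1 : q.1 ≤ r.1 := by rw [← e2]; exact inf_le_right
  have a2 : p.2 ≤ q.2 := by rw [← e3]; exact le_sup_left
  refine ⟨p, hp, ?_, ?_⟩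
  · rw [← sup_eq_right.2 a1, ← sup_assoc, e3, e1]
  · rw [← inf_eq_left.2 a2, inf_assoc, e2, e4]

theorem up_sub {P Q : Set (M × M)} (hP : IsLab P) (hQ : IsLab Q) (h1 : Up P Q) (h2 : Up Q P) :
    Q ⊆ P := by
  intro q hq
  obtain ⟨p, hp, e1, e2⟩ := h1 q hq
  obtain ⟨q', hq', e3, e4⟩ := h2 p hp
  have a1 : p.2 ≤ q.2 := by rw [← e1]; exact le_sup_left
  have a2 : q'.2 ≤ p.2 := by rw [← e3]; exact le_sup_left
  have a3 : p.1 ≤ q.1 := by rw [← e2]; exact inf_le_right
  by_cases hqq : q' = q
  · subst hqq
    have a4 : p.2 = q'.2 := le_antisymm a1 a2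
    have a5 : p.1 = q'.1 := by
      rw [← e2, a4]
      exact inf_eq_right.2 (hQ.lt _ hq).le
    have : p = q' := Prod.ext a5 a4
    exact this ▸ hp
  · exfalso
    rcases hQ.ch q' hq' q hq hqq with h | h
    · have a6 : p.2 ≤ q.1 := by
        rw [← e3]
        exact sup_le h a3
      rw [inf_eq_left.2 a6] at e2
      exact absurd (hP.lt p hp) (by rw [e2]; exact lt_irrefl _)
    · exact absurd (lt_of_lt_of_le (hQ.lt q' hq') (a2.trans (a1.trans h))) (lt_irrefl _)

theorem lab_le_refl (P : Lab M) : Lab.le P P := ⟨rfl, up_refl P.2⟩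

theorem lab_le_trans {P Q R : Lab M} (h1 : Lab.le P Q) (h2 : Lab.le Q R) : Lab.le P R :=
  ⟨h1.1.trans h2.1, up_trans h1.2 h2.2⟩

theorem lab_le_antisymm {P Q : Lab M} (h1 : Lab.le P Q) (h2 : Lab.le Q P) : P = Q :=
  Subtype.ext (Set.Subset.antisymm (up_sub Q.2 P.2 h2.2 h1.2) (up_sub P.2 Q.2 h1.2 h2.2))

variable (M) in
/-- Labels and one extra value. -/
def OLab : Type := Option (Lab M)

/-- The order. -/
def OLab.le : OLab M → OLab M → Prop
  | none, none => True
  | some P, some Q => Lab.le P Q
  | _, _ => False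

instance : PartialOrder (OLab M) where
  le := OLab.le
  le_refl a := by
    cases a with
    | none => trivial
    | some P => exact lab_le_refl P
  le_trans a b c h1 h2 := by
    cases a with
    | none =>
      cases b with
      | none => exact h2
      | some Q => exact absurd h1 id
    | some P =>
      cases b with
      | none => exact absurd h1 id
      | some Q =>
        cases c with
        | none => exact absurd h2 id
        | some R => exact lab_le_trans h1 h2
  le_antisymm a b h1 h2 := by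
    cases a with
    | none =>
      cases b with
      | none => rfl
      | some Q => exact absurd h1 id
    | some P =>
      cases b with
      | none => exact absurd h1 id
      | some Q => exact congrArg some (lab_le_antisymm h1 h2)

/-- The value of a label. -/
def OLab.of (P : Lab M) : OLab M := some P

theorem OLab.of_le_of {P Q : Lab M} : OLab.of P ≤ OLab.of Q ↔ Lab.le P Q := Iff.rfl

theorem OLab.of_inj {P Q : Lab M} (h : OLab.of P = OLab.of Q) : P = Q := Option.some.inj h

end Order

section Act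

variable {Γ M : Type} [Group Γ] [ShL M] [ShAct Γ M]

instance : MulAction Γ (OLab M) where
  smul g a := Option.map (g • ·) a
  one_smul a := by
    cases a with
    | none => rfl
    | some P => exact congrArg some (one_smul Γ P)
  mul_smul g h a := by
    cases a with
    | none => rfl
    | some P => exact congrArg some (mul_smul g h P)

theorem OLab.smul_of (g : Γ) (P : Lab M) : g • OLab.of P = OLab.of (g • P) := rfl

instance : FL.OrdAct Γ (OLab M) where
  smul_le g a b h := by
    cases a with
    | none =>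
      cases b with
      | none => exact h
      | some Q => exact absurd h id
    | some P =>
      cases b with
      | none => exact absurd h id
      | some Q => exact Lab.le_smul g h

end Act

end Pool.Agent.GLC
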