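import Pool.Agent.Lib.MP_8f66f0_al_FL.CF

/-!
# Project GLn, part C: linear maps as column finite matrices, the flat homotopies

`cfl X R T`: the column finite matrix over `R` of the `ℤ`-linear map `T`. `W1`, `W2`: the cocycles of
the two homotopies, in a ring with a boundary `d` and contractions `p`, `q` (`d d = 0`, `p p = 0`,
`d p + p d = 1`).
-/

set_option autoImplicit false

namespace Pool.Agent.GLC

open Pool.Agent.FL

section Cfl

variable (X R : Type) [Ring R]

/-- The entries. -/
private theorem cfl_fin (T : Module.End ℤ (X →₀ ℤ)) (x : X) :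
    {y | (((T (Finsupp.single x 1)) y : ℤ) : R) ≠ 0}.Finite :=
  (T (Finsupp.single x 1)).support.finite_toSet.subset fun y hy => by
    rw [Finset.mem_coe, Finsupp.mem_support_iff]
    intro h
    exact hy (by rw [h, Int.cast_zero])

/-- The column finite matrix of a linear map. -/
noncomputable def cflE (T : Module.End ℤ (X →₀ ℤ)) : CF X R :=
  mkK (fun y x => (((T (Finsupp.single x 1)) y : ℤ) : R)) (cfl_fin X R T)

theorem ent_cflE (T : Module.End ℤ (X →₀ ℤ)) (y x : X) :
    ent (cflE X R T) y x = (((T (Finsupp.single x 1)) y : ℤ) : R) := ent_mkK _ _ _ _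

/-- The ring homomorphism. -/
noncomputable def cfl : Module.End ℤ (X →₀ ℤ) →+* CF X R where
  toFun := cflE X R
  map_one' := by
    classical
    refine ent_ext fun y x => ?_
    rw [ent_cflE, ent_one, Module.End.one_apply, Finsupp.single_apply]
    by_cases h : x = y
    · rw [if_pos h, if_pos h.symm, Int.cast_one]
    · rw [if_neg h, if_neg fun h' => h h'.symm, Int.cast_zero]
  map_mul' T U := by
    classical
    refine ent_ext fun y x => ?_
    rw [ent_cflE, ent_mul_col _ _ _ _ (U (Finsupp.single x 1)).support]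
    · rw [Module.End.mul_apply]
      conv_lhs => rw [← Finsupp.sum_single (U (Finsupp.single x 1))]
      rw [Finsupp.sum, map_sum, Finsupp.finsetSum_apply, Int.cast_sum]
      refine Finset.sum_congr rfl fun v _ => ?_
      rw [ent_cflE, ent_cflE, ← mul_one ((U (Finsupp.single x 1)) v), ← smul_eq_mul,
        ← Finsupp.smul_single, map_smul, Finsupp.smul_apply, smul_eq_mul, smul_eq_mul, mul_one,
        Int.cast_mul, (Int.cast_commute _ _).eq]
    · intro v hv
      rw [ent_cflE] at hv
      rw [Finsupp.mem_support_iff]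
      intro h
      exact hv (by rw [h, Int.cast_zero])
  map_zero' := by
    refine ent_ext fun y x => ?_
    rw [ent_cflE, ent_zero, LinearMap.zero_apply, Finsupp.zero_apply, Int.cast_zero]
  map_add' T U := by
    refine ent_ext fun y x => ?_
    rw [ent_add, ent_cflE, ent_cflE, ent_cflE, LinearMap.add_apply, Finsupp.add_apply, Int.cast_add]

theorem ent_cfl (T : Module.End ℤ (X →₀ ℤ)) (y x : X) :
    ent (cfl X R T) y x = (((T (Finsupp.single x 1)) y : ℤ) : R) := ent_cflE X R T y x

end Cfl

section W

variable {A : Type} [Ring A]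

/-- The first cocycle: `e_q + f_p + t p q`, with `e_q = d q`, `f_p = p d`. -/
def W1 (t d p q : A) : A := d * q + p * d + t * (p * q)

/-- The second cocycle: `e_q + f_p + t e_p f_q`. -/
def W2 (t d p q : A) : A := d * q + p * d + t * (d * p * (q * d))

/-- Boundary and contractions. -/
structure Ct (d p : A) : Prop where
  dd : d * d = 0
  pp : p * p = 0
  dp : d * p + p * d = 1

variable {t d p q r : A}

theorem Ct.dpd (hp : Ct d p) : d * p * d = d := by
  have h := congrArg (d * ·) hp.dp
  simp only [mul_add, mul_one] at h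
  rw [← mul_assoc, hp.dd, zero_mul, zero_add, ← mul_assoc] at h
  exact h

theorem Ct.pdp (hp : Ct d p) : p * d * p = p := by
  have h := congrArg (p * ·) hp.dp
  simp only [mul_add, mul_one] at h
  rw [← mul_assoc p p d, hp.pp, zero_mul, add_zero, ← mul_assoc] at h
  exact h

theorem W1_diag (hp : Ct d p) : W1 t d p p = 1 := by
  rw [W1, hp.pp, mul_zero, add_zero, hp.dp]

theorem W2_diag (hp : Ct d p) : W2 t d p p = 1 := by
  have h : d * p * (p * d) = 0 := by rw [mul_assoc, ← mul_assoc p p d, hp.pp, zero_mul, mul_zero]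
  rw [W2, h, mul_zero, add_zero, hp.dp]

theorem W_zero : W1 0 d p q = W2 0 d p q := by rw [W1, W2, zero_mul, zero_mul]

theorem W1_one (hp : Ct d p) : W1 1 d p q = (d + p) * (d + q) := by
  rw [W1, one_mul, add_mul, mul_add, mul_add, hp.dd, zero_add, add_assoc]

theorem W2_one (hp : Ct d p) (hq : Ct d q) : W2 1 d p q = 1 := by
  have h1 : d * p = 1 - p * d := eq_sub_of_add_eq hp.dp
  have h2 : p * d * (q * d) = p * d := by
    rw [mul_assoc, ← mul_assoc d q d, hq.dpd]
  rw [W2, one_mul, h1, sub_mul, one_mul, h2, ← hq.dp]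
  abel

/-- The first cocycle is flat. -/
theorem W1_mul (hp : Ct d p) (hq : Ct d q) (ht : ∀ x : A, t * x = x * t) :
    W1 t d p q * W1 t d q r = W1 t d p r := by
  have a1 : d * q * (d * r) = d * r := by rw [← mul_assoc, hq.dpd]
  have a2 : d * q * (q * d) = 0 := by rw [mul_assoc, ← mul_assoc q q d, hq.pp, zero_mul, mul_zero]
  have a3 : d * q * (t * (q * r)) = 0 := by
    rw [← mul_assoc, ← ht, mul_assoc t, mul_assoc d q (q * r), ← mul_assoc q q r, hq.pp, zero_mul,
      mul_zero, mul_zero]
  have b1 : p * d * (d * r) = 0 := by rw [mul_assoc, ← mul_assoc d d r, hp.dd, zero_mul, mul_zero]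
  have b2 : p * d * (q * d) = p * d := by rw [mul_assoc, ← mul_assoc d q d, hq.dpd]
  have b3 : p * d * (t * (q * r)) = t * (p * (d * q) * r) := by
    rw [← mul_assoc, ← ht]
    simp only [mul_assoc]
  have c1 : t * (p * q) * (d * r) = t * (p * (q * d) * r) := by simp only [mul_assoc]
  have c2 : t * (p * q) * (q * d) = 0 := by
    rw [mul_assoc, mul_assoc p q (q * d), ← mul_assoc q q d, hq.pp, zero_mul, mul_zero, mul_zero]
  have c3 : t * (p * q) * (t * (q * r)) = 0 := by
    rw [← mul_assoc, ← ht (t * (p * q)), mul_assoc t (t * (p * q)), mul_assoc t (p * q) (q * r),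
      mul_assoc p q (q * r), ← mul_assoc q q r, hq.pp, zero_mul, mul_zero, mul_zero, mul_zero]
  have e : t * (p * (d * q) * r) + t * (p * (q * d) * r) = t * (p * r) := by
    rw [← mul_add, ← add_mul, ← mul_add, hq.dp, mul_one]
  unfold W1
  rw [add_mul, add_mul, mul_add, mul_add, mul_add, mul_add, mul_add, mul_add, a1, a2, a3, b1, b2,
    b3, c1, c2, c3, ← e]
  abel

/-- The second cocycle is flat. -/
theorem W2_mul (hp : Ct d p) (hq : Ct d q) (hr : Ct d r) (ht : ∀ x : A, t * x = x * t) :
    W2 t d p q * W2 t d q r = W2 t d p r := by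
  have hw : ∀ {p q : A}, Ct d p → Ct d q → d * p * (q * d) = q * d - p * d := by
    intro p q hp hq
    have h1 : d * p = 1 - p * d := eq_sub_of_add_eq hp.dp
    rw [h1, sub_mul, one_mul, mul_assoc p d (q * d), ← mul_assoc d q d, hq.dpd]
  have hv : ∀ {p q : A}, Ct d p → Ct d q → W2 t d p q = 1 - (1 - t) * (q * d - p * d) := by
    intro p q hp hq
    have h1 : d * q = 1 - q * d := eq_sub_of_add_eq hq.dp
    rw [W2, hw hp hq, h1, sub_mul, one_mul]
    abel
  have ht' : ∀ x : A, (1 - t) * x = x * (1 - t) := by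
    intro x
    rw [sub_mul, mul_sub, one_mul, mul_one, ht]
  have hm : (q * d - p * d) * (r * d - q * d) = 0 := by
    have h1 : q * d * (r * d) = q * d := by rw [mul_assoc, ← mul_assoc d r d, hr.dpd]
    have h2 : q * d * (q * d) = q * d := by rw [mul_assoc, ← mul_assoc d q d, hq.dpd]
    have h3 : p * d * (r * d) = p * d := by rw [mul_assoc, ← mul_assoc d r d, hr.dpd]
    have h4 : p * d * (q * d) = p * d := by rw [mul_assoc, ← mul_assoc d q d, hq.dpd]
    rw [sub_mul, mul_sub, mul_sub, h1, h2, h3, h4]
    abel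
  have key : ∀ x y : A, x * y = 0 → (1 - x) * (1 - y) = 1 - (x + y) := by
    intro x y h
    rw [sub_mul, one_mul, mul_sub, mul_one, h, sub_zero]
    abel
  rw [hv hp hq, hv hq hr, hv hp hr]
  have e : (1 - t) * (q * d - p * d) * ((1 - t) * (r * d - q * d)) = 0 := by
    rw [← mul_assoc, mul_assoc (1 - t) (q * d - p * d) (1 - t), ← ht', mul_assoc, mul_assoc, hm,
      mul_zero, mul_zero]
  rw [key _ _ e]
  have e2 : (1 - t) * (r * d - p * d) = (1 - t) * (q * d - p * d) + (1 - t) * (r * d - q * d) := by
    rw [← mul_add]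
    congr 1
    abel
  rw [e2]

end W

end Pool.Agent.GLC
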