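import Pool.Agent.Lib.MP_8f66f0_al_GLC.SpecFin

/-!
# Project GLn: the output of part D
-/

set_option autoImplicit false

namespace Pool.Agent.GLC

open Pool.Agent.FL Pool.Agent.GLA Pool.Agent.Wald Pool.Agent.Ind Pool.Agent.WaldL Pool.Agent.FH
  Pool.Agent.TreeC Pool.Agent.Hier Matrix
open scoped Polynomial

/-- The output of part D from its exports. -/
theorem dO (hM : S_M2K) (hE : FL.S_E) (hhom : S_hom) (he0 : S_end0) : S_DO := by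
  intro Y0 Y B0 B C Γ _ _ _ _ _ _ _ _ _ _ i S0 S H N hN hSS hHT hKT L _ _ hL K _ κ hκ
  have h1 : ∀ (L : Type) [CommRing L] [IsDomain L], IsEuc L → HTd Γ L S ∧ HTd Γ L[X] S :=
    fun L _ _ hL => (hHT L hL).1
  have h0 : ∀ (L : Type) [CommRing L] [IsDomain L], IsEuc L → HTd Γ L S0 ∧ HTd Γ L[X] S0 :=
    fun L _ _ hL => (hHT L hL).2
  obtain ⟨hk1, hk0⟩ := hKT L K κ hL hκ
  obtain ⟨κU, hU, hSp⟩ := hM Y B C Γ L K S N κ hκ hL hN h1 hk1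
  refine ⟨κU, hU, fun F0 F1 hF0 hF1 n _ _ z hz => ?_, fun I hI n _ _ z hz => ?_⟩
  · exact hhom Y B C Γ L K S N κ κU F0 F1 hSS hL hN (hE Y B C Γ S h1 L hL).2 hU hSp hF0 hF1 n z hz
  · exact he0 Y0 Y B B0 C Γ L K i S0 S N κ κU H I hI hN hU hSp (hE Y0 B0 C Γ S0 h0 L hL).1 hk0 n z hz

end Pool.Agent.GLC
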