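import Pool.Agent.Lib.MP_8f66f0_al_GLC.Base

/-!
# PROJECT GLn, part C: exhausting sequences, finiteness
-/

set_option autoImplicit false

namespace Pool.Agent.GLC

open Pool.Agent.GLA

variable {M : Type} [ShL M]

/-- Exhausting sequences of admissible sets which are finite modulo the shift. -/
structure Exh (X : ℕ → Set M) : Prop where
  adm : ∀ i, Adm (X i)
  fin : ∀ i, WFin (X i)
  mono : Monotone X
  exh : ∀ a, ∃ i, a ∈ X i

/-- A bounded part of a set which is finite modulo the shift is finite. -/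
theorem wfin_two {X : Set M} (hs : ShSt X) (hX : WFin X) :
    {x | x ∈ X ∧ -(per M : ℤ) ≤ ht x ∧ ht x < per M}.Finite := by
  have h1 : {x | x ∈ X ∧ 0 ≤ ht x ∧ ht x < per M}.Finite := hX
  refine (h1.union (h1.image sh)).subset ?_
  rintro x ⟨hx, h2, h3⟩
  by_cases h4 : 0 ≤ ht x
  · exact Or.inl ⟨hx, h4, h3⟩
  · refine Or.inr ⟨shi x, ⟨?_, ?_, ?_⟩, ShL.sh_shi x⟩
    · rw [← hs, ShL.sh_shi]
      exact hx
    · have := ShL.ht_sh (shi x)
      rw [ShL.sh_shi] at this
      omega
    · have := ShL.ht_sh (shi x)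
      rw [ShL.sh_shi] at this
      omega

/-- Cells in a set which is finite modulo the shift. -/
theorem cells_fin {X : Set M} (hX : WFin X) : {σ : Cell M | σ.s ⊆ X}.Finite := by
  have h1 : {x | x ∈ X ∧ 0 ≤ ht x ∧ ht x < per M}.Finite := hX
  refine Set.Finite.of_finite_image (f := fun σ : Cell M => {a | a ∈ σ.s ∧ 0 ≤ ht a ∧ ht a < per M})
    (h1.finite_subsets.subset ?_) ?_
  · rintro _ ⟨σ, hσ, rfl⟩ a ha
    exact ⟨hσ ha.1, ha.2⟩
  · intro σ _ τ _ h
    refine Cell.ext (Set.ext fun a => ?_)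
    obtain ⟨k, h2, h3⟩ := exists_norm a
    rw [← ShSt.zpow σ.st k a, ← ShSt.zpow τ.st k a]
    have h4 := Set.ext_iff.1 h ((shE M ^ k) a)
    simp only [Set.mem_setOf_eq, h2, h3, and_true] at h4
    exact h4

theorem lab_lower {P : Set (M × M)} (hP : IsLab P) {p : M × M} (hp : p ∈ P) : sh p.2 ≤ p.1 := by
  have h1 := (hP.st p).2 hp
  have h2 := ShL.ht_sh p.1
  have h3 : (0 : ℤ) < per M := by exact_mod_cast (ShL.per_pos (M := M))
  have h4 := ShL.ht_lt _ _ (hP.lt p hp)
  have hne : (sh p.1, sh p.2) ≠ p := by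
    intro h
    have := congrArg Prod.fst h
    simp only at this
    rw [this] at h2
    omega
  rcases hP.ch _ h1 _ hp hne with h | h
  · exact h
  · exfalso
    simp only at h
    rcases lt_or_eq_of_le h with h5 | h5
    · have := ShL.ht_lt _ _ h5
      omega
    · rw [← h5] at h2
      omega

theorem ht_lab_lower {P : Set (M × M)} (hP : IsLab P) {p : M × M} (hp : p ∈ P) :
    ht p.2 - per M ≤ ht p.1 := by
  rcases lt_or_eq_of_le (lab_lower hP hp) with h5 | h5
  · have := ShL.ht_lt _ _ h5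
    rw [ShL.ht_sh] at this
    omega
  · rw [← h5, ShL.ht_sh]

/-- Labels in a set which is finite modulo the shift. -/
theorem labs_fin {X : Set M} (hs : ShSt X) (hX : WFin X) :
    {P : Lab M | ∀ p ∈ P.1, p.1 ∈ X ∧ p.2 ∈ X}.Finite := by
  have h1 := wfin_two hs hX
  refine Set.Finite.of_finite_image (f := fun P : Lab M => nrm P.1)
    (((h1.prod h1).finite_subsets).subset ?_) ?_
  · rintro _ ⟨P, hP, rfl⟩ p hp
    have h2 := hP p hp.1
    have h3 := ht_lab_lower P.2 hp.1
    have h4 := ShL.ht_lt _ _ (P.2.lt p hp.1)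
    have h5 := hp.2
    exact ⟨⟨h2.1, by omega, by omega⟩, ⟨h2.2, by omega, by omega⟩⟩
  · intro P _ Q _ h
    refine Subtype.ext (Set.ext fun p => ?_)
    obtain ⟨k, h2, h3⟩ := exists_norm p.2
    rw [← IsLab.zpow P.2 k p, ← IsLab.zpow Q.2 k p]
    have h4 := Set.ext_iff.1 h ((shE M ^ k) p.1, (shE M ^ k) p.2)
    simp only [nrm, Set.mem_setOf_eq, h2, h3, and_true] at h4
    exact h4

/-- Lists without repetition from a finite set. -/
theorem lists_fin {α : Type} {T : Set α} (hT : T.Finite) :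
    {l : List α | l.Nodup ∧ ∀ x ∈ l, x ∈ T}.Finite := by
  classical
  haveI := hT.to_subtype
  haveI := Fintype.ofFinite T
  refine Set.Finite.subset ((List.finite_length_le T (Fintype.card T)).image
    (List.map Subtype.val)) ?_
  rintro l ⟨h1, h2⟩
  lift l to List T using h2
  refine ⟨l, ?_, rfl⟩
  exact (List.Nodup.of_map _ h1).length_le_card

end Pool.Agent.GLC
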