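import Pool.Agent.Lib.MP_8f66f0_al_GLC.SpecFl

/-!
# Project GLn, part C: the phases and the flags of labels of an iterated derived system
-/

set_option autoImplicit false

namespace Pool.Agent.GLC

open Pool.Agent.FL Pool.Agent.BB Pool.Agent.GLA Pool.Agent.GLA2
open scoped Pointwise

/-- Finite sets of natural numbers as decreasing lists. -/
theorem fla_sort (s : Finset ℕ) : ∃ E : List ℕ, E.Pairwise (· > ·) ∧ ∀ d, d ∈ E ↔ d ∈ s := by
  classical
  induction s using Finset.induction_on_max with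
  | empty => exact ⟨[], List.Pairwise.nil, fun d => by simp⟩
  | insert a s ha ih =>
    obtain ⟨E, h1, h2⟩ := ih
    refine ⟨a :: E, List.pairwise_cons.2 ⟨fun d hd => ha d ((h2 d).1 hd), h1⟩, fun d => ?_⟩
    rw [List.mem_cons, Finset.mem_insert, h2]

/-- The last time of a phase. -/
theorem fla_last (ds : List (ℕ × ℕ)) : ∃ t : ℕ → ℕ, ∀ d τ, (d, τ) ∈ ds →
    (d, t d) ∈ ds ∧ τ ≤ t d := by
  classical
  have h1 : ∀ d, ∃ t, ∀ τ, (d, τ) ∈ ds → (d, t) ∈ ds ∧ τ ≤ t := by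
    intro d
    by_cases h : ∃ τ, (d, τ) ∈ ds
    · obtain ⟨s, hs⟩ : ∃ s : Finset ℕ, s = (ds.toFinset.filter fun p => p.1 = d).image Prod.snd :=
        ⟨_, rfl⟩
      have hms : ∀ τ, τ ∈ s ↔ (d, τ) ∈ ds := by
        intro τ
        rw [hs, Finset.mem_image]
        constructor
        · rintro ⟨p, hp, rfl⟩
          obtain ⟨h6, h7⟩ := Finset.mem_filter.1 hp
          rw [← h7]
          exact List.mem_toFinset.1 h6
        · intro hτ
          exact ⟨(d, τ), Finset.mem_filter.2 ⟨List.mem_toFinset.2 hτ, rfl⟩, rfl⟩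
      have h2 : s.Nonempty := by
        obtain ⟨τ, hτ⟩ := h
        exact ⟨τ, (hms τ).2 hτ⟩
      exact ⟨s.max' h2, fun τ hτ => ⟨(hms _).1 (s.max'_mem h2), s.le_max' τ ((hms τ).2 hτ)⟩⟩
    · exact ⟨0, fun τ hτ => absurd ⟨τ, hτ⟩ h⟩
  choose t ht using h1
  exact ⟨t, fun d τ hτ => ht d τ hτ⟩

section

variable {M : Type} [ShL M]

/-- The flag with a given list of labels. -/
def flMk (D : List ℕ) (l : List (Lab M)) (h : l.IsChain Lab.nest) (h' : l.map Lab.rk = D) :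
    FlagR M D := ⟨(⟨l, h⟩ : GLA.Flag M), h'⟩

theorem flMk_le {D : List ℕ} {l l' : List (Lab M)} (h : l.IsChain Lab.nest)
    (h' : l.map Lab.rk = D) (k : l'.IsChain Lab.nest) (k' : l'.map Lab.rk = D) :
    flMk D l h h' ≤ flMk D l' k k' ↔ LLe l l' := Iff.rfl

theorem flMk_congr {D : List ℕ} {l l' : List (Lab M)} (h : l.IsChain Lab.nest)
    (h' : l.map Lab.rk = D) (k : l'.IsChain Lab.nest) (k' : l'.map Lab.rk = D) (e : l = l') :
    flMk D l h h' = flMk D l' k k' := by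
  subst e
  rfl

theorem flMk_smul {Γ : Type} [Group Γ] [ShAct Γ M] (g : Γ) {D : List ℕ} {l : List (Lab M)}
    (h : l.IsChain Lab.nest) (h' : l.map Lab.rk = D) (k : (l.map (g • ·)).IsChain Lab.nest)
    (k' : (l.map (g • ·)).map Lab.rk = D) :
    g • flMk D l h h' = flMk D (l.map (g • ·)) k k' := rfl

theorem flMk_ex {D : List ℕ} (φ : FlagR M D) : ∃ (l : List (Lab M)) (h : l.IsChain Lab.nest)
    (h' : l.map Lab.rk = D), φ = flMk D l h h' := ⟨φ.1.1, φ.1.2, φ.2, rfl⟩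

theorem fla_rks_smul {Γ : Type} [Group Γ] [ShAct Γ M] (g : Γ) (l : List (Lab M)) :
    (l.map (g • ·)).map Lab.rk = l.map Lab.rk := by
  rw [List.map_map]
  refine List.map_congr_left fun P _ => ?_
  exact Lab.rk_smul g P

/-- The cell with a flag. -/
def cflMk (D : List ℕ) (σ : Cell M) (l : List (Lab M)) (h : l.IsChain Lab.nest)
    (h' : l.map Lab.rk = D) (hs : ∀ P ∈ l, Supp σ.s P.1) : CFl M D := ⟨(σ, flMk D l h h'), hs⟩

theorem cflMk_ex {D : List ℕ} (q : CFl M D) : ∃ (σ : Cell M) (l : List (Lab M))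
    (h : l.IsChain Lab.nest) (h' : l.map Lab.rk = D) (hs : ∀ P ∈ l, Supp σ.s P.1),
    q = cflMk D σ l h h' hs := ⟨q.1.1, q.1.2.1.1, q.1.2.1.2, q.1.2.2, q.2, rfl⟩

theorem cflMk_smul {Γ : Type} [Group Γ] [ShAct Γ M] (g : Γ) {D : List ℕ} {σ : Cell M}
    {l : List (Lab M)} (h : l.IsChain Lab.nest) (h' : l.map Lab.rk = D)
    (hs : ∀ P ∈ l, Supp σ.s P.1) (k : (l.map (g • ·)).IsChain Lab.nest)
    (k' : (l.map (g • ·)).map Lab.rk = D) (ks : ∀ P ∈ l.map (g • ·), Supp (g • σ).s P.1) :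
    g • cflMk D σ l h h' hs = cflMk D (g • σ) (l.map (g • ·)) k k' ks := rfl

theorem cflMk_inj {D : List ℕ} {σ σ' : Cell M} {l l' : List (Lab M)}
    (h : l.IsChain Lab.nest) (h' : l.map Lab.rk = D) (hs : ∀ P ∈ l, Supp σ.s P.1)
    (k : l'.IsChain Lab.nest) (k' : l'.map Lab.rk = D) (ks : ∀ P ∈ l', Supp σ'.s P.1) :
    cflMk D σ l h h' hs = cflMk D σ' l' k k' ks ↔ σ = σ' ∧ l = l' := by
  constructor
  · intro e
    exact ⟨congrArg (fun q : CFl M D => q.1.1) e, congrArg (fun q : CFl M D => q.1.2.1.1) e⟩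
  · rintro ⟨rfl, rfl⟩
    rfl

theorem cflMk_le {D : List ℕ} {σ σ' : Cell M} {l l' : List (Lab M)}
    (h : l.IsChain Lab.nest) (h' : l.map Lab.rk = D) (hs : ∀ P ∈ l, Supp σ.s P.1)
    (k : l'.IsChain Lab.nest) (k' : l'.map Lab.rk = D) (ks : ∀ P ∈ l', Supp σ'.s P.1) :
    cflMk D σ l h h' hs ≤ cflMk D σ' l' k k' ks ↔ σ = σ' ∧ l = l' :=
  (cfl_le _ _).trans (cflMk_inj h h' hs k k' ks)

end

section

variable {M Γ Y B C Y' B' : Type} [Group Γ] [ShL M] [ShAct Γ M] [PartialOrder B]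
  [MulAction Γ B] [PartialOrder C] [MulAction Γ C] [PartialOrder B'] [MulAction Γ B']

theorem fla_inj {sm : Lab M → C} (hS : Sm Γ sm) {P Q : Lab M} (h : sm P = sm Q) : P = Q :=
  le_antisymm ((hS.le P Q).1 h.le) ((hS.le Q P).1 h.ge)

/-- The cell of the second members of a label. -/
def fla_cell (P : Lab M) : Cell M where
  s := {a | ∃ p ∈ P.1, p.2 = a}
  st := by
    intro a
    constructor
    · rintro ⟨p, hp, h⟩
      refine ⟨(shi p.1, shi p.2), ?_, ?_⟩
      · have e : ((sh (shi p.1), sh (shi p.2)) : M × M) ∈ P.1 := by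
          rw [ShL.sh_shi, ShL.sh_shi]
          exact hp
        exact (P.2.st (shi p.1, shi p.2)).1 e
      · change shi p.2 = a
        rw [h, ShL.shi_sh]
    · rintro ⟨p, hp, rfl⟩
      exact ⟨(sh p.1, sh p.2), (P.2.st p).2 hp, rfl⟩
  ch := by
    rintro a ⟨p, hp, rfl⟩ b ⟨q, hq, rfl⟩
    by_cases h : p = q
    · rw [h]
      exact Or.inl le_rfl
    · rcases P.2.ch p hp q hq h with h1 | h1
      · exact Or.inl (h1.trans (P.2.lt q hq).le)
      · exact Or.inr (h1.trans (P.2.lt p hp).le)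

theorem fla_cell_supp (P : Lab M) : Supp (fla_cell P).s P.1 := by
  intro p hp
  refine ⟨⟨p, hp, rfl⟩, ?_⟩
  rintro a ⟨q, hq, rfl⟩ h
  have hne : q ≠ p := fun e => by
    rw [e] at h
    exact lt_irrefl _ h
  rcases P.2.ch q hq p hp hne with h1 | h1
  · exact h1
  · exact absurd (h1.trans_lt (P.2.lt q hq)) (lt_asymm h)

/-- The members of a chain are supported if the first one is. -/
theorem fla_chain_supp {s : Set M} : ∀ {l : List (Lab M)} {P : Lab M},
    (P :: l).IsChain Lab.nest → Supp s P.1 → ∀ Q ∈ P :: l, Supp s Q.1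
  | [], P, _, h, Q, hQ => by
    rw [List.mem_singleton] at hQ
    rw [hQ]
    exact h
  | R :: l, P, hc, h, Q, hQ => by
    rw [List.isChain_cons_cons] at hc
    rcases List.mem_cons.1 hQ with rfl | hQ
    · exact h
    · exact fla_chain_supp hc.2 (h.nest hc.1.2) Q hQ

theorem fla_data (S : FSys Y B C) (cell : Y → Cell M) (sm : Lab M → C) (S' : FSys Y' B' C)
    (ds : List (ℕ × ℕ)) (b : ℕ) (j : Y' → Y) (hR : Rich S cell sm) (hS : Sm Γ sm)
    (hI : Itd Γ S S' ds b j) (hne : ds ≠ []) (hpos : ∀ p ∈ ds, 1 ≤ p.1) (y₁ : Y') :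
    ∃ (E : List ℕ) (L : Y' → ℕ → Lab M), E ≠ [] ∧ (∀ d, d ∈ E ↔ ∃ τ, (d, τ) ∈ ds) ∧
      (∀ y, ∀ d ∈ E, S.lab (j y) d = sm (L y d) ∧ (L y d).rk = d + 1 ∧
        Supp (cell (j y)).s (L y d).1) ∧
      (∀ y, (E.map (L y)).IsChain Lab.nest) ∧
      ∀ (σ : Cell M) (φ : List (Lab M)), φ.IsChain Lab.nest → φ.map Lab.rk = E.map (· + 1) →
        (∀ P ∈ φ, Supp σ.s P.1) → ∃ y, cell (j y) = σ ∧ E.map (L y) = φ := by
  classical
  obtain ⟨E, hE1, hE2⟩ := fla_sort (ds.map Prod.fst).toFinset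
  have hE : ∀ d, d ∈ E ↔ ∃ τ, (d, τ) ∈ ds := by
    intro d
    rw [hE2, List.mem_toFinset, List.mem_map]
    constructor
    · rintro ⟨p, hp, rfl⟩
      exact ⟨p.2, hp⟩
    · rintro ⟨τ, hτ⟩
      exact ⟨(d, τ), hτ, rfl⟩
  have hEne : E ≠ [] := by
    intro h
    obtain ⟨p, hp⟩ := List.exists_mem_of_ne_nil ds hne
    have h1 := (hE p.1).2 ⟨p.2, hp⟩
    rw [h] at h1
    exact absurd h1 List.not_mem_nil
  have hRt : ∀ y, ∀ p ∈ ds, S.R p.2 (j y) = p.1 := fun y => (hI.rng (j y)).1 ⟨y, rfl⟩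
  -- the slots
  have hslot : ∀ y, ∀ d ∈ E, ∃ n, (d, n) ∈ S.A (j y) := by
    intro y d hd
    obtain ⟨τ, hτ⟩ := (hE d).1 hd
    have h1 := hRt y _ hτ
    have h2 := S.R_mem (h := τ) (y := j y) (by rw [h1]; exact hpos _ hτ)
    rw [h1] at h2
    obtain ⟨n, h3, -⟩ := S.mem_F.1 h2
    exact ⟨n, h3⟩
  have hL : ∀ y d, ∃ P : Lab M, d ∈ E → S.lab (j y) d = sm P ∧ P.rk = d + 1 ∧
      Supp (cell (j y)).s P.1 := by
    intro y d
    by_cases hd : d ∈ E
    · obtain ⟨n, hn⟩ := hslot y d hd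
      obtain ⟨P, hP⟩ := hR.lab (j y) _ hn
      exact ⟨P, fun _ => hP⟩
    · obtain ⟨e, he⟩ := List.exists_mem_of_ne_nil E hEne
      obtain ⟨n, hn⟩ := hslot y e he
      obtain ⟨P, -⟩ := hR.lab (j y) _ hn
      exact ⟨P, fun h => absurd h hd⟩
  choose L hL using hL
  have hmono : ∀ d τ d' τ', (d, τ) ∈ ds → (d', τ') ∈ ds → d' < d → τ < τ' := by
    intro d τ d' τ' h h' hd
    by_contra hc
    have h1 := S.R_anti (not_lt.1 hc) (j y₁)
    have h2 := hRt y₁ _ h
    have h3 := hRt y₁ _ h'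
    simp only at h2 h3
    omega
  obtain ⟨t, ht⟩ := fla_last ds
  refine ⟨E, L, hEne, hE, fun y d hd => hL y d hd, fun y => ?_, fun σ φ hφ hrk hsupp => ?_⟩
  · -- chain
    refine List.Pairwise.isChain ?_
    rw [List.pairwise_map]
    refine hE1.imp_of_mem fun {d d'} hd hd' hlt => ?_
    obtain ⟨n, hn⟩ := hslot y d hd
    obtain ⟨n', hn'⟩ := hslot y d' hd'
    exact hR.nest (j y) _ hn _ hn' hlt _ _ (hL y d hd).1 (hL y d' hd').1
  · -- surjectivity
    have hφE : E = φ.map fun Q => Q.rk - 1 := by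
      have h1 : (φ.map Lab.rk).map (· - 1) = (E.map (· + 1)).map (· - 1) := by rw [hrk]
      rw [List.map_map, List.map_map] at h1
      have h2 : E.map ((· - 1) ∘ (· + 1)) = E := by
        conv_rhs => rw [← List.map_id E]
        refine List.map_congr_left fun d _ => ?_
        change d + 1 - 1 = d
        omega
      rw [h2] at h1
      exact h1.symm
    have hφne : φ ≠ [] := by
      intro h
      rw [h] at hφE
      exact hEne hφE
    have hrk1 : ∀ Q ∈ φ, Q.rk - 1 ∈ E := by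
      intro Q hQ
      rw [hφE]
      exact List.mem_map.2 ⟨Q, hQ, rfl⟩
    have hrk2 : ∀ Q ∈ φ, 1 ≤ Q.rk := by
      intro Q hQ
      have h1 : Q.rk ∈ E.map (· + 1) := by
        rw [← hrk]
        exact List.mem_map.2 ⟨Q, hQ, rfl⟩
      obtain ⟨d, -, h2⟩ := List.mem_map.1 h1
      rw [← h2]
      exact Nat.le_add_left 1 d
    have hrk3 : ∀ d ∈ E, ∃ Q ∈ φ, Q.rk = d + 1 := by
      intro d hd
      have h1 : d + 1 ∈ φ.map Lab.rk := by
        rw [hrk]
        exact List.mem_map.2 ⟨d, hd, rfl⟩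
      exact List.mem_map.1 h1
    have hsort : (φ.map Lab.rk).Pairwise (· > ·) := by
      rw [hrk, List.pairwise_map]
      exact hE1.imp fun h => Nat.succ_lt_succ h
    obtain ⟨ψ, P, hψ⟩ : ∃ ψ P, φ = ψ ++ [P] :=
      ⟨φ.dropLast, φ.getLast hφne, (List.dropLast_append_getLast hφne).symm⟩
    have hlast : ∀ Q ∈ ψ, P.rk < Q.rk := by
      intro Q hQ
      rw [hψ, List.map_append, List.pairwise_append] at hsort
      exact hsort.2.2 _ (List.mem_map.2 ⟨Q, hQ, rfl⟩) _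
        (List.mem_map.2 ⟨P, List.mem_singleton.2 rfl, rfl⟩)
    have hmem : ∀ Q, Q ∈ φ ↔ Q ∈ ψ ∨ Q = P := by
      intro Q
      rw [hψ, List.mem_append, List.mem_singleton]
    have hfst : (ψ.map fun Q => (Q, t (Q.rk - 1))).map Prod.fst = ψ := by
      rw [List.map_map]
      conv_rhs => rw [← List.map_id ψ]
      rfl
    obtain ⟨y, n, hn, hcell, hslots, hlab1, hlab2⟩ := hR.rich σ
      (ψ.map fun Q => (Q, t (Q.rk - 1))) P (t (P.rk - 1)) (by
        rw [hfst, ← hψ]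
        exact hφ) (by
        intro p hp
        obtain ⟨Q, hQ, rfl⟩ := List.mem_map.1 hp
        exact hsupp Q ((hmem Q).2 (Or.inl hQ))) (hsupp P ((hmem P).2 (Or.inr rfl)))
    have hlab : ∀ Q ∈ φ, S.lab y (Q.rk - 1) = sm Q := by
      intro Q hQ
      rcases (hmem Q).1 hQ with hQ | rfl
      · exact hlab1 (Q, t (Q.rk - 1)) (List.mem_map.2 ⟨Q, hQ, rfl⟩)
      · exact hlab2
    have hRy : ∀ p ∈ ds, S.R p.2 y = p.1 := by
      rintro ⟨d, τ⟩ hp
      change S.R τ y = d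
      have hd : d ∈ E := (hE d).2 ⟨τ, hp⟩
      obtain ⟨h1, h2⟩ := ht d τ hp
      obtain ⟨Q, hQ, hQd⟩ := hrk3 d hd
      have hQ1 : Q.rk - 1 = d := by omega
      refine le_antisymm (S.R_le.2 fun e he => ?_) (S.le_R (S.mem_F.2 ?_))
      · obtain ⟨a, h3, h4⟩ := S.mem_F.1 he
        rcases (hslots (e, a)).1 h3 with ⟨p, hp', h5⟩ | h5
        · obtain ⟨Q', hQ', rfl⟩ := List.mem_map.1 hp'
          have h6 : e = Q'.rk - 1 := congrArg Prod.fst h5
          have h7 : a = t (Q'.rk - 1) := congrArg Prod.snd h5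
          by_contra hc
          have h8 : e ∈ E := by
            rw [h6]
            exact hrk1 Q' ((hmem Q').2 (Or.inl hQ'))
          obtain ⟨τ', hτ'⟩ := (hE e).1 h8
          have h9 := (ht e τ' hτ').1
          have h10 := hmono e (t e) d τ h9 hp (not_le.1 hc)
          rw [← h6] at h7
          omega
        · have h6 : e = P.rk - 1 := congrArg Prod.fst h5
          rcases (hmem Q).1 hQ with h7 | h7
          · have h8 := hlast Q h7
            omega
          · rw [h7] at hQ1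
            omega
      · rcases (hmem Q).1 hQ with h7 | h7
        · refine ⟨t d, (hslots (d, t d)).2 (Or.inl ⟨(Q, t (Q.rk - 1)),
            List.mem_map.2 ⟨Q, h7, rfl⟩, ?_⟩), h2⟩
          rw [hQ1]
        · refine ⟨n, (hslots (d, n)).2 (Or.inr ?_), ?_⟩
          · rw [← h7, hQ1]
          · rw [← h7, hQ1] at hn
            exact h2.trans hn
    obtain ⟨y', rfl⟩ := (hI.rng y).2 hRy
    refine ⟨y', hcell, ?_⟩
    conv_lhs => rw [hφE, List.map_map]
    conv_rhs => rw [← List.map_id φ]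
    refine List.map_congr_left fun Q hQ => ?_
    change L y' (Q.rk - 1) = Q
    refine fla_inj hS ?_
    rw [← (hL y' _ (hrk1 Q hQ)).1]
    exact hlab Q hQ

end

end Pool.Agent.GLC
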