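import Pool.Agent.Lib.MP_8f66f0_al_GLC.FlA

/-!
# Project GLn, part C: the statement `S_flcell`
-/

set_option autoImplicit false

namespace Pool.Agent.GLC

open Pool.Agent.FL Pool.Agent.BB Pool.Agent.GLA Pool.Agent.GLA2
open scoped Pointwise

theorem flcell : S_flcell := by
  classical
  intro M Γ Y B C Y' B' _ _ _ _ _ _ _ _ _ S cell sm S' ds b j hbase hR hS hI hne hpos
  rcases isEmpty_or_nonempty Y' with hY | ⟨⟨y₁⟩⟩
  · exact ⟨[2], List.cons_ne_nil _ _, fun y => hY.elim y, fun g y => hY.elim y,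
      fun h => hY.elim h.some⟩
  obtain ⟨E, L, hEne, hE, hL, hch, hsur⟩ := fla_data S cell sm S' ds b j hR hS hI hne hpos y₁
  have hrk : ∀ y, (E.map (L y)).map Lab.rk = E.map (· + 1) := by
    intro y
    rw [List.map_map]
    exact List.map_congr_left fun d hd => (hL y d hd).2.1
  have hsupp : ∀ y, ∀ P ∈ E.map (L y), Supp (cell (j y)).s P.1 := by
    intro y P hP
    obtain ⟨d, hd, rfl⟩ := List.mem_map.1 hP
    exact (hL y d hd).2.2
  refine ⟨E.map (· + 1), fun h => hEne (List.map_eq_nil_iff.1 h),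
    fun y => cflMk _ (cell (j y)) (E.map (L y)) (hch y) (hrk y) (hsupp y),
    fun g y y' => ?_, fun _ q => ?_⟩
  · have hsg : ∀ P ∈ (E.map (L y)).map (g • ·), Supp (g • cell (j y)).s P.1 := by
      intro P hP
      obtain ⟨Q, hQ, rfl⟩ := List.mem_map.1 hP
      exact (hsupp y Q hQ).smul g
    have key : (∀ p ∈ ds, g • S.lab (j y) p.1 ≤ S.lab (j y') p.1) ↔
        LLe ((E.map (L y)).map (g • ·)) (E.map (L y')) := by
      change _ ↔ List.Forall₂ (fun a b : Lab M => a ≤ b) _ _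
      rw [List.map_map, List.forall₂_map_left_iff, List.forall₂_map_right_iff,
        List.forall₂_same]
      constructor
      · intro h d hd
        obtain ⟨τ, hτ⟩ := (hE d).1 hd
        have h1 := h _ hτ
        change g • S.lab (j y) d ≤ S.lab (j y') d at h1
        rw [(hL y d hd).1, (hL y' d hd).1, ← hS.smul, hS.le] at h1
        exact h1
      · intro h p hp
        have hd : p.1 ∈ E := (hE p.1).2 ⟨p.2, hp⟩
        rw [(hL y _ hd).1, (hL y' _ hd).1, ← hS.smul, hS.le]
        exact h _ hd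
    rw [hI.le, hbase, key, cflMk_smul g (hch y) (hrk y) (hsupp y)
      (isChain_map_smul g (hch y)) ((fla_rks_smul g _).trans (hrk y)) hsg, cflMk_le]
    constructor
    · rintro ⟨h1, h2⟩
      refine ⟨h1, flag_eq_of_supp (s := (cell (j y')).s) h2 ?_ (hsupp y')⟩
      rw [← h1]
      exact hsg
    · rintro ⟨h1, h2⟩
      refine ⟨h1, ?_⟩
      rw [h2]
      exact LLe.refl _
  · obtain ⟨σ, l, hl, hφ, hq, rfl⟩ := cflMk_ex q
    obtain ⟨y, hc, hy⟩ := hsur σ l hl hφ hq
    refine ⟨1, y, Eq.trans ?_ (one_smul Γ _).symm⟩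
    rw [cflMk_inj]
    exact ⟨hc.symm, hy.symm⟩

end Pool.Agent.GLC
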