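import Pool.Agent.Lib.MP_8f66f0_al_GLC.FlA

/-!
# Project GLn, part C: the statement `S_flpt`
-/

set_option autoImplicit false

namespace Pool.Agent.GLC

open Pool.Agent.FL Pool.Agent.BB Pool.Agent.GLA Pool.Agent.GLA2
open scoped Pointwise

theorem flpt : S_flpt := by
  classical
  intro M Γ Y C Y' B' _ _ _ _ _ _ _ S cell sm S' ds b j hR hS hI hne hpos
  rcases isEmpty_or_nonempty Y' with hY | ⟨⟨y₁⟩⟩
  · exact ⟨[2], List.cons_ne_nil _ _, fun y => hY.elim y, fun g y => hY.elim y,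
      fun h => hY.elim h.some⟩
  obtain ⟨E, L, hEne, hE, hL, hch, hsur⟩ := fla_data S cell sm S' ds b j hR hS hI hne hpos y₁
  have hrk : ∀ y, (E.map (L y)).map Lab.rk = E.map (· + 1) := by
    intro y
    rw [List.map_map]
    exact List.map_congr_left fun d hd => (hL y d hd).2.1
  refine ⟨E.map (· + 1), fun h => hEne (List.map_eq_nil_iff.1 h),
    fun y => flMk _ (E.map (L y)) (hch y) (hrk y), fun g y y' => ?_, fun _ φ => ?_⟩
  · rw [hI.le, flMk_smul g (hch y) (hrk y) (isChain_map_smul g (hch y))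
      ((fla_rks_smul g _).trans (hrk y)), flMk_le]
    change _ ↔ List.Forall₂ (fun a b : Lab M => a ≤ b) ((E.map (L y)).map (g • ·)) (E.map (L y'))
    rw [List.map_map, List.forall₂_map_left_iff, List.forall₂_map_right_iff, List.forall₂_same]
    constructor
    · rintro ⟨-, h⟩ d hd
      obtain ⟨τ, hτ⟩ := (hE d).1 hd
      have h1 := h _ hτ
      change g • S.lab (j y) d ≤ S.lab (j y') d at h1
      rw [(hL y d hd).1, (hL y' d hd).1, ← hS.smul, hS.le] at h1
      exact h1
    · intro h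
      refine ⟨le_refl (), fun p hp => ?_⟩
      have hd : p.1 ∈ E := (hE p.1).2 ⟨p.2, hp⟩
      rw [(hL y _ hd).1, (hL y' _ hd).1, ← hS.smul, hS.le]
      exact h _ hd
  · obtain ⟨l, hl, hφ, rfl⟩ := flMk_ex φ
    have hlne : l ≠ [] := by
      intro h
      rw [h] at hφ
      exact hEne (List.map_eq_nil_iff.1 hφ.symm)
    obtain ⟨P, l', rfl⟩ := List.exists_cons_of_ne_nil hlne
    obtain ⟨y, -, hy⟩ := hsur (fla_cell P) (P :: l') hl hφ
      (fla_chain_supp hl (fla_cell_supp P))
    exact ⟨1, y, (flMk_congr _ _ _ _ hy.symm).trans (one_smul Γ _).symm⟩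

end Pool.Agent.GLC
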