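import Pool.Agent.Lib.MP_8f66f0_al_GLC.HTDefs

/-!
# Project GLn, part C: `HT` from `SFTT`
-/

set_option autoImplicit false

namespace Pool.Agent.GLC

open Pool.Agent.FL Pool.Agent.BB Pool.Agent.GLA Pool.Agent.Wald Pool.Agent.Ind

namespace HtAux

variable {k Γ P : Type} [CommRing k] [Group Γ] [PartialOrder P] [MulAction Γ P]

/-- the diagonal matrix of the group elements `w i` -/
noncomputable def Dg {n : Type} [DecidableEq n] (w : n → Γ) : Matrix n n (MonoidAlgebra k Γ) :=
  Matrix.diagonal fun i => MonoidAlgebra.single (w i) 1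

theorem Dg_mul {n : Type} [Fintype n] [DecidableEq n] (w w' : n → Γ) (h : ∀ i, w i * w' i = 1) :
    Dg (k := k) w * Dg w' = 1 := by
  unfold Dg
  rw [Matrix.diagonal_mul_diagonal, ← Matrix.diagonal_one]
  congr 1
  funext i
  rw [MonoidAlgebra.single_mul_single, h i, mul_one]
  rfl

theorem Dg_diag {n : Type} [Fintype n] [DecidableEq n] (w w' : n → Γ) (h : ∀ i, w i * w' i = 1)
    (t : n → Prop) [DecidablePred t] :
    Dg (k := k) w * (Matrix.diagonal fun i => if t i then 1 else 0) * Dg w' =
      Matrix.diagonal fun i => if t i then 1 else 0 := by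
  unfold Dg
  rw [Matrix.diagonal_mul_diagonal, Matrix.diagonal_mul_diagonal]
  congr 1
  funext i
  split_ifs
  · rw [mul_one, MonoidAlgebra.single_mul_single, h i, mul_one]
    rfl
  · rw [mul_zero, zero_mul]

/-- conjugation changes the labels -/
theorem resp_conj [OrdAct Γ P] {n : Type} [Fintype n] [DecidableEq n] (w : n → Γ) (c : n → P)
    (c' : n → P) (hc : ∀ i, c' i = w i • c i) (u : Matrix n n (MonoidAlgebra k Γ))
    (hu : Resp c' c' u) : Resp c c (Dg (fun i => (w i)⁻¹) * u * Dg w) := by
  intro i j g hg
  unfold Dg at hg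
  rw [Matrix.mul_diagonal, Matrix.diagonal_mul, MonoidAlgebra.coeff_mul_single_apply,
    MonoidAlgebra.coeff_single_mul_apply, mul_one, one_mul, inv_inv] at hg
  have h1 := hu i j _ hg
  rw [hc, hc] at h1
  have h2 := OrdAct.smul_le (w i)⁻¹ h1
  rw [inv_smul_smul, smul_smul, smul_smul] at h2
  have e : (w i)⁻¹ * (w i * (g * (w j)⁻¹)) * w j = g := by group
  rwa [e] at h2

end HtAux

open HtAux in
theorem ht : S_ht := by
  intro Y B C k Γ P _ _ _ _ _ _ _ S fl hR hS n _ _ c e he hee
  by_cases hY : Nonempty Y
  · have he' : Resp (fun i => fl (c i)) (fun i => fl (c i)) e := fun i j g hg =>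
      (hR.le g (c j) (c i)).1 (he i j g hg)
    obtain ⟨m, hm1, hm2, c', s, hs, t, ht, u, v, hu, hv, huv, hvu, hconj⟩ :=
      hS n (fun i => fl (c i)) e he' hee
    choose g y hgy using fun j : m => hR.surj hY (c' j)
    obtain ⟨w, hw⟩ : ∃ w : n ⊕ m → Γ, w = Sum.elim (fun _ => 1) g := ⟨_, rfl⟩
    have hlab : ∀ i, Sum.elim (fun i => fl (c i)) c' i = w i • fl (Sum.elim c y i) := by
      intro i
      rw [hw]
      rcases i with i | j
      · exact (one_smul Γ _).symm
      · exact hgy j
    have hback : ∀ a : Matrix (n ⊕ m) (n ⊕ m) (MonoidAlgebra k Γ),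
        Resp (fun i => fl (Sum.elim c y i)) (fun i => fl (Sum.elim c y i)) a →
        Resp (fun i => S.base (Sum.elim c y i)) (fun i => S.base (Sum.elim c y i)) a :=
      fun a ha i j g hg => (hR.le g _ _).2 (ha i j g hg)
    have hww : ∀ i, w i * (w i)⁻¹ = 1 := fun i => mul_inv_cancel _
    have hww' : ∀ i, (w i)⁻¹ * w i = 1 := fun i => inv_mul_cancel _
    have d1 : Dg (k := k) w * Dg (fun i => (w i)⁻¹) = 1 := Dg_mul _ _ hww
    have d2 : Dg (k := k) (fun i => (w i)⁻¹) * Dg w = 1 := Dg_mul _ _ hww'
    have hX : Dg (k := k) w * Matrix.fromBlocks e 0 0 (Matrix.diagonal fun j => if s j then 1 else 0) *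
        Dg (fun i => (w i)⁻¹) =
        Matrix.fromBlocks e 0 0 (Matrix.diagonal fun j => if s j then 1 else 0) := by
      have e1 : Dg (k := k) w = Matrix.fromBlocks 1 0 0 (Dg g) := by
        rw [hw]
        unfold Dg
        ext i j
        rcases i with i | i <;> rcases j with j | j
        · rw [Matrix.fromBlocks_apply₁₁]
          by_cases h : i = j
          · subst h
            rw [Matrix.diagonal_apply_eq, Matrix.one_apply_eq]
            rfl
          · rw [Matrix.diagonal_apply_ne _ (by simpa using h), Matrix.one_apply_ne h]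
        · rw [Matrix.fromBlocks_apply₁₂, Matrix.diagonal_apply_ne _ (by simp)]
          rfl
        · rw [Matrix.fromBlocks_apply₂₁, Matrix.diagonal_apply_ne _ (by simp)]
          rfl
        · rw [Matrix.fromBlocks_apply₂₂]
          by_cases h : i = j
          · subst h
            rw [Matrix.diagonal_apply_eq, Matrix.diagonal_apply_eq]
            rfl
          · rw [Matrix.diagonal_apply_ne _ (by simpa using h), Matrix.diagonal_apply_ne _ h]
      have e2 : Dg (k := k) (fun i => (w i)⁻¹) = Matrix.fromBlocks 1 0 0 (Dg fun j => (g j)⁻¹) := by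
        rw [hw]
        unfold Dg
        ext i j
        rcases i with i | i <;> rcases j with j | j
        · rw [Matrix.fromBlocks_apply₁₁]
          by_cases h : i = j
          · subst h
            rw [Matrix.diagonal_apply_eq, Matrix.one_apply_eq]
            beta_reduce
            rw [Sum.elim_inl, inv_one]
            rfl
          · rw [Matrix.diagonal_apply_ne _ (by simpa using h), Matrix.one_apply_ne h]
        · rw [Matrix.fromBlocks_apply₁₂, Matrix.diagonal_apply_ne _ (by simp)]
          rfl
        · rw [Matrix.fromBlocks_apply₂₁, Matrix.diagonal_apply_ne _ (by simp)]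
          rfl
        · rw [Matrix.fromBlocks_apply₂₂]
          by_cases h : i = j
          · subst h
            rw [Matrix.diagonal_apply_eq, Matrix.diagonal_apply_eq]
            rfl
          · rw [Matrix.diagonal_apply_ne _ (by simpa using h), Matrix.diagonal_apply_ne _ h]
      rw [e1, e2, Matrix.fromBlocks_multiply, Matrix.fromBlocks_multiply]
      simp only [Matrix.one_mul, Matrix.mul_one, Matrix.zero_mul, Matrix.mul_zero, add_zero, zero_add]
      rw [Dg_diag g (fun j => (g j)⁻¹) (fun j => mul_inv_cancel _) s]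
    refine ⟨m, hm1, hm2, y, s, hs, t, ht, Dg (fun i => (w i)⁻¹) * u * Dg w,
      Dg (fun i => (w i)⁻¹) * v * Dg w, hback _ (resp_conj w _ _ hlab u hu),
      hback _ (resp_conj w _ _ hlab v hv), ?_, ?_, ?_⟩
    · calc Dg (fun i => (w i)⁻¹) * u * Dg w * (Dg (fun i => (w i)⁻¹) * v * Dg w)
          = Dg (fun i => (w i)⁻¹) * u * (Dg w * Dg (fun i => (w i)⁻¹)) * v * Dg w := by
            simp only [Matrix.mul_assoc]
        _ = Dg (fun i => (w i)⁻¹) * (u * v) * Dg w := by
            rw [d1, Matrix.mul_one]
            simp only [Matrix.mul_assoc]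
        _ = 1 := by rw [huv, Matrix.mul_one, d2]
    · calc Dg (fun i => (w i)⁻¹) * v * Dg w * (Dg (fun i => (w i)⁻¹) * u * Dg w)
          = Dg (fun i => (w i)⁻¹) * v * (Dg w * Dg (fun i => (w i)⁻¹)) * u * Dg w := by
            simp only [Matrix.mul_assoc]
        _ = Dg (fun i => (w i)⁻¹) * (v * u) * Dg w := by
            rw [d1, Matrix.mul_one]
            simp only [Matrix.mul_assoc]
        _ = 1 := by rw [hvu, Matrix.mul_one, d2]
    · generalize Matrix.fromBlocks e 0 0 (Matrix.diagonal fun j => if s j then 1 else 0) = X at *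
      calc Dg (fun i => (w i)⁻¹) * u * Dg w * X * (Dg (fun i => (w i)⁻¹) * v * Dg w)
          = Dg (fun i => (w i)⁻¹) * u * (Dg w * X * Dg (fun i => (w i)⁻¹)) * v * Dg w := by
            simp only [Matrix.mul_assoc]
        _ = Dg (fun i => (w i)⁻¹) * (u * X * v) * Dg w := by
            rw [hX]
            simp only [Matrix.mul_assoc]
        _ = Matrix.diagonal fun i => if t i then 1 else 0 := by
            rw [hconj]
            exact Dg_diag (fun i => (w i)⁻¹) w hww' t
  · have hn : ∀ i : n, False := fun i => hY ⟨c i⟩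
    refine ⟨Empty, inferInstance, inferInstance, fun j => j.elim, fun _ => False,
      fun _ => inferInstance, fun _ => False, fun _ => inferInstance, 1, 1, ?_, ?_, ?_, ?_, ?_⟩
    · rintro (i | i)
      · exact (hn i).elim
      · exact i.elim
    · rintro (i | i)
      · exact (hn i).elim
      · exact i.elim
    · exact Matrix.one_mul 1
    · exact Matrix.one_mul 1
    · ext i
      rcases i with i | i
      · exact (hn i).elim
      · exact i.elim

end Pool.Agent.GLC
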