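import Pool.Agent.Lib.MP_8f66f0_al_GLC.HtdA

/-!
# Project GLn, part C: the hypotheses of part D
-/

set_option autoImplicit false

namespace Pool.Agent.GLC

open Pool.Agent.FL Pool.Agent.BB Pool.Agent.GLA Pool.Agent.GLA2 Pool.Agent.Wald Pool.Agent.Ind
  Pool.Agent.WaldL Pool.Agent.FH Pool.Agent.TreeC Pool.Agent.Hier
open scoped Pointwise Polynomial

section

variable {M Γ : Type} [ShL M] [Group Γ] [ShAct Γ M]

/-- The action on the non-empty cells. -/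
instance actNe : MulAction Γ {σ : Cell M // σ ≠ emp M} where
  smul g σ := ⟨g • σ.1, fun h => σ.2 (by
    have h1 : σ.1 = g⁻¹ • emp M :=
      (inv_smul_smul g σ.1).symm.trans (congrArg (fun t => g⁻¹ • t) h)
    rw [h1]
    exact Cell.ext (Set.smul_set_empty))⟩
  one_smul σ := Subtype.ext (one_smul Γ σ.1)
  mul_smul g h σ := Subtype.ext (mul_smul g h σ.1)

variable {X : ℕ → Set M} (hX : Exh X)

/-- The hypothesis of `S_BB` for the stabilizers. -/
theorem htd_stab {P : Type} [MulAction Γ P]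
    (hKS : ∀ Δ : Subgroup Γ, (∃ a : M, ∀ g ∈ Δ, g • a = a) → KS Δ)
    (hf : ∀ p : P, ∃ m : M, ∀ g : Γ, g • p = p → g • m = m) (p : P) (Δ : Subgroup Γ)
    (hΔ : Δ ≤ MulAction.stabilizer Γ p) : KS Δ := by
  obtain ⟨m, hm⟩ := hf p
  exact hKS Δ ⟨m, fun g hg => hm g (MulAction.mem_stabilizer_iff.1 (hΔ hg))⟩

theorem htd_ne (σ : Cell M) (h : σ.s.Nonempty) : σ ≠ emp M := by
  rintro rfl
  exact Set.not_nonempty_empty h

/-- The label of an object with a non-empty cell. -/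
def htdFl (y : {y : Obj X // (S0 hX).base y ≠ emp M}) : Dsc {σ : Cell M // σ ≠ emp M} :=
  ⟨y.1.cell, y.2⟩

/-- The non-empty cells as the base labels of `S0p`. -/
theorem htd_rep : Rep Γ (S0p hX) (htdFl hX) where
  le g y y' := by
    constructor
    · intro h
      exact Subtype.ext h
    · intro h
      exact congrArg Subtype.val h
  surj _ p := ⟨1, ⟨real hX p.1, p.2⟩, (one_smul Γ p).symm⟩

end

theorem htd (h : BB.S_BB) : S_HTD := by
  intro M Γ _ _ _ X hX hKS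
  have hbR : ∀ D : List ℕ, D ≠ [] → ∀ (L : Type) [CommRing L] [IsDomain L], IsEuc L →
      KTT L Γ (FlagR M D) ∧ SFTT L Γ (FlagR M D) ∧ SFTT L[X] Γ (FlagR M D) := fun D hD =>
    h Γ (FlagR M D) (htd_stab hKS (fix_flagR hD))
  have hbC : ∀ D : List ℕ, D ≠ [] → ∀ (L : Type) [CommRing L] [IsDomain L], IsEuc L →
      KTT L Γ (CFl M D) ∧ SFTT L Γ (CFl M D) ∧ SFTT L[X] Γ (CFl M D) := fun D hD =>
    h Γ (CFl M D) (htd_stab hKS (fix_cfl hD))
  refine ⟨fun L _ _ hL => ⟨⟨htn_of _ ?_, htn_of _ ?_⟩, htn_of _ ?_, htn_of _ ?_⟩,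
    fun L K _ _ _ κ hL hκ => ⟨fun d b hd => ?_, ?_⟩⟩
  · intro Y' B' _ _ S' ds b j hI hne hpos
    obtain ⟨D, hD, fl, hfl⟩ := flpt M Γ (Obj X) (OLab M) Y' B' (Sp hX) Obj.cell OLab.of S' ds b j
      (rich_objSys hX _) (sm_of Γ) hI hne hpos
    exact ht Y' B' (OLab M) L Γ (FlagR M D) S' fl hfl (hbR D hD L hL).2.1
  · intro Y' B' _ _ S' ds b j hI hne hpos
    obtain ⟨D, hD, fl, hfl⟩ := flpt M Γ (Obj X) (OLab M) Y' B' (Sp hX) Obj.cell OLab.of S' ds b j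
      (rich_objSys hX _) (sm_of Γ) hI hne hpos
    exact ht Y' B' (OLab M) L[X] Γ (FlagR M D) S' fl hfl (hbR D hD L hL).2.2
  · intro Y' B' _ _ S' ds b j hI hne hpos
    obtain ⟨D, hD, fl, hfl⟩ := flcell M Γ _ (Dsc (Cell M)) (OLab M) Y' B' (S0p hX)
      (fun y => y.1.cell) OLab.of S' ds b j (fun g y y' => Iff.rfl)
      (rich_sub hX _ _ htd_ne) (sm_of Γ) hI hne hpos
    exact ht Y' B' (OLab M) L Γ (CFl M D) S' fl hfl (hbC D hD L hL).2.1
  · intro Y' B' _ _ S' ds b j hI hne hpos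
    obtain ⟨D, hD, fl, hfl⟩ := flcell M Γ _ (Dsc (Cell M)) (OLab M) Y' B' (S0p hX)
      (fun y => y.1.cell) OLab.of S' ds b j (fun g y y' => Iff.rfl)
      (rich_sub hX _ _ htd_ne) (sm_of Γ) hI hne hpos
    exact ht Y' B' (OLab M) L[X] Γ (CFl M D) S' fl hfl (hbC D hD L hL).2.2
  · obtain ⟨D, hD, fl, hfl⟩ := flpt M Γ (Obj X) (OLab M) _ _ (Sp hX) Obj.cell OLab.of
      ((Sp hX).der d b) _ _ _ (rich_objSys hX _) (sm_of Γ) ((Itd.refl (Sp hX)).der d b)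
      (fun h => by simp at h) (fun p hp => by
        rw [List.nil_append, List.mem_singleton] at hp
        rw [hp]
        exact hd)
    refine ktk_of _ fl hfl (hbR D hD L hL).1 hL κ hκ fun y => ?_
    obtain ⟨m, hm⟩ := fix_flagR (Γ := Γ) hD (fl y)
    exact (hKS _ ⟨m, fun g hg => hm g (hfl.stab' g y (MulAction.mem_stabilizer_iff.1 hg))⟩).1
  · refine ktk_of _ _ (htd_rep hX) (h Γ (Dsc {σ : Cell M // σ ≠ emp M})
      (htd_stab hKS fun p => ?_) L hL).1 hL κ hκ fun y => ?_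
    · obtain ⟨m, hm⟩ := fix_cell (Γ := Γ) p.1 p.2
      exact ⟨m, fun g hg => hm g (congrArg Subtype.val hg)⟩
    · obtain ⟨m, hm⟩ := fix_cell (Γ := Γ) y.1.cell y.2
      exact (hKS _ ⟨m, fun g hg => hm g (MulAction.mem_stabilizer_iff.1 hg)⟩).1

end Pool.Agent.GLC
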