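import Pool.Agent.Lib.MP_8f66f0_al_GLC.HTDefs
import Pool.Agent.Lib.MP_8f66f0_al_Wald.K1Lem

/-! # Project GLn, part C: `KTY` from `KTT` -/

set_option autoImplicit false

namespace Pool.Agent.GLC

open Pool.Agent.FL Pool.Agent.BB Pool.Agent.GLA Pool.Agent.Wald Pool.Agent.Ind

/-- The stabilizer of the base label is the stabilizer of the label in `P`. -/
theorem Rep.stab {Y B C Γ P : Type} [Group Γ] [PartialOrder B] [MulAction Γ B] [OrdAct Γ B]
    [PartialOrder P] [MulAction Γ P] [OrdAct Γ P] {S : FSys Y B C} {fl : Y → P}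
    (hr : Rep Γ S fl) (x : Γ) (y : Y) (h : x • fl y = fl y) : x • S.base y = S.base y := by
  refine le_antisymm ((hr.le x y y).2 (le_of_eq h)) ?_
  have h1 : x⁻¹ • fl y ≤ fl y := le_of_eq (by rw [inv_smul_eq_iff]; exact h.symm)
  have h2 := OrdAct.smul_le x ((hr.le x⁻¹ y y).2 h1)
  rwa [smul_inv_smul] at h2

/-- Conjugation of the elements of the group ring of the stabilizer. -/
theorem conj_map {k Γ : Type} [CommRing k] [Group Γ] {H H' : Subgroup Γ} (g : Γ) (φ : H →* H')
    (hφ : ∀ x : H, (φ x : Γ) = g⁻¹ * x * g) (x : MonoidAlgebra k H) :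
    MonoidAlgebra.mapDomainRingHom k H'.subtype (MonoidAlgebra.mapDomainRingHom k φ x) =
      MonoidAlgebra.single g⁻¹ 1 * MonoidAlgebra.mapDomainRingHom k H.subtype x *
        MonoidAlgebra.single g 1 := by
  induction x using MonoidAlgebra.induction_linear with
  | zero => simp
  | add a b ha hb => rw [map_add, map_add, map_add, ha, hb, mul_add, add_mul]
  | single s r =>
    simp only [MonoidAlgebra.mapDomainRingHom_apply, MonoidAlgebra.mapDomain_single,
      MonoidAlgebra.single_mul_single, one_mul, mul_one, Subgroup.coe_subtype, hφ s]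

theorem kty : S_kty := by
  intro Y B C k Γ P _ _ _ _ _ _ _ _ S fl hr hK K _ κ hκ n _ _ c a b ha hb hab hba
  rcases isEmpty_or_nonempty n with hn | hn
  · have h1 : a = 1 := Subsingleton.elim _ _
    rw [h1, κ.f_one]
  · have hY : Nonempty Y := hn.map c
    refine hK K κ (fun p n _ _ A hA => ?_) n (fun i => fl (c i)) a b
      (fun i j g h => (hr.le g _ _).1 (ha i j g h)) (fun i j g h => (hr.le g _ _).1 (hb i j g h))
      hab hba
    obtain ⟨g, y, rfl⟩ := hr.surj hY p
    have hmem : ∀ x : MulAction.stabilizer Γ (g • fl y),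
        g⁻¹ * (x : Γ) * g ∈ MulAction.stabilizer Γ (S.base y) := by
      intro x
      rw [MulAction.mem_stabilizer_iff]
      apply hr.stab
      have h1 := MulAction.mem_stabilizer_iff.1 x.2
      rw [mul_smul, mul_smul, h1, inv_smul_smul]
    let φ : MulAction.stabilizer Γ (g • fl y) →* MulAction.stabilizer Γ (S.base y) :=
      { toFun := fun x => ⟨g⁻¹ * (x : Γ) * g, hmem x⟩
        map_one' := Subtype.ext (by simp)
        map_mul' := fun x x' => Subtype.ext (by simp [mul_assoc]) }
    have hB : IsUnit (A.map (MonoidAlgebra.mapDomainRingHom k φ)) :=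
      hA.map (RingHom.mapMatrix (MonoidAlgebra.mapDomainRingHom k φ))
    have hA' : IsUnit (A.map (MonoidAlgebra.mapDomainRingHom k
        (MulAction.stabilizer Γ (g • fl y)).subtype)) :=
      hA.map (RingHom.mapMatrix (MonoidAlgebra.mapDomainRingHom k
        (MulAction.stabilizer Γ (g • fl y)).subtype))
    have h1 := hκ y n _ hB
    have hD : ∀ h : Γ, (Matrix.diagonal fun _ : n => MonoidAlgebra.single h (1 : k)) *
        (Matrix.diagonal fun _ : n => MonoidAlgebra.single h⁻¹ (1 : k)) = 1 := by
      intro h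
      rw [Matrix.diagonal_mul_diagonal]
      simp only [MonoidAlgebra.single_mul_single, mul_inv_cancel, mul_one]
      exact Matrix.diagonal_one
    have u1 : IsUnit (Matrix.diagonal fun _ : n => MonoidAlgebra.single g (1 : k)) :=
      ⟨⟨_, _, hD g, by simpa using hD g⁻¹⟩, rfl⟩
    have u2 : IsUnit (Matrix.diagonal fun _ : n => MonoidAlgebra.single g⁻¹ (1 : k)) :=
      ⟨⟨_, _, by simpa using hD g⁻¹, hD g⟩, rfl⟩
    have h2 : (A.map (MonoidAlgebra.mapDomainRingHom k φ)).map (MonoidAlgebra.mapDomainRingHom k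
          (MulAction.stabilizer Γ (S.base y)).subtype) =
        (Matrix.diagonal fun _ : n => MonoidAlgebra.single g⁻¹ (1 : k)) *
          A.map (MonoidAlgebra.mapDomainRingHom k
            (MulAction.stabilizer Γ (g • fl y)).subtype) *
          (Matrix.diagonal fun _ : n => MonoidAlgebra.single g (1 : k)) := by
      ext1 i j
      rw [Matrix.mul_diagonal, Matrix.diagonal_mul]
      exact conj_map g φ (fun _ => rfl) _
    rw [h2, κ.mul _ _ (u2.mul hA') u1, κ.mul _ _ u2 hA', mul_comm, ← mul_assoc,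
      ← κ.mul _ _ u1 u2, hD g, κ.f_one, one_mul] at h1
    exact h1

end Pool.Agent.GLC
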