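import Pool.Agent.Lib.MP_8f66f0_al_GLC.SpecFin
import Pool.Agent.Lib.MP_8f66f0_al_GLC.FlPt
import Pool.Agent.Lib.MP_8f66f0_al_GLC.FlCell
import Pool.Agent.Lib.MP_8f66f0_al_GLC.Ht
import Pool.Agent.Lib.MP_8f66f0_al_GLC.Kty

/-!
# Project GLn, part C: the hypotheses of part D, preparations

`htn_of`: `HTn` from `HT` for all iterated derived systems. `ktk_of`: `KTk` from `KTT` and `KK` for the
stabilizers. `fix_flagR`, `fix_cfl`, `fix_cell`: the stabilizers fix a point.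
-/

set_option autoImplicit false

namespace Pool.Agent.GLC

open Pool.Agent.FL Pool.Agent.BB Pool.Agent.GLA Pool.Agent.GLA2 Pool.Agent.Wald Pool.Agent.Ind
  Pool.Agent.WaldL Pool.Agent.FH Pool.Agent.TreeC Pool.Agent.Hier
open scoped Pointwise

theorem htn_of {k Γ C Y0 B0 : Type} [CommRing k] [Group Γ] [PartialOrder C] [MulAction Γ C]
    [PartialOrder B0] [MulAction Γ B0] (S0 : FSys Y0 B0 C)
    (H : ∀ (Y' B' : Type) [PartialOrder B'] [MulAction Γ B'] (S' : FSys Y' B' C)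
      (ds : List (ℕ × ℕ)) (b : ℕ) (j : Y' → Y0), Itd Γ S0 S' ds b j → ds ≠ [] →
      (∀ p ∈ ds, 1 ≤ p.1) → HT k Γ S') (r : ℕ) : HTn k Γ C r Y0 B0 S0 := by
  have key : ∀ (r : ℕ) (Y' B' : Type) [PartialOrder B'] [MulAction Γ B'] (S' : FSys Y' B' C)
      (ds : List (ℕ × ℕ)) (b : ℕ) (j : Y' → Y0), Itd Γ S0 S' ds b j → (∀ p ∈ ds, 1 ≤ p.1) →
      HTn k Γ C r Y' B' S' := by
    intro r
    induction r with
    | zero => intro Y' B' _ _ S' ds b j _ _; exact trivial
    | succ r ih =>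
      intro Y' B' _ _ S' ds b j hI hds d b' hd
      have h1 := hI.der d b'
      have h2 : ∀ p ∈ ds ++ [(d, b + b')], 1 ≤ p.1 := by
        intro p hp
        rcases List.mem_append.1 hp with hp | hp
        · exact hds p hp
        · rw [List.mem_singleton.1 hp]
          exact hd
      exact ⟨H _ _ _ _ _ _ h1 (fun h => by simp at h) h2, ih _ _ _ _ _ _ h1 h2⟩
  exact key r _ _ S0 [] 0 id (Itd.refl S0) (fun p hp => absurd hp List.not_mem_nil)

theorem ktk_of {L Γ K Y B C P : Type} [CommRing L] [IsDomain L] [Group Γ] [CommGroup K]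
    [PartialOrder B] [MulAction Γ B] [OrdAct Γ B] [PartialOrder C] [MulAction Γ C] [OrdAct Γ C]
    [PartialOrder P] [MulAction Γ P] [OrdAct Γ P] (S : FSys Y B C) (fl : Y → P)
    (hR : Rep Γ S fl) (hK : KTT L Γ P) (hL : IsEuc L) (κ : K1Fun (MonoidAlgebra L Γ) K)
    (hκ : KU κ) (hst : ∀ y, KK (MulAction.stabilizer Γ (S.base y))) : KTk κ S := by
  intro n _ _ c a b h1 h2 h3 h4
  refine kty Y B C L Γ P S fl hR hK K κ (fun y n _ _ A hA => ?_) n c a b h1 h2 h3 h4
  refine hst y L hL K (pullK (MonoidAlgebra.mapDomainRingHom L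
    (MulAction.stabilizer Γ (S.base y)).subtype) κ) (fun g u => ?_) n A hA
  change κ.f (Matrix.map _ _) = 1
  rw [← hκ (g : Γ) u]
  congr 1
  refine Matrix.ext fun i j => ?_
  rw [Matrix.map_apply, Matrix.of_apply, Matrix.of_apply, MonoidAlgebra.mapDomainRingHom_apply,
    MonoidAlgebra.mapDomain_single]
  rfl

/-- The stabilizer of the base label is contained in the stabilizer of the label in `P`. -/
theorem Rep.stab' {Y B C Γ P : Type} [Group Γ] [PartialOrder B] [MulAction Γ B]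
    [PartialOrder P] [MulAction Γ P] [OrdAct Γ P] {S : FSys Y B C} {fl : Y → P}
    (hr : Rep Γ S fl) (x : Γ) (y : Y) (h : x • S.base y = S.base y) : x • fl y = fl y := by
  refine le_antisymm ((hr.le x y y).1 (le_of_eq h)) ?_
  have h1 : x⁻¹ • S.base y ≤ S.base y := le_of_eq (by rw [inv_smul_eq_iff]; exact h.symm)
  have h2 := OrdAct.smul_le x ((hr.le x⁻¹ y y).1 h1)
  rwa [smul_inv_smul] at h2

section Fix

variable {M Γ : Type} [ShL M] [Group Γ] [ShAct Γ M]

theorem fix_flagR {D : List ℕ} (hD : D ≠ []) (p : FlagR M D) :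
    ∃ m : M, ∀ g : Γ, g • p = p → g • m = m := by
  have h1 : p.1.1 ≠ [] := by
    intro h
    have h2 := p.2
    unfold rks at h2
    rw [h] at h2
    exact hD h2.symm
  obtain ⟨m, hm⟩ := exists_fix (G := Γ) p.1 h1
  exact ⟨m, fun g hg => hm g (congrArg Subtype.val hg)⟩

theorem fix_cfl {D : List ℕ} (hD : D ≠ []) (q : CFl M D) :
    ∃ m : M, ∀ g : Γ, g • q = q → g • m = m := by
  obtain ⟨m, hm⟩ := fix_flagR (Γ := Γ) hD q.1.2
  exact ⟨m, fun g hg => hm g (congrArg (fun q : CFl M D => q.1.2) hg)⟩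

theorem fix_cell (σ : Cell M) (hσ : σ ≠ emp M) : ∃ m : M, ∀ g : Γ, g • σ = σ → g • m = m := by
  have h1 : σ.s.Nonempty := by
    rw [Set.nonempty_iff_ne_empty]
    intro h
    exact hσ (Cell.ext h)
  obtain ⟨a, ha⟩ := h1
  refine ⟨a, fun g hg => ?_⟩
  have h2 : g • a ∈ σ.s := by
    have h3 : g • a ∈ (g • σ).s := Set.smul_mem_smul_set ha
    rwa [hg] at h3
  have h4 : ShL.ht (g • a) = ShL.ht a := ShAct.ht_smul g a
  rcases σ.ch _ h2 _ ha with h5 | h5
  · rcases lt_or_eq_of_le h5 with h6 | h6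
    · exact absurd h4 (ne_of_lt (ShL.ht_lt _ _ h6))
    · exact h6
  · rcases lt_or_eq_of_le h5 with h6 | h6
    · exact absurd h4 (ne_of_gt (ShL.ht_lt _ _ h6))
    · exact h6.symm

end Fix

end Pool.Agent.GLC
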