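import Pool.Agent.Lib.MP_8f66f0_al_GLC.Fin
import Pool.Agent.Lib.MP_8f66f0_al_GLA.A2Ext

/-!
# PROJECT GLn, part C: the objects

`Obj X`: a cell (possibly empty), a flag of labels which are supported on the cell, and a time for each
label. The last time bounds the size. Phases: `rk - 1`.
-/

set_option autoImplicit false

namespace Pool.Agent.GLC

open Pool.Agent.GLA

variable {M : Type} [ShL M]

/-- The label `P` is supported on the cell. -/
def Spt (P : Set (M × M)) (σ : Cell M) : Prop :=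
  ∀ p ∈ P, p.2 ∈ σ.s ∧ ∀ a ∈ σ.s, a < p.2 → a ≤ p.1

theorem nest_trans {P Q R : Lab M} (h1 : Lab.nest P Q) (h2 : Lab.nest Q R) : Lab.nest P R := by
  refine ⟨h2.1.trans h1.1, fun r hr => ?_⟩
  obtain ⟨q, hq, e1, e2⟩ := h2.2 r hr
  obtain ⟨p, hp, e3, e4⟩ := h1.2 q hq
  exact ⟨p, hp, e3.trans e1, e4.trans e2⟩

instance : IsTrans (Lab M) Lab.nest := ⟨fun _ _ _ => nest_trans⟩

/-- The time of death of a list of labels with times. -/
def dth (l : List (Lab M × ℕ)) : ℕ := l.getLast?.elim 0 fun q => q.2 + 1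

theorem dth_nil : dth ([] : List (Lab M × ℕ)) = 0 := rfl

theorem dth_append (l : List (Lab M × ℕ)) (q : Lab M × ℕ) : dth (l ++ [q]) = q.2 + 1 := by
  rw [dth, List.getLast?_append]
  simp

/-- The objects. -/
@[ext] structure Obj (X : ℕ → Set M) where
  /-- the cell -/
  cell : Cell M
  /-- the labels and the times -/
  l : List (Lab M × ℕ)
  ch : (l.map Prod.fst).Pairwise Lab.nest
  spt : ∀ q ∈ l, Spt q.1.1 cell
  sz : cell.s ⊆ X (dth l)
  szu : ∀ q ∈ l, ∀ p ∈ q.1.1, p.1 ∈ X (dth l)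

namespace Obj

variable {X : ℕ → Set M}

/-- The slots. -/
noncomputable def A (y : Obj X) : Finset (ℕ × ℕ) := by
  classical exact (y.l.map fun q => (q.1.rk - 1, q.2)).toFinset

theorem mem_A {y : Obj X} {s : ℕ × ℕ} : s ∈ y.A ↔ ∃ q ∈ y.l, (q.1.rk - 1, q.2) = s := by
  classical
  unfold A
  rw [List.mem_toFinset, List.mem_map]

theorem rk_inj {y : Obj X} {q q' : Lab M × ℕ} (hq : q ∈ y.l) (hq' : q' ∈ y.l)
    (h : q.1.rk = q'.1.rk) : q = q' := by
  have h1 : y.l.Pairwise fun a b => a = b ∨ a.1.rk ≠ b.1.rk := by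
    have := y.ch
    rw [List.pairwise_map] at this
    exact this.imp fun h => Or.inr (ne_of_gt h.1)
  have h0 : Std.Symm fun a b : Lab M × ℕ => a = b ∨ a.1.rk ≠ b.1.rk :=
    ⟨fun a b hab => hab.imp Eq.symm Ne.symm⟩
  have h2 := @List.Pairwise.forall_of_forall _ (fun a b : Lab M × ℕ => a = b ∨ a.1.rk ≠ b.1.rk) _
    h0 (fun a _ => Or.inl rfl) h1 _ hq _ hq'
  exact h2.resolve_right fun h3 => h3 h

theorem ph_inj {y : Obj X} {q q' : Lab M × ℕ} (hq : q ∈ y.l) (hq' : q' ∈ y.l)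
    (h : q.1.rk - 1 = q'.1.rk - 1) : q = q' := by
  refine rk_inj hq hq' ?_
  have h1 := Lab.two_le_rk q.1
  have h2 := Lab.two_le_rk q'.1
  omega

/-- The label of the phase `d`. -/
noncomputable def lab (y : Obj X) (d : ℕ) : OLab M :=
  (y.l.map Prod.fst).find? fun P => decide (P.rk - 1 = d)

theorem lab_eq_of_iff {y : Obj X} {d : ℕ} {P : Lab M} :
    y.lab d = OLab.of P ↔ (∃ n, (P, n) ∈ y.l) ∧ P.rk - 1 = d := by
  constructor
  · intro h
    have h1 := List.find?_some (show List.find? _ _ = some P from h)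
    have h2 := List.mem_of_find?_eq_some (show List.find? _ _ = some P from h)
    rw [List.mem_map] at h2
    obtain ⟨q, hq, rfl⟩ := h2
    exact ⟨⟨q.2, hq⟩, of_decide_eq_true h1⟩
  · rintro ⟨⟨n, hn⟩, rfl⟩
    have h1 : (List.find? (fun Q : Lab M => decide (Q.rk - 1 = P.rk - 1))
        (y.l.map Prod.fst)).isSome = true := by
      rw [List.find?_isSome]
      exact ⟨P, List.mem_map.2 ⟨(P, n), hn, rfl⟩, decide_eq_true rfl⟩
    obtain ⟨Q, hQ⟩ := Option.isSome_iff_exists.1 h1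
    have h2 := List.find?_some hQ
    have h3 := List.mem_of_find?_eq_some hQ
    rw [List.mem_map] at h3
    obtain ⟨q, hq, rfl⟩ := h3
    have h4 := ph_inj hq hn (of_decide_eq_true h2)
    rw [h4] at hQ
    exact hQ

theorem olab_cases (a : OLab M) : a = (none : Option (Lab M)) ∨ ∃ P, a = OLab.of P := by
  cases a with
  | none => exact Or.inl rfl
  | some P => exact Or.inr ⟨P, rfl⟩

theorem lab_congr {y y' : Obj X} {d : ℕ}
    (h : ∀ P : Lab M, P.rk - 1 = d → ((∃ n, (P, n) ∈ y.l) ↔ ∃ n, (P, n) ∈ y'.l)) :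
    y.lab d = y'.lab d := by
  have h1 : ∀ P, y.lab d = OLab.of P ↔ y'.lab d = OLab.of P := by
    intro P
    rw [lab_eq_of_iff, lab_eq_of_iff]
    constructor
    · rintro ⟨h2, h3⟩
      exact ⟨(h P h3).1 h2, h3⟩
    · rintro ⟨h2, h3⟩
      exact ⟨(h P h3).2 h2, h3⟩
  rcases olab_cases (y.lab d) with h2 | ⟨P, h2⟩
  · rcases olab_cases (y'.lab d) with h3 | ⟨Q, h3⟩
    · exact h2.trans h3.symm
    · exact ((h1 Q).2 h3).trans h3.symm
  · exact h2.trans ((h1 P).1 h2).symm

/-- Change of the times. -/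
noncomputable def chg (φ : ℕ → ℕ → ℕ) (l : List (Lab M × ℕ)) : List (Lab M × ℕ) :=
  l.map fun q => (q.1, φ (q.1.rk - 1) q.2)

theorem chg_fst (φ : ℕ → ℕ → ℕ) (l : List (Lab M × ℕ)) :
    (chg φ l).map Prod.fst = l.map Prod.fst := by
  unfold chg
  rw [List.map_map]
  rfl

theorem dth_chg {φ : ℕ → ℕ → ℕ} (hφ : FL.Gd φ) (l : List (Lab M × ℕ)) : dth l ≤ dth (chg φ l) := by
  rcases List.eq_nil_or_concat l with rfl | ⟨l', q, rfl⟩
  · exact Nat.zero_le _
  · rw [List.concat_eq_append]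
    unfold chg
    rw [List.map_append, List.map_singleton, dth_append, dth_append]
    exact Nat.succ_le_succ (hφ.le _ _)

/-- Change of the times of an object. -/
noncomputable def reG (hX : Monotone X) (φ : ℕ → ℕ → ℕ) (hφ : FL.Gd φ) (y : Obj X) : Obj X where
  cell := y.cell
  l := chg φ y.l
  ch := by rw [chg_fst]; exact y.ch
  spt := by
    intro q hq
    unfold chg at hq
    rw [List.mem_map] at hq
    obtain ⟨q', hq', rfl⟩ := hq
    exact y.spt q' hq'
  sz := y.sz.trans (hX (dth_chg hφ _))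
  szu := by
    intro q hq
    unfold chg at hq
    rw [List.mem_map] at hq
    obtain ⟨q', hq', rfl⟩ := hq
    intro p hp
    exact hX (dth_chg hφ _) (y.szu q' hq' p hp)

open Classical in
/-- Change of the times. -/
noncomputable def re (hX : Monotone X) (φ : ℕ → ℕ → ℕ) (y : Obj X) : Obj X :=
  if hφ : FL.Gd φ then reG hX φ hφ y else y

theorem re_eq (hX : Monotone X) {φ : ℕ → ℕ → ℕ} (hφ : FL.Gd φ) (y : Obj X) :
    re hX φ y = reG hX φ hφ y := dif_pos hφ

theorem obj_fin (hX : Exh X) (h : ℕ) : {y : Obj X | ∀ s ∈ y.A, s.2 < h}.Finite := by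
  classical
  have h1 := cells_fin (hX.fin h)
  have h2 := lists_fin ((labs_fin (hX.adm h).st (hX.fin h)).prod (Set.finite_Iio h))
  refine Set.Finite.of_finite_image (f := fun y : Obj X => (y.cell, y.l))
    ((h1.prod h2).subset ?_) fun y _ y' _ hyy => ?_
  · rintro _ ⟨y, hy, rfl⟩
    have h3 : ∀ q ∈ y.l, q.2 < h := fun q hq => hy _ (mem_A.2 ⟨q, hq, rfl⟩)
    have h4 : dth y.l ≤ h := by
      rcases List.eq_nil_or_concat y.l with h5 | ⟨l', q, h5⟩
      · rw [h5]
        exact Nat.zero_le _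
      · rw [h5, List.concat_eq_append, dth_append]
        refine h3 q ?_
        rw [h5, List.concat_eq_append]
        exact List.mem_append_right _ (List.mem_singleton_self q)
    refine ⟨y.sz.trans (hX.mono h4), ?_, fun q hq => ⟨fun p hp => ⟨?_, ?_⟩, h3 q hq⟩⟩
    · have h5 := y.ch
      rw [List.pairwise_map] at h5
      exact h5.imp fun {a b} hab hne => by
        rw [hne] at hab
        exact lt_irrefl _ hab.1
    · exact hX.mono h4 (y.szu q hq p hp)
    · exact hX.mono h4 (y.sz (y.spt q hq p hp).1)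
  · simp only [Prod.mk.injEq] at hyy
    exact Obj.ext hyy.1 hyy.2

end Obj

end Pool.Agent.GLC
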