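import Pool.Agent.Lib.MP_8f66f0_al_GLC.Obj

/-!
# PROJECT GLn, part C: a new phase `1`

The list of the labels of rank `≥ 3` of an object with such a label can be extended by a label of rank `2`
with an arbitrarily large time.
-/

set_option autoImplicit false

namespace Pool.Agent.GLC

open Pool.Agent.GLA

variable {M : Type} [ShL M]

/-- A label of rank `2` which may follow the label `Q`. -/
theorem exists_hyp (Q : Lab M) (hQ : 3 ≤ Q.rk) : ∃ P : Lab M, P.rk = 2 ∧ Lab.nest Q P ∧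
    ∃ c : M, ∀ p ∈ P.1, ∃ k : ℤ, p.1 = (shE M ^ k) c := by
  obtain ⟨p, hp⟩ := Q.2.ne
  obtain ⟨c, h1, h2, h3⟩ := ShL.cover p.1 p.2 (Q.2.lt p hp)
  have h4 : sh p.2 ≤ c := (lab_lower Q.2 hp).trans h1
  have hO : ∀ k : ℤ, ∀ a : M, GLA2.shz k a = (shE M ^ k) a := by
    intro k a
    induction k using Int.induction_on with
    | zero => simp [GLA2.shz_zero]
    | succ i ih =>
      rw [GLA2.shz_succ', ih, add_comm (i : ℤ) 1, zpow_add, Equiv.Perm.mul_apply, zpow_one,
        shE_apply]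
    | pred i ih =>
      have e1 : GLA2.shz (-(i : ℤ)) a = sh (GLA2.shz (-(i : ℤ) - 1) a) := by
        rw [← GLA2.shz_succ']
        congr 1
        ring
      have e2 : (shE M ^ (-(i : ℤ))) a = sh ((shE M ^ (-(i : ℤ) - 1)) a) := by
        rw [← shE_apply, ← Equiv.Perm.mul_apply, ← zpow_one_add]
        congr 2
        ring
      rw [e1, e2] at ih
      exact (shE M).injective ih
  refine ⟨⟨GLA2.orb (c, p.2), GLA2.isLab_orb h2 h4⟩, ?_, ⟨?_, ?_⟩, c, ?_⟩
  · change GLA.rk (GLA2.orb (c, p.2)) = 2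
    rw [GLA2.rk_orb h2 h4]
    unfold GLA2.wt
    simp only
    omega
  · change GLA.rk (GLA2.orb (c, p.2)) < Q.rk
    rw [GLA2.rk_orb h2 h4]
    unfold GLA2.wt
    simp only
    omega
  · rintro _ ⟨k, rfl⟩
    refine ⟨((shE M ^ k) p.1, (shE M ^ k) p.2), (IsLab.zpow Q.2 k p).2 hp, ?_, ?_⟩
    · rw [GLA2.shp_snd, hO]
    · rw [GLA2.shp_fst]
      simp only
      rw [← hO]
      exact (GLA2.shz k).monotone h1
  · rintro _ ⟨k, rfl⟩
    exact ⟨k, by rw [GLA2.shp_fst, hO]⟩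

namespace Obj

variable {X : ℕ → Set M}

/-- Extension of a prefix of the flag. -/
theorem exists_ext (hX : Exh X) (y : Obj X) (l : List (Lab M × ℕ)) (hl : l.Sublist y.l)
    (P : Lab M) (hP : ∀ q ∈ l, Lab.nest q.1 P) (hs : Spt P.1 y.cell) (m : ℕ)
    (hc : ∃ c : M, ∀ p ∈ P.1, ∃ k : ℤ, p.1 = (shE M ^ k) c) :
    ∃ (y' : Obj X) (n : ℕ), m ≤ n ∧ y'.cell = y.cell ∧ y'.l = l ++ [(P, n)] := by
  obtain ⟨c, hc⟩ := hc
  obtain ⟨i, hi⟩ := hX.exh c
  have h1 : X (dth y.l) ⊆ X (m + dth y.l + i + 1) := hX.mono (by omega)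
  have h2 : X i ⊆ X (m + dth y.l + i + 1) := hX.mono (by omega)
  refine ⟨⟨y.cell, l ++ [(P, m + dth y.l + i)], ?_, ?_, ?_, ?_⟩, m + dth y.l + i, by omega, rfl,
    rfl⟩
  · rw [List.map_append, List.pairwise_append]
    refine ⟨y.ch.sublist (hl.map _), List.pairwise_singleton _ _, ?_⟩
    intro a ha b hb
    rw [List.mem_map] at ha
    obtain ⟨q, hq, rfl⟩ := ha
    rw [List.map_singleton, List.mem_singleton] at hb
    rw [hb]
    exact hP q hq
  · intro q hq
    rw [List.mem_append, List.mem_singleton] at hq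
    rcases hq with hq | rfl
    · exact y.spt q (hl.subset hq)
    · exact hs
  · rw [dth_append]
    exact y.sz.trans h1
  · intro q hq p hp
    rw [dth_append]
    rw [List.mem_append, List.mem_singleton] at hq
    rcases hq with hq | rfl
    · exact h1 (y.szu q (hl.subset hq) p hp)
    · obtain ⟨k, hk⟩ := hc p hp
      rw [hk]
      exact (ShSt.zpow (hX.adm _).st k c).2 (h2 hi)

theorem ph1 (hX : Exh X) (y : Obj X) (hy : ∃ s ∈ y.A, 2 ≤ s.1) (m : ℕ) :
    ∃ y' : Obj X, (∃ n, m ≤ n ∧ (1, n) ∈ y'.A) ∧ (∀ s : ℕ × ℕ, 2 ≤ s.1 → (s ∈ y'.A ↔ s ∈ y.A)) ∧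
      y'.cell = y.cell ∧ ∀ d, 2 ≤ d → y'.lab d = y.lab d := by
  classical
  set l : List (Lab M × ℕ) := y.l.filter fun q => decide (2 ≤ q.1.rk - 1) with hl
  have hmem : ∀ q, q ∈ l ↔ q ∈ y.l ∧ 2 ≤ q.1.rk - 1 := by
    intro q
    rw [hl, List.mem_filter, decide_eq_true_iff]
  have hsub : l.Sublist y.l := List.filter_sublist
  obtain ⟨s, hs, hs2⟩ := hy
  obtain ⟨q0, hq0, rfl⟩ := mem_A.1 hs
  have hne : l ≠ [] := fun h => by
    have := (hmem q0).2 ⟨hq0, hs2⟩
    rw [h] at this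
    exact List.not_mem_nil this
  rcases List.eq_nil_or_concat l with h | ⟨l', q1, h⟩
  · exact absurd h hne
  rw [List.concat_eq_append] at h
  have hq1 : q1 ∈ l := by
    rw [h]
    exact List.mem_append_right _ (List.mem_singleton_self _)
  have h3 := ((hmem q1).1 hq1).2
  obtain ⟨P, hP2, hPn, hc⟩ := exists_hyp q1.1 (by omega)
  have hnest : ∀ q ∈ l, Lab.nest q.1 P := by
    intro q hq
    rw [h, List.mem_append, List.mem_singleton] at hq
    rcases hq with hq | rfl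
    · refine nest_trans ?_ hPn
      have h4 := y.ch.sublist (hsub.map Prod.fst)
      rw [h, List.map_append, List.pairwise_append] at h4
      exact h4.2.2 _ (List.mem_map.2 ⟨q, hq, rfl⟩) _ (List.mem_map.2 ⟨q1,
        List.mem_singleton_self _, rfl⟩)
    · exact hPn
  have hspt : Spt P.1 y.cell := by
    intro p hp
    obtain ⟨p', hp', e1, e2⟩ := hPn.2 p hp
    have h4 := y.spt q1 (hsub.subset hq1) p' hp'
    rw [← e1]
    exact ⟨h4.1, fun a ha hlt => (h4.2 a ha hlt).trans e2⟩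
  obtain ⟨y', n, hn, hcell, hl'⟩ := exists_ext hX y l hsub P hnest hspt m hc
  refine ⟨y', ⟨n, hn, mem_A.2 ⟨(P, n), ?_, ?_⟩⟩, fun s hs => ?_, hcell, fun d hd => ?_⟩
  · rw [hl']
    exact List.mem_append_right _ (List.mem_singleton_self _)
  · simp only [hP2]
  · rw [mem_A, mem_A, hl']
    constructor
    · rintro ⟨q, hq, rfl⟩
      rw [List.mem_append, List.mem_singleton] at hq
      rcases hq with hq | rfl
      · exact ⟨q, hsub.subset hq, rfl⟩
      · simp only [hP2] at hs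
        omega
    · rintro ⟨q, hq, rfl⟩
      exact ⟨q, List.mem_append_left _ ((hmem q).2 ⟨hq, hs⟩), rfl⟩
  · refine lab_congr fun Q hQ => ?_
    rw [hl']
    constructor
    · rintro ⟨k, hk⟩
      rw [List.mem_append, List.mem_singleton] at hk
      rcases hk with hk | hk
      · exact ⟨k, hsub.subset hk⟩
      · rw [Prod.mk.injEq] at hk
        rw [hk.1, hP2] at hQ
        omega
    · rintro ⟨k, hk⟩
      exact ⟨k, List.mem_append_left _ ((hmem _).2 ⟨hk, by simp only; omega⟩)⟩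

end Obj

end Pool.Agent.GLC
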