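import Pool.Agent.Lib.MP_8f66f0_al_GLC.HTDefs
import Pool.Agent.Lib.MP_8f66f0_al_GLA.A2Sup

/-!
# Project GLn, part C: the base labels of the iterated derived systems are flags of labels

`Rich S cell sm`: the objects of `S` are cells with nested labels (supported on the cell) for their
phases (phase = rank - 1), and all flags with all times occur (the last time may be larger).
-/

set_option autoImplicit false

namespace Pool.Agent.GLC

open Pool.Agent.FL Pool.Agent.BB Pool.Agent.GLA Pool.Agent.GLA2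
open scoped Pointwise

section

variable {M Y B C : Type} [ShL M]

/-- The objects are cells with flags and times. -/
structure Rich (S : FSys Y B C) (cell : Y → Cell M) (sm : Lab M → C) : Prop where
  lab : ∀ y, ∀ s ∈ S.A y, ∃ P : Lab M, S.lab y s.1 = sm P ∧ P.rk = s.1 + 1 ∧ Supp (cell y).s P.1
  nest : ∀ y, ∀ s ∈ S.A y, ∀ t ∈ S.A y, t.1 < s.1 → ∀ P Q : Lab M, S.lab y s.1 = sm P →
    S.lab y t.1 = sm Q → Lab.nest P Q
  rich : ∀ (σ : Cell M) (l : List (Lab M × ℕ)) (P : Lab M) (m : ℕ),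
    (l.map Prod.fst ++ [P]).IsChain Lab.nest → (∀ p ∈ l, Supp σ.s p.1.1) → Supp σ.s P.1 →
    ∃ (y : Y) (n : ℕ), m ≤ n ∧ cell y = σ ∧
      (∀ s, s ∈ S.A y ↔ (∃ p ∈ l, s = (p.1.rk - 1, p.2)) ∨ s = (P.rk - 1, n)) ∧
      (∀ p ∈ l, S.lab y (p.1.rk - 1) = sm p.1) ∧ S.lab y (P.rk - 1) = sm P

/-- `sm` is an equivariant order embedding. -/
structure Sm (Γ : Type) [Group Γ] [ShAct Γ M] [PartialOrder C] [MulAction Γ C] (sm : Lab M → C) :
    Prop where
  le : ∀ P Q : Lab M, sm P ≤ sm Q ↔ P ≤ Q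
  smul : ∀ (g : Γ) (P : Lab M), sm (g • P) = g • sm P

variable (M) in
/-- Cells with a flag of ranks `D` which is supported on the cell. -/
def CFl (D : List ℕ) : Type :=
  {q : Cell M × FlagR M D // ∀ P ∈ q.2.1.1, Supp q.1.s P.1}

noncomputable instance (Γ : Type) [Group Γ] [ShAct Γ M] (D : List ℕ) : MulAction Γ (CFl M D) where
  smul g q := ⟨(g • q.1.1, g • q.1.2), by
    intro P hP
    change P ∈ (g • q.1.2.1).1 at hP
    rw [Flag.smul_val, List.mem_map] at hP
    obtain ⟨Q, hQ, rfl⟩ := hP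
    exact (q.2 Q hQ).smul g⟩
  one_smul q := Subtype.ext (one_smul Γ q.1)
  mul_smul g h q := Subtype.ext (mul_smul g h q.1)

instance (D : List ℕ) : TogglePoset (CFl M D) := discToggle (CFl M D)

noncomputable instance (Γ : Type) [Group Γ] [ShAct Γ M] (D : List ℕ) : ToggleAct Γ (CFl M D) :=
  discToggleAct Γ (CFl M D)

theorem cfl_le {D : List ℕ} (x y : CFl M D) : x ≤ y ↔ x = y := Iff.rfl

end

/-! ### Statements -/

/-- The systems without base labels. PROOF. If `Y` is empty take `D = [2]`, `fl` the empty map.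
Otherwise take `y₁ : Y`; `R τ (j y₁) = d` for `(d, τ)` in `ds`, `R` is antitone in the time, so
`d > d'`, `(d, τ)`, `(d', τ')` in `ds` imply `τ < τ'`. `D` = the phases of `ds`, without repetitions,
decreasing, plus one; `fl y` = the list of the labels of `j y` for these phases (they are alive at the
time `τ`, so they are slots; `Rich.lab`, `Rich.nest`). `Rep.le`: `Itd.le`, `Sm`. `Rep.surj`: for
`φ = [Q₁, …, Q_r]` let `σ` be the cell of the members `p.2`, `p` in `Q₁` (the others are nested in `Q₁`,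
so supported), times `t_i` = the largest `τ` with `(Q_i.rk - 1, τ)` in `ds`: `Rich.rich` gives an object
with `R τ = d` for all `(d, τ)` in `ds`, so it is `j y` (`Itd.rng`), and `fl y = φ`. -/
def S_flpt : Prop :=
  ∀ (M Γ Y C Y' B' : Type) [Group Γ] [ShL M] [ShAct Γ M] [PartialOrder C] [MulAction Γ C]
    [PartialOrder B'] [MulAction Γ B'] (S : FSys Y Unit C) (cell : Y → Cell M)
    (sm : Lab M → C) (S' : FSys Y' B' C) (ds : List (ℕ × ℕ)) (b : ℕ) (j : Y' → Y),
    Rich S cell sm → Sm Γ sm → Itd Γ S S' ds b j → ds ≠ [] → (∀ p ∈ ds, 1 ≤ p.1) →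
    ∃ (D : List ℕ) (_ : D ≠ []) (fl : Y' → FlagR M D), Rep Γ S' fl

/-- The systems whose base label is the cell (discrete order). PROOF. As before, with the discrete poset
`CFl M D`; `Rep.le`: comparable labels supported on the same cell are equal (`eq_of_supp`). -/
def S_flcell : Prop :=
  ∀ (M Γ Y B C Y' B' : Type) [Group Γ] [ShL M] [ShAct Γ M] [PartialOrder B] [MulAction Γ B]
    [PartialOrder C] [MulAction Γ C] [PartialOrder B'] [MulAction Γ B'] (S : FSys Y B C)
    (cell : Y → Cell M) (sm : Lab M → C) (S' : FSys Y' B' C) (ds : List (ℕ × ℕ)) (b : ℕ)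
    (j : Y' → Y), (∀ (g : Γ) y y', g • S.base y ≤ S.base y' ↔ g • cell y = cell y') →
    Rich S cell sm → Sm Γ sm → Itd Γ S S' ds b j → ds ≠ [] → (∀ p ∈ ds, 1 ≤ p.1) →
    ∃ (D : List ℕ) (_ : D ≠ []) (fl : Y' → CFl M D), Rep Γ S' fl

end Pool.Agent.GLC
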