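import Pool.Agent.Lib.MP_8f66f0_al_GLC.Syst
import Pool.Agent.Lib.MP_8f66f0_al_GLC.SpecFl

/-!
# PROJECT GLn, part C: the systems of the objects are rich
-/

set_option autoImplicit false

namespace Pool.Agent.GLC

open Pool.Agent.GLA Pool.Agent.FL Pool.Agent.GLA2

variable {M : Type} [ShL M] {X : ℕ → Set M}

theorem sm_of (Γ : Type) [Group Γ] [ShAct Γ M] : Sm (M := M) Γ (OLab.of (M := M)) where
  le _ _ := Iff.rfl
  smul _ _ := rfl

/-- The set of the first components of a label is contained in some `X i`. -/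
theorem exists_bound (P : Lab M) (hX : Exh X) : ∃ i, ∀ p ∈ P.1, p.1 ∈ X i := by
  have h1 := nrm_fin P.2
  have h2 : ∃ i, ∀ p ∈ nrm P.1, p.1 ∈ X i := by
    have : ∀ S : Set (M × M), S.Finite → ∃ i, ∀ p ∈ S, p.1 ∈ X i := by
      intro S hS
      induction S, hS using Set.Finite.induction_on with
      | empty => exact ⟨0, fun p hp => absurd hp (Set.notMem_empty p)⟩
      | insert _ _ ih =>
        rename_i a S _ _
        obtain ⟨i, hi⟩ := ih
        obtain ⟨j, hj⟩ := hX.exh a.1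
        refine ⟨i ⊔ j, fun p hp => ?_⟩
        rcases hp with rfl | hp
        · exact hX.mono le_sup_right hj
        · exact hX.mono le_sup_left (hi p hp)
    exact this _ h1
  obtain ⟨i, hi⟩ := h2
  refine ⟨i, fun p hp => ?_⟩
  obtain ⟨k, h3, h4⟩ := exists_norm p.2
  have h5 := hi ((shE M ^ k) p.1, (shE M ^ k) p.2) ⟨(IsLab.zpow P.2 k p).2 hp, h3, h4⟩
  exact (ShSt.zpow (hX.adm i).st k p.1).1 h5

theorem exists_bound_cell (σ : Cell M) (hX : Exh X) : ∃ i, σ.s ⊆ X i := by
  have h1 : {a | a ∈ σ.s ∧ 0 ≤ ht a ∧ ht a < per M}.Finite := by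
    refine Set.Finite.of_finite_image (f := ht) ((Set.finite_Ico (0 : ℤ) (per M)).subset ?_) ?_
    · rintro _ ⟨a, ha, rfl⟩
      exact ha.2
    · intro a ha b hb h
      rcases σ.ch a ha.1 b hb.1 with h2 | h2
      · rcases lt_or_eq_of_le h2 with h3 | h3
        · exact absurd h (ne_of_lt (ShL.ht_lt _ _ h3))
        · exact h3
      · rcases lt_or_eq_of_le h2 with h3 | h3
        · exact absurd h (ne_of_gt (ShL.ht_lt _ _ h3))
        · exact h3.symm
  have h2 : ∃ i, {a | a ∈ σ.s ∧ 0 ≤ ht a ∧ ht a < per M} ⊆ X i := by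
    have : ∀ S : Set M, S.Finite → ∃ i, S ⊆ X i := by
      intro S hS
      induction S, hS using Set.Finite.induction_on with
      | empty => exact ⟨0, Set.empty_subset _⟩
      | insert _ _ ih =>
        rename_i a S _ _
        obtain ⟨i, hi⟩ := ih
        obtain ⟨j, hj⟩ := hX.exh a
        refine ⟨i ⊔ j, fun p hp => ?_⟩
        rcases hp with rfl | hp
        · exact hX.mono le_sup_right hj
        · exact hX.mono le_sup_left (hi hp)
    exact this _ h1
  obtain ⟨i, hi⟩ := h2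
  refine ⟨i, fun a ha => ?_⟩
  obtain ⟨k, h3, h4⟩ := exists_norm a
  exact (ShSt.zpow (hX.adm i).st k a).1 (hi ⟨(ShSt.zpow σ.st k a).2 ha, h3, h4⟩)

theorem exists_bound_list (l : List (Lab M)) (hX : Exh X) : ∃ i, ∀ P ∈ l, ∀ p ∈ P.1, p.1 ∈ X i := by
  induction l with
  | nil => exact ⟨0, fun P hP => absurd hP List.not_mem_nil⟩
  | cons P l ih =>
    obtain ⟨i, hi⟩ := ih
    obtain ⟨j, hj⟩ := exists_bound P hX
    refine ⟨i ⊔ j, fun Q hQ => ?_⟩
    rcases List.mem_cons.1 hQ with rfl | hQ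
    · exact fun p hp => hX.mono le_sup_right (hj p hp)
    · exact fun p hp => hX.mono le_sup_left (hi Q hQ p hp)

/-- All flags with all times occur. -/
theorem exists_obj (hX : Exh X) (σ : Cell M) (l : List (Lab M × ℕ)) (P : Lab M) (m : ℕ)
    (h1 : (l.map Prod.fst ++ [P]).IsChain Lab.nest) (h2 : ∀ p ∈ l, Spt p.1.1 σ)
    (h3 : Spt P.1 σ) : ∃ (y : Obj X) (n : ℕ), m ≤ n ∧ y.cell = σ ∧ y.l = l ++ [(P, n)] := by
  obtain ⟨i, hi⟩ := exists_bound_cell σ hX
  obtain ⟨j, hj⟩ := exists_bound_list (l.map Prod.fst ++ [P]) hX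
  have e1 : X i ⊆ X (m + i + j + 1) := hX.mono (by omega)
  have e2 : X j ⊆ X (m + i + j + 1) := hX.mono (by omega)
  refine ⟨⟨σ, l ++ [(P, m + i + j)], ?_, ?_, ?_, ?_⟩, m + i + j, by omega, rfl, rfl⟩
  · rw [List.map_append, List.map_singleton]
    exact h1.pairwise
  · intro q hq
    rw [List.mem_append, List.mem_singleton] at hq
    rcases hq with hq | rfl
    · exact h2 q hq
    · exact h3
  · rw [dth_append]
    exact hi.trans e1
  · intro q hq p hp
    rw [dth_append]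
    refine e2 (hj q.1 ?_ p hp)
    rw [List.mem_append, List.mem_singleton] at hq
    rw [List.mem_append, List.mem_singleton]
    rcases hq with hq | rfl
    · exact Or.inl (List.mem_map.2 ⟨q, hq, rfl⟩)
    · exact Or.inr rfl

theorem rich_objSys (hX : Exh X) {B : Type} (f : Cell M → B) :
    Rich (objSys hX f) Obj.cell (OLab.of (M := M)) where
  lab := by
    intro y s hs
    obtain ⟨q, hq, rfl⟩ := Obj.mem_A.1 hs
    have := Lab.two_le_rk q.1
    exact ⟨q.1, Obj.lab_eq_of_iff.2 ⟨⟨q.2, hq⟩, rfl⟩, by simp only; omega, y.spt q hq⟩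
  nest := by
    intro y s hs t ht hts P Q hP hQ
    obtain ⟨⟨n, hn⟩, h1⟩ := Obj.lab_eq_of_iff.1 hP
    obtain ⟨⟨n', hn'⟩, h2⟩ := Obj.lab_eq_of_iff.1 hQ
    have h3 : y.l.Pairwise fun a b => Lab.nest a.1 b.1 := by
      have := y.ch
      rwa [List.pairwise_map] at this
    have h0 : Std.Symm fun a b : Lab M × ℕ => a = b ∨ Lab.nest a.1 b.1 ∨ Lab.nest b.1 a.1 :=
      ⟨fun a b hab => hab.imp Eq.symm Or.symm⟩
    have h4 := @List.Pairwise.forall_of_forall _
      (fun a b : Lab M × ℕ => a = b ∨ Lab.nest a.1 b.1 ∨ Lab.nest b.1 a.1) _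
      h0 (fun a _ => Or.inl rfl) (h3.imp fun h => Or.inr (Or.inl h)) _ hn _ hn'
    rcases h4 with h4 | h4 | h4
    · rw [Prod.mk.injEq] at h4
      rw [h4.1] at h1
      omega
    · exact h4
    · have := h4.1
      simp only at this
      omega
  rich := by
    intro σ l P m h1 h2 h3
    obtain ⟨y, n, hn, hc, hl⟩ := exists_obj hX σ l P m h1 h2 h3
    refine ⟨y, n, hn, hc, fun s => ?_, fun p hp => ?_, ?_⟩
    · rw [objSys_A, Obj.mem_A, hl]
      constructor
      · rintro ⟨q, hq, rfl⟩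
        rw [List.mem_append, List.mem_singleton] at hq
        rcases hq with hq | rfl
        · exact Or.inl ⟨q, hq, rfl⟩
        · exact Or.inr rfl
      · rintro (⟨q, hq, rfl⟩ | rfl)
        · exact ⟨q, List.mem_append_left _ hq, rfl⟩
        · exact ⟨(P, n), List.mem_append_right _ (List.mem_singleton_self _), rfl⟩
    · refine Obj.lab_eq_of_iff.2 ⟨⟨p.2, ?_⟩, rfl⟩
      rw [hl]
      exact List.mem_append_left _ hp
    · refine Obj.lab_eq_of_iff.2 ⟨⟨n, ?_⟩, rfl⟩
      rw [hl]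
      exact List.mem_append_right _ (List.mem_singleton_self _)

/-- The restriction to a set of base labels. -/
theorem rich_sub (hX : Exh X) {B : Type} (f : Cell M → B) (E : B → Prop) (hE : ∀ (σ : Cell M), σ.s.Nonempty → E (f σ)) :
    Rich ((objSys hX f).sub E) (fun y => y.1.cell) (OLab.of (M := M)) where
  lab y := (rich_objSys hX f).lab y.1
  nest y := (rich_objSys hX f).nest y.1
  rich := by
    intro σ l P m h1 h2 h3
    obtain ⟨y, n, hn, hc, H⟩ := (rich_objSys hX f).rich σ l P m h1 h2 h3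
    refine ⟨⟨y, ?_⟩, n, hn, hc, H⟩
    rw [objSys_base, hc]
    obtain ⟨p, hp⟩ := P.2.ne
    exact hE σ ⟨p.2, (h3 p hp).1⟩

theorem A_ph_le (hX : Exh X) {B : Type} (f : Cell M → B) (y : Obj X) :
    ∀ s ∈ (objSys hX f).A y, s.1 ≤ per M * (1 + per M) := by
  intro s hs
  obtain ⟨q, hq, rfl⟩ := Obj.mem_A.1 hs
  have := GLA2.rk_le q.1
  simp only
  omega

theorem R_le_objSys (hX : Exh X) {B : Type} (f : Cell M → B) (h : ℕ) (y : Obj X) :
    (objSys hX f).R h y ≤ per M * (1 + per M) := by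
  rw [FSys.R_le]
  intro d hd
  obtain ⟨n, h1, _⟩ := (FSys.mem_F _).1 hd
  exact A_ph_le hX f y _ h1

end Pool.Agent.GLC
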