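import Pool.Agent.Lib.MP_8f66f0_al_GLC.SpecOps
import Pool.Agent.Lib.MP_8f66f0_al_FL.Spec

/-!
# Project GLn, part C: `K₁` of the group from the two homotopies

`Geo`: the geometric data. `X` is the set of the cells, `ι` the real objects, `E` the set of the cells
with an odd number of members, `emp` the empty cell, `d` the augmented boundary, `p c` the contraction
with the vertex `c`. The families `Ph1 t`, `Ph2 t` agree for `t = 0`; `Ph2 1` is the permutation of the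
cells in `E`, and `Ph1 1` is conjugate, by `d + p b`, to the permutation of the cells outside `E`.
-/

set_option autoImplicit false

namespace Pool.Agent.GLC

open Pool.Agent.FL Pool.Agent.Wald Pool.Agent.Ind Pool.Agent.WaldL Pool.Agent.FH Matrix
open Pool.Agent.CC (Ex)
open scoped Polynomial

section Over

variable {Y0 Y B0 B C : Type} (Γ : Type) [Group Γ] [PartialOrder B0] [MulAction Γ B0]
  [PartialOrder B] [MulAction Γ B]

/-- `S0` is the system of some objects of `S`, with finer base labels. -/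
abbrev OverI (i : Y0 → Y) (S0 : FSys Y0 B0 C) (S : FSys Y B C) : Prop := Over Γ i S0 S

end Over

section Out

variable {Y0 Y B0 B C : Type} (Γ L : Type) [Group Γ] [PartialOrder B0] [MulAction Γ B0]
  [OrdAct Γ B0] [PartialOrder B] [MulAction Γ B] [OrdAct Γ B] [PartialOrder C] [MulAction Γ C]
  [OrdAct Γ C] [CommRing L]

/-- The output of part D. -/
def DOut {i : Y0 → Y} {S0 : FSys Y0 B0 C} {S : FSys Y B C} (H : OverI Γ i S0 S) : Prop :=
  ∀ (K : Type) [CommGroup K] (κ : K1Fun (MonoidAlgebra L Γ) K), KU κ →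
    ∃ κU : K1Fun (U Γ L S) K, Exk S κ κU ∧
      (∀ F0 F1 : U Γ L[X] S →+* U Γ L S, IsBc S (Polynomial.evalRingHom 0) F0 →
        IsBc S (Polynomial.evalRingHom 1) F1 → ∀ (n : Type) [Fintype n] [DecidableEq n]
        (z : Matrix n n (U Γ L[X] S)), IsUnit z → κU.f (z.map F0) = κU.f (z.map F1)) ∧
      ∀ I : U Γ L S0 →ₙ+* U Γ L S, (∀ z, (I z).1 = push H.inj z.1) →
        ∀ (n : Type) [Fintype n] [DecidableEq n] (z : Matrix n n (U Γ L S0)), IsUnit z →
          κU.f (Ex I z) = 1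

end Out

section Geo

variable {X β Y B C Γ : Type} [Group Γ] [MulAction Γ X] [MulAction Γ β] [PartialOrder B]
  [MulAction Γ B] [PartialOrder C] [MulAction Γ C]

/-- `Inw` for the matrices with integral entries. -/
def InwZ (S : FSys Y B C) (ι : X → Y) (g : Γ) (T : Module.End ℤ (X →₀ ℤ)) : Prop :=
  ∀ h', ∃ h, ∀ w v, (T (Finsupp.single v 1)) w ≠ 0 → Cmp S h h' g (ι w) (ι v)

variable (Γ) in
/-- The geometric data. -/
structure Geo (S : FSys Y B C) (ι : X → Y) (E : Set X) (emp : X)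
    (d : Module.End ℤ (X →₀ ℤ)) (p : β → Module.End ℤ (X →₀ ℤ)) : Prop where
  inj : Function.Injective ι
  triv : ∀ (g : Γ) (y y' : Y), g • S.base y ≤ S.base y'
  ct : ∀ c, Ct d (p c)
  d_eq : ∀ g : Γ, perm g * d = d * perm g
  p_eq : ∀ (g : Γ) c, perm g * p c = p (g • c) * perm g
  E_eq : ∀ (g : Γ) x, x ∈ E ↔ g • x ∈ E
  E_d : ∀ y x, (d (Finsupp.single x 1)) y ≠ 0 → (y ∈ E ↔ x ∉ E)
  E_p : ∀ c y x, (p c (Finsupp.single x 1)) y ≠ 0 → (y ∈ E ↔ x ∉ E)
  emp_eq : ∀ g : Γ, g • emp = emp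
  emp_E : emp ∉ E
  inw_d : InwZ S ι (1 : Γ) d
  inw_p : ∀ c, InwZ S ι (1 : Γ) (p c)
  inw_g : ∀ g : Γ, InwZ S ι g (perm (X := X) g)

/-- The scalar matrix. -/
noncomputable def scl (X : Type) {k : Type} [CommRing k] (t : k) : CF X k :=
  mkK (fun w v => open Classical in if w = v then t else 0) fun v => by
    refine (Set.finite_singleton v).subset fun w hw => ?_
    by_contra h
    exact hw (if_neg h)

variable {k : Type} [CommRing k]

/-- The first family. -/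
noncomputable def Ph1 (d : Module.End ℤ (X →₀ ℤ)) (p : β → Module.End ℤ (X →₀ ℤ)) (E : Set X)
    (b : β) (t : k) (g : Γ) : CF X k :=
  W1 (scl X t) (cfl X k d) (cfl X k (p b)) (cfl X k (p (g • b))) * cfl X k (perm g) *
    cfl X k (prj E)

/-- The second family. -/
noncomputable def Ph2 (d : Module.End ℤ (X →₀ ℤ)) (p : β → Module.End ℤ (X →₀ ℤ)) (E : Set X)
    (b : β) (t : k) (g : Γ) : CF X k :=
  W2 (scl X t) (cfl X k d) (cfl X k (p b)) (cfl X k (p (g • b))) * cfl X k (perm g) *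
    cfl X k (prj E)

variable (k) in
/-- The permutation of the basis elements in `E`. -/
noncomputable def PhE (E : Set X) (g : Γ) : CF X k := cfl X k (perm g) * cfl X k (prj E)

/-- `P x` is the matrix with the entries `∑ x_g Φ(g) g` at the real objects, and `0` at the others. -/
def IsPf {L : Type} [CommRing L] [OrdAct Γ B] [OrdAct Γ C] (S : FSys Y B C) (ι : X → Y)
    (φ : L →+* k) (Φ : Γ → CF X k) (P : MonoidAlgebra L Γ →ₙ+* U Γ k S) : Prop :=
  (∀ x g w v, cf (P x).1 g (ι w) (ι v) = φ (x.coeff g) * ent (Φ g) w v) ∧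
  ∀ x g y' y, cf (P x).1 g y' y ≠ 0 → ∃ w v, y' = ι w ∧ y = ι v

end Geo

/-! ### Statements -/

/-- The families. (`W1_one`, `W2_one`, `W_zero`; `(d + p (g • b)) * perm g = perm g * (d + p b)`,
`(d + p b) * prj E = prj Eᶜ * (d + p b)`. For (4): `W1 .. * .. = cfl a + scl t * cfl b`.) -/
def S_fam : Prop :=
  ∀ (X β Y B C Γ k : Type) [Group Γ] [MulAction Γ X] [MulAction Γ β] [PartialOrder B]
    [MulAction Γ B] [PartialOrder C] [MulAction Γ C] [CommRing k] (S : FSys Y B C) (ι : X → Y)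
    (E : Set X) (emp : X) (d : Module.End ℤ (X →₀ ℤ)) (p : β → Module.End ℤ (X →₀ ℤ)) (b : β),
    Geo Γ S ι E emp d p →
    (∀ g : Γ, Ph1 d p E b (1 : k) g = cfl X k (d + p b) * PhE k Eᶜ g * cfl X k (d + p b)) ∧
    (∀ g : Γ, Ph2 d p E b (1 : k) g = PhE k E g) ∧
    (∀ g : Γ, Ph1 d p E b (0 : k) g = Ph2 d p E b 0 g) ∧
    (∀ (k' : Type) [CommRing k'] (φ : k →+* k') (t : k) (g : Γ) (w v : X),
      ent (Ph1 d p E b (φ t) g) w v = φ (ent (Ph1 d p E b t g) w v) ∧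
      ent (Ph2 d p E b (φ t) g) w v = φ (ent (Ph2 d p E b t g) w v)) ∧
    cfl X k (d + p b) * cfl X k (d + p b) = 1 ∧ Inw S ι (1 : Γ) (cfl X k (d + p b)) ∧
    Bs (cfl X k (d + p b))

/-- The homomorphisms of the families. (`cocy`, `embF`, `inw`; for `PhE` the set `E'` is stable, so
`PhE E' (g h) = PhE E' g * PhE E' h`.) -/
def S_hfam : Prop :=
  ∀ (X β Y B C Γ L k : Type) [Group Γ] [MulAction Γ X] [MulAction Γ β] [PartialOrder B]
    [MulAction Γ B] [OrdAct Γ B] [PartialOrder C] [MulAction Γ C] [OrdAct Γ C] [CommRing L]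
    [CommRing k] (φ : L →+* k) (S : FSys Y B C) (ι : X → Y) (E : Set X) (emp : X)
    (d : Module.End ℤ (X →₀ ℤ)) (p : β → Module.End ℤ (X →₀ ℤ)) (b : β), Geo Γ S ι E emp d p →
    (∀ t : k, (∃ P : MonoidAlgebra L Γ →ₙ+* U Γ k S, IsPf S ι φ (Ph1 d p E b t) P) ∧
      ∃ P : MonoidAlgebra L Γ →ₙ+* U Γ k S, IsPf S ι φ (Ph2 d p E b t) P) ∧
    ∀ E' : Set X, (∀ (g : Γ) x, x ∈ E' ↔ g • x ∈ E') →
      ∃ P : MonoidAlgebra L Γ →ₙ+* U Γ k S, IsPf S ι φ (PhE k E') P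

/-- Conjugation with `F = 1 - (real part) + (d + p b)`: `F * F = 1`,
`Ex P1 A = F * Ex P2 A * F`. -/
def S_cjF : Prop :=
  ∀ (X Y B C Γ L K : Type) [Group Γ] [PartialOrder B] [MulAction Γ B] [OrdAct Γ B]
    [PartialOrder C] [MulAction Γ C] [OrdAct Γ C] [CommRing L] [CommGroup K] (S : FSys Y B C)
    (ι : X → Y) (_ : Function.Injective ι) (V : CF X L) (Φ1 Φ2 : Γ → CF X L)
    (P1 P2 : MonoidAlgebra L Γ →ₙ+* U Γ L S) (κU : K1Fun (U Γ L S) K),
    (∀ (g : Γ) (y y' : Y), g • S.base y ≤ S.base y') → V * V = 1 → Inw S ι (1 : Γ) V → Bs V →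
    (∀ g, Φ1 g = V * Φ2 g * V) → IsPf S ι (RingHom.id L) Φ1 P1 →
    IsPf S ι (RingHom.id L) Φ2 P2 →
    ∀ (n : Type) [Fintype n] [DecidableEq n] (A : Matrix n n (MonoidAlgebra L Γ)), IsUnit A →
      κU.f (Ex P1 A) = κU.f (Ex P2 A)

/-- The permutation matrices of the non-empty cells come from `S0`, so they are killed. (`z0` = the
restriction of `Ex P A`, `Ex I z0 = Ex P A`; `Ex I` is injective and multiplicative.) -/
def S_killE : Prop :=
  ∀ (X Y0 Y B0 B C Γ L K : Type) [Group Γ] [MulAction Γ X] [PartialOrder B0] [MulAction Γ B0]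
    [OrdAct Γ B0] [PartialOrder B] [MulAction Γ B] [OrdAct Γ B] [PartialOrder C] [MulAction Γ C]
    [OrdAct Γ C] [CommRing L] [CommGroup K] (i : Y0 → Y) (S0 : FSys Y0 B0 C) (S : FSys Y B C)
    (H : OverI Γ i S0 S) (ι : X → Y) (_ : Function.Injective ι) (E : Set X)
    (P : MonoidAlgebra L Γ →ₙ+* U Γ L S) (κU : K1Fun (U Γ L S) K),
    (∀ (g : Γ) x, x ∈ E ↔ g • x ∈ E) →
    (∀ (g : Γ), ∀ v ∈ E, ∃ y y' : Y0, i y = ι v ∧ i y' = ι (g • v) ∧
      g • S0.base y ≤ S0.base y') → IsPf S ι (RingHom.id L) (PhE L E) P →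
    (∀ I : U Γ L S0 →ₙ+* U Γ L S, (∀ z, (I z).1 = push H.inj z.1) →
      ∀ (n : Type) [Fintype n] [DecidableEq n] (z : Matrix n n (U Γ L S0)), IsUnit z →
        κU.f (Ex I z) = 1) →
    ∀ (n : Type) [Fintype n] [DecidableEq n] (A : Matrix n n (MonoidAlgebra L Γ)), IsUnit A →
      κU.f (Ex P A) = 1

/-- The empty cell. (`Spp {ι emp}`, the block of `Ex P A` is `A`.) -/
def S_empP : Prop :=
  ∀ (X Y B C Γ L K : Type) [Group Γ] [MulAction Γ X] [PartialOrder B] [MulAction Γ B]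
    [OrdAct Γ B] [PartialOrder C] [MulAction Γ C] [OrdAct Γ C] [CommRing L] [CommGroup K]
    (S : FSys Y B C) (ι : X → Y) (_ : Function.Injective ι) (emp : X)
    (P : MonoidAlgebra L Γ →ₙ+* U Γ L S) (κ : K1Fun (MonoidAlgebra L Γ) K)
    (κU : K1Fun (U Γ L S) K), (∀ g : Γ, g • emp = emp) →
    IsPf S ι (RingHom.id L) (PhE L {emp}) P → Exk S κ κU →
    ∀ (n : Type) [Fintype n] [DecidableEq n] (A : Matrix n n (MonoidAlgebra L Γ)), IsUnit A →
      κU.f (Ex P A) = κ.f A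

/-- Disjoint stable sets: `Ex P A = Ex P1 A * Ex P2 A`. (`P1 x * P2 y = 0`.) -/
def S_disP : Prop :=
  ∀ (X Y B C Γ L K : Type) [Group Γ] [MulAction Γ X] [PartialOrder B] [MulAction Γ B]
    [OrdAct Γ B] [PartialOrder C] [MulAction Γ C] [OrdAct Γ C] [CommRing L] [CommGroup K]
    (S : FSys Y B C) (ι : X → Y) (_ : Function.Injective ι) (E1 E2 : Set X)
    (P P1 P2 : MonoidAlgebra L Γ →ₙ+* U Γ L S) (κU : K1Fun (U Γ L S) K), Disjoint E1 E2 →
    (∀ (g : Γ) x, x ∈ E1 ↔ g • x ∈ E1) → (∀ (g : Γ) x, x ∈ E2 ↔ g • x ∈ E2) →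
    IsPf S ι (RingHom.id L) (PhE L (E1 ∪ E2)) P → IsPf S ι (RingHom.id L) (PhE L E1) P1 →
    IsPf S ι (RingHom.id L) (PhE L E2) P2 →
    ∀ (n : Type) [Fintype n] [DecidableEq n] (A : Matrix n n (MonoidAlgebra L Γ)), IsUnit A →
      κU.f (Ex P A) = κU.f (Ex P1 A) * κU.f (Ex P2 A)

/-- THE END. `K₁` of the group. -/
def S_kkB : Prop :=
  ∀ (X β Y0 Y B0 B C Γ : Type) [Group Γ] [MulAction Γ X] [MulAction Γ β] [Nonempty β]
    [PartialOrder B0] [MulAction Γ B0] [OrdAct Γ B0] [PartialOrder B] [MulAction Γ B]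
    [OrdAct Γ B] [PartialOrder C] [MulAction Γ C] [OrdAct Γ C] (i : Y0 → Y)
    (S0 : FSys Y0 B0 C) (S : FSys Y B C) (H : OverI Γ i S0 S) (ι : X → Y) (E : Set X) (emp : X)
    (d : Module.End ℤ (X →₀ ℤ)) (p : β → Module.End ℤ (X →₀ ℤ)), Geo Γ S ι E emp d p →
    (∀ (g : Γ) v, v ≠ emp → ∃ y y' : Y0, i y = ι v ∧ i y' = ι (g • v) ∧
      g • S0.base y ≤ S0.base y') →
    (∀ (L : Type) [CommRing L] [IsDomain L], IsEuc L → DOut Γ L H) → KK Γ

end Pool.Agent.GLC
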