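import Pool.Agent.Lib.MP_8f66f0_al_FL.Defs
import Pool.Agent.Lib.MP_8f66f0_al_GLC.Cfl

/-!
# Project GLn, part C: matrices on the real objects

`el hι g T`: the matrix over `k[Γ]` on `Y` with the entries `T_{w v} g` at `(ι w, ι v)`. `Inw S ι g T`:
the condition `Far` for `el hι g T`. `perm`: the permutation matrices. `Bs`: bounded coefficients.
-/

set_option autoImplicit false

namespace Pool.Agent.GLC

open Pool.Agent.FL

section El

variable {X Y k Γ : Type} [CommRing k] [Group Γ] {ι : X → Y}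

/-- The matrix `T g` over `k[Γ]` on `X`. -/
noncomputable def gm (g : Γ) (T : CF X k) : CF X (MonoidAlgebra k Γ) :=
  mkK (fun w v => MonoidAlgebra.single g (ent T w v)) fun v => (ent_col T v).subset fun w hw h => hw
    (by rw [h, MonoidAlgebra.single_zero])

/-- The matrix `T g` over `k[Γ]` on `Y`. -/
noncomputable def el (hι : Function.Injective ι) (g : Γ) (T : CF X k) :
    CF Y (MonoidAlgebra k Γ) := push hι (gm g T)

variable {B C : Type} [PartialOrder B] [MulAction Γ B] [OrdAct Γ B] [PartialOrder C]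
  [MulAction Γ C] [OrdAct Γ C]

/-- The condition on ranks and labels for `T g`. -/
def Inw (S : FSys Y B C) (ι : X → Y) (g : Γ) (T : CF X k) : Prop :=
  ∀ h', ∃ h, ∀ w v, ent T w v ≠ 0 → Cmp S h h' g (ι w) (ι v)

/-- The base labels are respected. -/
def Bse (S : FSys Y B C) (ι : X → Y) (g : Γ) (T : CF X k) : Prop :=
  ∀ w v, ent T w v ≠ 0 → g • S.base (ι v) ≤ S.base (ι w)

/-- The entries lie in a finitely generated group. -/
def Bs (T : CF X k) : Prop := ∃ P : Submodule ℤ k, P.FG ∧ ∀ w v, ent T w v ∈ P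

end El

/-- The permutation matrices. -/
noncomputable def perm {X Γ : Type} [Group Γ] [MulAction Γ X] (g : Γ) :
    Module.End ℤ (X →₀ ℤ) := Finsupp.lmapDomain ℤ ℤ (g • · : X → X)

/-- The projection to the basis elements in `E`. -/
noncomputable def prj {X : Type} (E : Set X) : Module.End ℤ (X →₀ ℤ) := by
  classical exact Finsupp.lsum ℤ fun x => if x ∈ E then Finsupp.lsingle x else 0

/-! ### Statements -/

/-- The rules for `el`. -/
def S_el : Prop :=
  ∀ (X Y k Γ : Type) [CommRing k] [Group Γ] (ι : X → Y) (hι : Function.Injective ι),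
    (∀ (g : Γ) (T : CF X k) w v, cf (el hι g T) g (ι w) (ι v) = ent T w v) ∧
    (∀ (g g' : Γ) (T : CF X k) y' y, cf (el hι g T) g' y' y ≠ 0 →
      g' = g ∧ ∃ w v, y' = ι w ∧ y = ι v ∧ ent T w v ≠ 0) ∧
    (∀ (g g' : Γ) (T U : CF X k), el hι g T * el hι g' U = el hι (g * g') (T * U)) ∧
    (∀ (g : Γ) (T U : CF X k), el hι g (T + U) = el hι g T + el hι g U)

/-- Membership in `U`. -/
def S_el_mem : Prop :=
  ∀ (X Y B C k Γ : Type) [CommRing k] [Group Γ] [PartialOrder B] [MulAction Γ B] [OrdAct Γ B]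
    [PartialOrder C] [MulAction Γ C] [OrdAct Γ C] (S : FSys Y B C) (ι : X → Y)
    (hι : Function.Injective ι) (g : Γ) (T : CF X k), Bse S ι g T → Inw S ι g T → Bs T →
    el hι g T ∈ U Γ k S

/-- `Inw`, `Bse`, `Bs` for products, sums, and for central multiples `c T` (`c` a scalar matrix
commuting: here `T` is multiplied by the scalar `c` entrywise, `ent T' w v = c * ent T w v`). -/
def S_inw : Prop :=
  ∀ (X Y B C k Γ : Type) [CommRing k] [Group Γ] [PartialOrder B] [MulAction Γ B] [OrdAct Γ B]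
    [PartialOrder C] [MulAction Γ C] [OrdAct Γ C] (S : FSys Y B C) (ι : X → Y),
    (∀ (g g' : Γ) (T U : CF X k), Inw S ι g T → Inw S ι g' U → Inw S ι (g * g') (T * U)) ∧
    (∀ (g : Γ) (T U : CF X k), Inw S ι g T → Inw S ι g U → Inw S ι g (T + U)) ∧
    (∀ (g g' : Γ) (T U : CF X k), Bse S ι g T → Bse S ι g' U → Bse S ι (g * g') (T * U)) ∧
    (∀ (g : Γ) (T U : CF X k), Bse S ι g T → Bse S ι g U → Bse S ι g (T + U)) ∧
    (∀ T U : CF X k, Bs T → Bs U → Bs (T * U) ∧ Bs (T + U)) ∧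
    (∀ T : Module.End ℤ (X →₀ ℤ), Bs (cfl X k T))

/-- The homomorphism `L[Γ] → U`, `x ↦ ∑ x_g Φ(g) g`, for a multiplicative family `Φ`. -/
def S_embF : Prop :=
  ∀ (X Y B C k L Γ : Type) [CommRing k] [CommRing L] [Group Γ] [PartialOrder B] [MulAction Γ B]
    [OrdAct Γ B] [PartialOrder C] [MulAction Γ C] [OrdAct Γ C] (S : FSys Y B C) (ι : X → Y)
    (_ : Function.Injective ι) (φ : L →+* k) (Φ : Γ → CF X k), (∀ g h, Φ (g * h) = Φ g * Φ h) →
    (∀ g, Bse S ι g (Φ g)) → (∀ g, Inw S ι g (Φ g)) → (∀ g, Bs (Φ g)) →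
    ∃ P : MonoidAlgebra L Γ →ₙ+* U Γ k S,
      (∀ x g w v, cf (P x).1 g (ι w) (ι v) = φ (x.coeff g) * ent (Φ g) w v) ∧
      ∀ x g y' y, cf (P x).1 g y' y ≠ 0 → ∃ w v, y' = ι w ∧ y = ι v

/-- The cocycles give multiplicative families. Hypotheses: `d` and the contractions `p c` are
equivariant, `E` is a `Γ`-stable set of basis elements which is preserved by the products of two of the
operators `d`, `p c`. -/
def S_cocy : Prop :=
  ∀ (X β k Γ : Type) [CommRing k] [Group Γ] [MulAction Γ X] [MulAction Γ β]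
    (d : Module.End ℤ (X →₀ ℤ)) (p : β → Module.End ℤ (X →₀ ℤ)) (E : Set X) (b : β) (t : k)
    (tt : CF X k), (∀ w v, ent tt w v ≠ 0 → w = v) → (∀ v, ent tt v v = t) →
    (∀ c, Ct d (p c)) → (∀ g : Γ, perm g * d = d * perm g) →
    (∀ (g : Γ) c, perm g * p c = p (g • c) * perm g) → (∀ (g : Γ) x, x ∈ E ↔ g • x ∈ E) →
    (∀ y x, (d (Finsupp.single x 1)) y ≠ 0 → (y ∈ E ↔ x ∉ E)) →
    (∀ c y x, (p c (Finsupp.single x 1)) y ≠ 0 → (y ∈ E ↔ x ∉ E)) →
    let Φ1 : Γ → CF X k := fun g => W1 tt (cfl X k d) (cfl X k (p b)) (cfl X k (p (g • b))) *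
      cfl X k (perm g) * cfl X k (prj E)
    let Φ2 : Γ → CF X k := fun g => W2 tt (cfl X k d) (cfl X k (p b)) (cfl X k (p (g • b))) *
      cfl X k (perm g) * cfl X k (prj E)
    (∀ g h, Φ1 (g * h) = Φ1 g * Φ1 h) ∧ (∀ g h, Φ2 (g * h) = Φ2 g * Φ2 h)

end Pool.Agent.GLC
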