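import Pool.Agent.Lib.MP_8f66f0_al_GLC.SpecSS

/-!
# Project GLn, part C: the chain groups and the cycles as modules over the group
-/

set_option autoImplicit false

namespace Pool.Agent.GLC

open Pool.Agent.Hier

namespace SsC

section

variable {X Γ : Type} [Group Γ] [MulAction Γ X]

theorem perm_single (g : Γ) (x : X) (n : ℤ) :
    perm g (Finsupp.single x n) = Finsupp.single (g • x) n := by
  simp [perm, Finsupp.lmapDomain_apply, Finsupp.mapDomain_single]

theorem perm_one : perm (1 : Γ) = (1 : Module.End ℤ (X →₀ ℤ)) := by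
  refine Finsupp.lhom_ext fun x n => ?_
  rw [perm_single, one_smul]; rfl

theorem perm_mul (g h : Γ) :
    (perm (g * h) : Module.End ℤ (X →₀ ℤ)) = perm g * perm h := by
  refine Finsupp.lhom_ext fun x n => ?_
  rw [Module.End.mul_apply, perm_single, perm_single, perm_single, mul_smul]

theorem perm_apply (g : Γ) (v : X →₀ ℤ) (x : X) : perm g v (g • x) = v x := by
  have h : perm g v = Finsupp.mapDomain (g • · : X → X) v := rfl
  rw [h]
  exact Finsupp.mapDomain_apply (MulAction.injective g) v x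

theorem perm_apply' (g : Γ) (v : X →₀ ℤ) (x : X) : perm g v x = v (g⁻¹ • x) := by
  have := perm_apply g v (g⁻¹ • x)
  rwa [smul_inv_smul] at this

/-- The chains of the cells with `i` members. -/
def Ch (dim : X → ℕ) (i : ℕ) : AddSubgroup (X →₀ ℤ) where
  carrier := {v | ∀ x, v x ≠ 0 → dim x = i}
  zero_mem' := fun x h => absurd rfl h
  add_mem' := by
    intro a b ha hb x hx
    by_contra hc
    have h1 : a x = 0 := by by_contra h; exact hc (ha x h)
    have h2 : b x = 0 := by by_contra h; exact hc (hb x h)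
    exact hx (by rw [Finsupp.add_apply, h1, h2, add_zero])
  neg_mem' := by
    intro a ha x hx
    exact ha x fun h => hx (by rw [Finsupp.neg_apply, h, neg_zero])

/-- The cycles. -/
def Cy (dim : X → ℕ) (d : Module.End ℤ (X →₀ ℤ)) (i : ℕ) : AddSubgroup (X →₀ ℤ) where
  carrier := {v | v ∈ Ch dim i ∧ d v = 0}
  zero_mem' := ⟨zero_mem _, map_zero d⟩
  add_mem' := fun ha hb => ⟨add_mem ha.1 hb.1, by rw [map_add, ha.2, hb.2, add_zero]⟩
  neg_mem' := fun ha => ⟨neg_mem ha.1, by rw [map_neg, ha.2, neg_zero]⟩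

theorem mem_Ch {dim : X → ℕ} {i : ℕ} {v : X →₀ ℤ} :
    v ∈ Ch dim i ↔ ∀ x, v x ≠ 0 → dim x = i := Iff.rfl

theorem mem_Cy {dim : X → ℕ} {d : Module.End ℤ (X →₀ ℤ)} {i : ℕ} {v : X →₀ ℤ} :
    v ∈ Cy dim d i ↔ v ∈ Ch dim i ∧ d v = 0 := Iff.rfl

theorem single_mem {dim : X → ℕ} {x : X} {n : ℤ} : Finsupp.single x n ∈ Ch dim (dim x) := by
  intro y hy
  by_contra h
  exact hy (Finsupp.single_eq_of_ne fun h' => h (by rw [h']))

theorem perm_mem {dim : X → ℕ} (hd : ∀ (g : Γ) x, dim (g • x) = dim x) (g : Γ) {i : ℕ}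
    {v : X →₀ ℤ} (hv : v ∈ Ch dim i) : perm g v ∈ Ch dim i := by
  intro x hx
  rw [perm_apply'] at hx
  rw [← hv _ hx, hd]

/-- An operator which changes the number of members. -/
theorem op_mem {dim : X → ℕ} {q : Module.End ℤ (X →₀ ℤ)} {i j : ℕ}
    (hq : ∀ x y, dim x = i → (q (Finsupp.single x 1)) y ≠ 0 → dim y = j) {v : X →₀ ℤ}
    (hv : v ∈ Ch dim i) : q v ∈ Ch dim j := by
  have h : q v = v.sum fun x n => n • q (Finsupp.single x 1) := by
    conv_lhs => rw [← Finsupp.sum_single v]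
    rw [Finsupp.sum, map_sum, Finsupp.sum]
    refine Finset.sum_congr rfl fun x _ => ?_
    rw [← map_zsmul, Finsupp.smul_single, smul_eq_mul, mul_one]
  rw [h, Finsupp.sum]
  refine sum_mem fun x hx => ?_
  refine zsmul_mem ?_ _
  intro y hy
  exact hq x y (hv x (Finsupp.mem_support_iff.mp hx)) hy

end

end SsC

end Pool.Agent.GLC
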