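import Pool.Agent.Lib.MP_8f66f0_al_FL.Defs
import Pool.Agent.Lib.MP_8f66f0_al_GLA.Toggle

/-!
# Toggle posets: subtypes which are unions of components, discrete posets
-/

set_option autoImplicit false

namespace Pool.Agent.GLC

open Pool.Agent.FL Pool.Agent.GLA Pool.Agent.GLA.TogglePoset

/-- A group acting on a toggle poset acts monotonically. -/
instance ordAct_of_toggleAct {G P : Type} [Group G] [TogglePoset P] [ToggleAct G P] :
    OrdAct G P :=
  ⟨fun g {a b} h => ToggleAct.smul_mono g a b h⟩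

/-! ### Subtypes -/

section sub

variable {P : Type} [TogglePoset P] (Q : P → Prop) (h : ∀ l x : P, l ≤ x → (Q l ↔ Q x))

open Classical in
/-- The toggle poset of the elements with the property `Q`, if `Q l ↔ Q x` for all `l ≤ x`. -/
noncomputable abbrev subToggle : TogglePoset {p // Q p} where
  toPartialOrder := Subtype.partialOrder Q
  nu x y := nu x.1 y.1
  nu_add x y z hxy hyz := nu_add x.1 y.1 z.1 hxy hyz
  eq_of_nu x y hxy h0 := Subtype.ext (eq_of_nu x.1 y.1 hxy h0)
  bd y x := bd y.1 x.1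
  bnd := bnd P
  bd_le y x hb := bd_le y.1 x.1 hb
  bd_refl x := bd_refl x.1
  bd_face y y' x' x h1 h2 h3 hb := bd_face y.1 y'.1 x'.1 x.1 h1 h2 h3 hb
  bd_nu y x hb := bd_nu y.1 x.1 hb
  psi l x := if hl : l.1 ≤ x.1 then ⟨psi l.1 x.1, (h _ _ (le_psi l.1 x.1 hl)).1 l.2⟩ else l
  le_psi l x hl := by
    rw [dif_pos (show l.1 ≤ x.1 from hl)]
    exact le_psi l.1 x.1 hl
  psi_le l x hl := by
    rw [dif_pos (show l.1 ≤ x.1 from hl)]
    exact psi_le l.1 x.1 hl
  eq_of_psi l x hl he := by
    rw [dif_pos (show l.1 ≤ x.1 from hl)] at he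
    exact Subtype.ext (eq_of_psi l.1 x.1 hl (congrArg Subtype.val he))
  psi_mono l x y hl hxy := by
    rw [dif_pos (show l.1 ≤ x.1 from hl), dif_pos (show l.1 ≤ y.1 from le_trans hl hxy)]
    exact psi_mono l.1 x.1 y.1 hl hxy
  bd_psi l x hl := by
    rw [dif_pos (show l.1 ≤ x.1 from hl)]
    exact bd_psi l.1 x.1 hl
  psi_bd l y x hl hb := by
    rw [dif_pos (show l.1 ≤ x.1 from le_trans hl (bd_le y.1 x.1 hb))]
    exact psi_bd l.1 y.1 x.1 hl hb

theorem subToggle_psi (l x : {p // Q p}) (hl : l.1 ≤ x.1) :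
    ((subToggle Q h).psi l x).1 = psi l.1 x.1 :=
  congrArg Subtype.val (dif_pos hl)

variable {G : Type} [Group G] [ToggleAct G P] (hG : ∀ (g : G) (p : P), Q p → Q (g • p))

/-- The action on the elements with the property `Q`. -/
abbrev subMulAction : MulAction G {p // Q p} where
  smul g x := ⟨g • x.1, hG g x.1 x.2⟩
  one_smul x := Subtype.ext (one_smul G x.1)
  mul_smul g g' x := Subtype.ext (mul_smul g g' x.1)

/-- The action on the elements with the property `Q`, as an action on a toggle poset. -/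
noncomputable abbrev subToggleAct : @ToggleAct G {p // Q p} _ (subToggle Q h) :=
  letI := subToggle Q h
  { toMulAction := subMulAction Q hG
    smul_mono := fun g x y hxy => ToggleAct.smul_mono g x.1 y.1 hxy
    nu_smul := fun g x y hxy => ToggleAct.nu_smul g x.1 y.1 hxy
    bd_smul := fun g y x hb => ToggleAct.bd_smul g y.1 x.1 hb
    psi_smul := fun g l x hl => Subtype.ext (by
      refine (subToggle_psi Q h _ _ (ToggleAct.smul_mono g l.1 x.1 hl)).trans ?_
      refine (ToggleAct.psi_smul g l.1 x.1 hl).trans ?_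
      exact congrArg (fun p => g • p) (subToggle_psi Q h l x hl).symm) }

end sub

/-! ### Discrete posets -/

/-- The type `X` with the discrete order. -/
def Dsc (X : Type) : Type := X

section dsc

variable (X : Type)

instance : PartialOrder (Dsc X) where
  le a b := a = b
  le_refl _ := rfl
  le_trans _ _ _ h1 h2 := h1.trans h2
  le_antisymm _ _ h1 _ := h1

variable {X}

theorem Dsc.le_iff {a b : Dsc X} : a ≤ b ↔ a = b := Iff.rfl

instance {G : Type} [Monoid G] [MulAction G X] : MulAction G (Dsc X) :=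
  inferInstanceAs (MulAction G X)

instance {G : Type} [Group G] [MulAction G X] : OrdAct G (Dsc X) :=
  ⟨fun g {_ _} h => congrArg (fun x => g • x) h⟩

instance : TogglePoset (Dsc X) where
  toPartialOrder := inferInstance
  nu _ _ := 0
  nu_add _ _ _ _ _ := rfl
  eq_of_nu _ _ h _ := h
  bd a b := a = b
  bnd := 0
  bd_le _ _ h := h
  bd_refl _ := rfl
  bd_face _ _ _ _ _ h _ _ := h
  bd_nu _ _ _ := le_rfl
  psi l _ := l
  le_psi _ _ _ := le_rfl
  psi_le _ _ h := h
  eq_of_psi _ _ _ h := h.symm
  psi_mono _ _ _ _ _ := le_rfl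
  bd_psi _ _ h := h
  psi_bd _ _ _ h _ := h

instance {G : Type} [Group G] [MulAction G X] : ToggleAct G (Dsc X) where
  toMulAction := inferInstance
  smul_mono g _ _ h := congrArg (fun x => g • x) h
  nu_smul _ _ _ _ := rfl
  bd_smul g _ _ h := congrArg (fun x => g • x) h
  psi_smul _ _ _ _ := rfl

end dsc

end Pool.Agent.GLC
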