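import Pool.Agent.Lib.MP_8f66f0_al_GLC.Ph1
import Pool.Agent.Lib.MP_8f66f0_al_GLC.SubT

/-!
# PROJECT GLn, part C: the flag systems

`objSys hX f`: the flag system of the objects `Obj X` with the base label `f (cell y)`.
`S0 hX`: the base label is the cell (discrete order). `Sp hX`: no base label.
`FSys.sub S E`: the objects with base label in `E`.
-/

set_option autoImplicit false

namespace Pool.Agent.GLC

open Pool.Agent.GLA Pool.Agent.FL

section Sys

variable {M : Type} [ShL M] {X : ℕ → Set M}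

/-- The flag system of the objects. -/
noncomputable def objSys {B : Type} (hX : Exh X) (f : Cell M → B) : FSys (Obj X) B (OLab M) where
  A := Obj.A
  inj := by
    intro y s hs t ht hst
    obtain ⟨q, hq, rfl⟩ := Obj.mem_A.1 hs
    obtain ⟨q', hq', rfl⟩ := Obj.mem_A.1 ht
    rw [Obj.ph_inj hq hq' hst]
  pos := by
    intro y s hs
    obtain ⟨q, hq, rfl⟩ := Obj.mem_A.1 hs
    have := Lab.two_le_rk q.1
    simp only
    omega
  fin := Obj.obj_fin hX
  base y := f y.cell
  lab := Obj.lab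
  re := Obj.re hX.mono
  A_re := by
    intro φ hφ y
    ext s
    rw [Obj.re_eq hX.mono hφ, Obj.mem_A, Finset.mem_image]
    constructor
    · rintro ⟨q, hq, rfl⟩
      change q ∈ y.l.map _ at hq
      rw [List.mem_map] at hq
      obtain ⟨q', hq', rfl⟩ := hq
      exact ⟨(q'.1.rk - 1, q'.2), Obj.mem_A.2 ⟨q', hq', rfl⟩, rfl⟩
    · rintro ⟨t, ht, rfl⟩
      obtain ⟨q, hq, rfl⟩ := Obj.mem_A.1 ht
      exact ⟨(q.1, φ (q.1.rk - 1) q.2), List.mem_map.2 ⟨q, hq, rfl⟩, rfl⟩
  base_re := by
    intro φ y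
    unfold Obj.re
    split_ifs <;> rfl
  lab_re := by
    intro φ y
    funext d
    unfold Obj.re
    split_ifs with hφ
    · change List.find? _ ((Obj.chg φ y.l).map Prod.fst) = List.find? _ (y.l.map Prod.fst)
      rw [Obj.chg_fst]
    · rfl
  re_re := by
    intro φ ψ hφ hψ y
    rw [Obj.re_eq hX.mono hψ, Obj.re_eq hX.mono hφ, Obj.re_eq hX.mono (hφ.comp hψ)]
    refine Obj.ext rfl ?_
    change (y.l.map _).map _ = y.l.map _
    rw [List.map_map]
    rfl
  re_congr := by
    intro φ ψ hφ hψ y h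
    rw [Obj.re_eq hX.mono hψ, Obj.re_eq hX.mono hφ]
    refine Obj.ext rfl (List.map_congr_left fun q hq => ?_)
    have := h _ (Obj.mem_A.2 ⟨q, hq, rfl⟩)
    simp only at this
    rw [this]
  re_id := by
    intro y
    rw [Obj.re_eq hX.mono Gd.id]
    refine Obj.ext rfl ?_
    change y.l.map (fun q => (q.1, q.2)) = y.l
    exact List.map_id _
  re_inj := by
    intro φ hφ y y' h
    rw [Obj.re_eq hX.mono hφ, Obj.re_eq hX.mono hφ] at h
    refine Obj.ext (show (Obj.reG hX.mono φ hφ y).cell = (Obj.reG hX.mono φ hφ y').cell from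
      congrArg Obj.cell h) ?_
    have h1 : y.l.map (fun q => (q.1, φ (q.1.rk - 1) q.2)) =
        y'.l.map (fun q => (q.1, φ (q.1.rk - 1) q.2)) := congrArg Obj.l h
    refine (List.map_injective_iff.2 ?_) h1
    intro q q' hqq
    simp only [Prod.mk.injEq] at hqq
    obtain ⟨h2, h3⟩ := hqq
    rw [h2] at h3
    exact Prod.ext h2 (hφ.inj h3)
  ph1 := by
    intro y hy m
    obtain ⟨y', h1, h2, h3, h4⟩ := Obj.ph1 hX y hy m
    exact ⟨y', h1, h2, congrArg f h3, h4⟩

variable (hX : Exh X)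

/-- The base label is the cell. -/
noncomputable abbrev S0 : FSys (Obj X) (Dsc (Cell M)) (OLab M) := objSys hX fun σ => σ

/-- No base label. -/
noncomputable abbrev Sp : FSys (Obj X) Unit (OLab M) := objSys hX fun _ => ()

theorem objSys_A {B : Type} (f : Cell M → B) (y : Obj X) : (objSys hX f).A y = y.A := rfl

theorem objSys_lab {B : Type} (f : Cell M → B) (y : Obj X) : (objSys hX f).lab y = y.lab := rfl

theorem objSys_base {B : Type} (f : Cell M → B) (y : Obj X) :
    (objSys hX f).base y = f y.cell := rfl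

theorem objSys_R {B B' : Type} (f : Cell M → B) (f' : Cell M → B') (h : ℕ) (y : Obj X) :
    (objSys hX f).R h y = (objSys hX f').R h y := rfl

end Sys

section Forget

instance (Γ : Type) [Group Γ] : OrdAct Γ Unit := ⟨fun _ {_ _} _ => le_refl _⟩

variable {M : Type} [ShL M] {X : ℕ → Set M} (hX : Exh X) (Γ k : Type) [Group Γ] [ShAct Γ M]
  [CommRing k]

/-- Forgetting the base label. -/
theorem U_S0_le : U Γ k (S0 hX) ≤ U Γ k (Sp hX) := by
  rintro z ⟨_, h2, h3⟩
  exact ⟨fun _ _ _ _ => le_refl _, h2, h3⟩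

end Forget

section Sub

variable {Y B C : Type}

/-- The objects with base label in `E`. -/
def _root_.Pool.Agent.FL.FSys.sub (S : FSys Y B C) (E : B → Prop) :
    FSys {y : Y // E (S.base y)} B C where
  A y := S.A y.1
  inj y := S.inj y.1
  pos y := S.pos y.1
  fin h := (S.fin h).preimage Subtype.val_injective.injOn
  base y := S.base y.1
  lab y := S.lab y.1
  re φ y := ⟨S.re φ y.1, by rw [S.base_re]; exact y.2⟩
  A_re φ hφ y := S.A_re φ hφ y.1
  base_re φ y := S.base_re φ y.1
  lab_re φ y := S.lab_re φ y.1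
  re_re φ ψ hφ hψ y := Subtype.ext (S.re_re φ ψ hφ hψ y.1)
  re_congr φ ψ hφ hψ y h := Subtype.ext (S.re_congr φ ψ hφ hψ y.1 h)
  re_id y := Subtype.ext (S.re_id y.1)
  re_inj φ hφ y y' h := Subtype.ext (S.re_inj φ hφ (congrArg Subtype.val h))
  ph1 := by
    intro y hy m
    obtain ⟨y', h1, h2, h3, h4⟩ := S.ph1 y.1 hy m
    exact ⟨⟨y', by rw [h3]; exact y.2⟩, h1, h2, h3, h4⟩

variable {Γ k : Type} [Group Γ] [PartialOrder B] [MulAction Γ B] [OrdAct Γ B]
  [PartialOrder C] [MulAction Γ C] [OrdAct Γ C] [CommRing k] (S : FSys Y B C) (E : B → Prop)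

theorem sub_R (h : ℕ) (y : {y : Y // E (S.base y)}) : (S.sub E).R h y = S.R h y.1 := rfl

theorem push_sub_mem_U {z : CF {y : Y // E (S.base y)} (MonoidAlgebra k Γ)}
    (hz : z ∈ U Γ k (S.sub E)) : push Subtype.val_injective z ∈ U Γ k S := by
  obtain ⟨h1, h2, P, hP, h3⟩ := hz
  refine ⟨fun g y' y hc => ?_, fun h' => ?_, P, hP, fun g y' y => ?_⟩
  · obtain ⟨y', y, rfl, rfl, hd⟩ := cf_push_ne _ hc
    exact h1 g y' y hd
  · obtain ⟨h4, H⟩ := h2 h'
    refine ⟨h4, fun g y' y hc => ?_⟩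
    obtain ⟨y', y, rfl, rfl, hd⟩ := cf_push_ne _ hc
    exact H g y' y hd
  · by_cases hc : cf (push Subtype.val_injective z) g y' y = 0
    · rw [hc]
      exact P.zero_mem
    · obtain ⟨y', y, rfl, rfl, _⟩ := cf_push_ne _ hc
      rw [cf_push]
      exact h3 g y' y

variable (Γ k)

/-- Extension by zero. -/
noncomputable def subHom : U Γ k (S.sub E) →ₙ+* U Γ k S where
  toFun z := ⟨push Subtype.val_injective z.1, push_sub_mem_U S E z.2⟩
  map_mul' a c := Subtype.ext (map_mul (push Subtype.val_injective) a.1 c.1)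
  map_zero' := Subtype.ext (map_zero (push Subtype.val_injective))
  map_add' a c := Subtype.ext (map_add (push Subtype.val_injective) a.1 c.1)

variable {Γ k}

theorem subHom_val (z : U Γ k (S.sub E)) :
    (subHom Γ k S E z).1 = push Subtype.val_injective z.1 := rfl

end Sub

end Pool.Agent.GLC
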